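import Mathlib
import Pool.Agent.H576.CR.Stm

set_option autoImplicit false

/-!
# Project CR, lemma FLAT

`O(n)` quadratic forms on `ℂⁿ` whose sum of squares is comparable to `|z|⁴`, from the net lemma and the
two tail bounds for random quadratic forms.
-/

namespace Pool.Agent.H962

open Finset Pool.Agent.H576.CR

namespace CRFlat

/-- the Euclidean norm of the vector of the values of the forms -/
noncomputable def qn {n N : ℕ} (E : Fin N → (Fin n × Fin n → Bool)) (z : Fin n → ℂ) : ℝ :=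
  ‖(WithLp.toLp 2 (fun k => rq (E k) z) : EuclideanSpace ℂ (Fin N))‖

lemma qn_sq {n N : ℕ} (E : Fin N → (Fin n × Fin n → Bool)) (z : Fin n → ℂ) :
    qn E z ^ 2 = ∑ k, ‖rq (E k) z‖ ^ 2 := by
  unfold qn
  rw [EuclideanSpace.norm_sq_eq]

lemma qn_nonneg {n N : ℕ} (E : Fin N → (Fin n × Fin n → Bool)) (z : Fin n → ℂ) :
    0 ≤ qn E z := norm_nonneg _

lemma nsq_eq {n : ℕ} (z : Fin n → ℂ) :
    nsq z = ‖(WithLp.toLp 2 z : EuclideanSpace ℂ (Fin n))‖ ^ 2 := by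
  unfold nsq
  rw [EuclideanSpace.norm_sq_eq]

lemma nsq_nonneg {n : ℕ} (z : Fin n → ℂ) : 0 ≤ nsq z := by
  unfold nsq
  positivity

lemma nsq_smul {n : ℕ} (c : ℂ) (z : Fin n → ℂ) : nsq (c • z) = ‖c‖ ^ 2 * nsq z := by
  unfold nsq
  rw [Finset.mul_sum]
  refine Finset.sum_congr rfl fun i _ => ?_
  rw [Pi.smul_apply, smul_eq_mul, norm_mul, mul_pow]

lemma nsq_par {n : ℕ} (a b : Fin n → ℂ) :
    nsq (a + b) + nsq (a - b) = 2 * (nsq a + nsq b) := by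
  have h := parallelogram_law_with_norm ℂ (WithLp.toLp 2 a : EuclideanSpace ℂ (Fin n))
    (WithLp.toLp 2 b)
  rw [nsq_eq, nsq_eq, nsq_eq, nsq_eq, WithLp.toLp_add, WithLp.toLp_sub]
  exact h

lemma rq_smul {n : ℕ} (e : Fin n × Fin n → Bool) (c : ℂ) (z : Fin n → ℂ) :
    rq e (c • z) = c ^ 2 * rq e z := by
  unfold rq
  rw [Finset.mul_sum]
  refine Finset.sum_congr rfl fun p _ => ?_
  rw [Pi.smul_apply, Pi.smul_apply, smul_eq_mul, smul_eq_mul]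
  ring

lemma qn_smul {n N : ℕ} (E : Fin N → (Fin n × Fin n → Bool)) (c : ℂ) (z : Fin n → ℂ) :
    qn E (c • z) = ‖c‖ ^ 2 * qn E z := by
  unfold qn
  have : (WithLp.toLp 2 (fun k => rq (E k) (c • z)) : EuclideanSpace ℂ (Fin N)) =
      (c ^ 2) • (WithLp.toLp 2 (fun k => rq (E k) z) : EuclideanSpace ℂ (Fin N)) := by
    rw [← WithLp.toLp_smul]
    refine congrArg (WithLp.toLp 2) ?_
    funext k
    rw [Pi.smul_apply, smul_eq_mul, rq_smul]
  rw [this, norm_smul, norm_pow]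

lemma rq_diff {n : ℕ} (e : Fin n × Fin n → Bool) (s : ℂ) (hs : s ≠ 0) (z w : Fin n → ℂ) :
    rq e z = rq e w + (4⁻¹ : ℂ) * (rq e (s • (z - w) + s⁻¹ • (z + w)) -
      rq e (s • (z - w) - s⁻¹ • (z + w))) := by
  unfold rq
  rw [← Finset.sum_sub_distrib, Finset.mul_sum, ← Finset.sum_add_distrib]
  refine Finset.sum_congr rfl fun p _ => ?_
  simp only [Pi.add_apply, Pi.sub_apply, Pi.smul_apply, smul_eq_mul]
  field_simp
  ring

lemma qn_diff {n N : ℕ} (E : Fin N → (Fin n × Fin n → Bool)) (s : ℂ) (hs : s ≠ 0)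
    (z w : Fin n → ℂ) :
    ‖qn E z - qn E w‖ ≤ (qn E (s • (z - w) + s⁻¹ • (z + w)) +
      qn E (s • (z - w) - s⁻¹ • (z + w))) / 4 := by
  unfold qn
  refine (abs_norm_sub_norm_le _ _).trans ?_
  have : (WithLp.toLp 2 (fun k => rq (E k) z) : EuclideanSpace ℂ (Fin N)) -
      WithLp.toLp 2 (fun k => rq (E k) w) = (4⁻¹ : ℂ) •
      ((WithLp.toLp 2 (fun k => rq (E k) (s • (z - w) + s⁻¹ • (z + w))) :
          EuclideanSpace ℂ (Fin N)) -
        WithLp.toLp 2 (fun k => rq (E k) (s • (z - w) - s⁻¹ • (z + w)))) := by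
    rw [← WithLp.toLp_sub, ← WithLp.toLp_sub, ← WithLp.toLp_smul]
    refine congrArg (WithLp.toLp 2) ?_
    funext k
    rw [Pi.smul_apply, Pi.sub_apply, Pi.sub_apply, smul_eq_mul, rq_diff (E k) s hs z w]
    ring
  rw [this, norm_smul]
  have h4 : ‖(4⁻¹ : ℂ)‖ = 1 / 4 := by norm_num
  rw [h4]
  have h5 := norm_sub_le (WithLp.toLp 2 (fun k => rq (E k) (s • (z - w) + s⁻¹ • (z + w))) :
          EuclideanSpace ℂ (Fin N))
        (WithLp.toLp 2 (fun k => rq (E k) (s • (z - w) - s⁻¹ • (z + w))))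
  linarith

/-- the bound of a difference -/
lemma qn_diff_le {n N : ℕ} (E : Fin N → (Fin n × Fin n → Bool)) (A : ℝ)
    (hA : ∀ z, qn E z ≤ A * nsq z) (s : ℝ) (hs : 0 < s) (z w : Fin n → ℂ) :
    |qn E z - qn E w| ≤ A / 2 * (s ^ 2 * nsq (z - w) + (s ^ 2)⁻¹ * nsq (z + w)) := by
  have hs' : (s : ℂ) ≠ 0 := by exact_mod_cast hs.ne'
  have h := qn_diff E (s : ℂ) hs' z w
  rw [Real.norm_eq_abs] at h
  refine h.trans ?_
  have h1 := hA ((s : ℂ) • (z - w) + (s : ℂ)⁻¹ • (z + w))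
  have h2 := hA ((s : ℂ) • (z - w) - (s : ℂ)⁻¹ • (z + w))
  have h3 := nsq_par ((s : ℂ) • (z - w)) ((s : ℂ)⁻¹ • (z + w))
  rw [nsq_smul, nsq_smul] at h3
  have h4 : ‖(s : ℂ)‖ ^ 2 = s ^ 2 := by
    rw [Complex.norm_real, Real.norm_eq_abs, sq_abs]
  have h5 : ‖(s : ℂ)⁻¹‖ ^ 2 = (s ^ 2)⁻¹ := by
    rw [norm_inv, inv_pow, h4]
  rw [h4, h5] at h3
  have h6 : A * nsq ((s : ℂ) • (z - w) + (s : ℂ)⁻¹ • (z + w)) +
      A * nsq ((s : ℂ) • (z - w) - (s : ℂ)⁻¹ • (z + w)) =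
      A * (2 * (s ^ 2 * nsq (z - w) + (s ^ 2)⁻¹ * nsq (z + w))) := by
    rw [← mul_add, h3]
  linarith

/-- norms of points near the sphere -/
lemma near {n : ℕ} (z w : Fin n → ℂ) (ε : ℝ) (hε : 0 ≤ ε) (hε1 : ε ≤ 1) (hz : nsq z = 1)
    (hw : nsq (z - w) ≤ ε ^ 2) :
    (1 - ε) ^ 2 ≤ nsq w ∧ nsq w ≤ (1 + ε) ^ 2 ∧ nsq (z + w) ≤ (2 + ε) ^ 2 := by
  rw [nsq_eq] at hz hw
  rw [WithLp.toLp_sub] at hw
  rw [nsq_eq w, nsq_eq (z + w), WithLp.toLp_add]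
  set Z := (WithLp.toLp 2 z : EuclideanSpace ℂ (Fin n))
  set W := (WithLp.toLp 2 w : EuclideanSpace ℂ (Fin n))
  have hZ : ‖Z‖ = 1 := by
    have := norm_nonneg Z
    nlinarith
  have hd : ‖Z - W‖ ≤ ε := by
    exact le_of_sq_le_sq hw hε
  have h1 : ‖W‖ ≤ 1 + ε := by
    have := norm_sub_norm_le W Z
    rw [norm_sub_rev] at this
    linarith
  have h2 : 1 - ε ≤ ‖W‖ := by
    have := norm_sub_norm_le Z W
    linarith
  have h3 : ‖Z + W‖ ≤ 2 + ε := by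
    have := norm_add_le Z W
    linarith
  have := norm_nonneg W
  have := norm_nonneg (Z + W)
  refine ⟨?_, ?_, ?_⟩
  · exact pow_le_pow_left₀ (by linarith) h2 2
  · exact pow_le_pow_left₀ (by linarith) h1 2
  · exact pow_le_pow_left₀ (by linarith) h3 2

/-- extension from the sphere by homogeneity -/
lemma nsq_zero {n : ℕ} (z : Fin n → ℂ) (hz : nsq z = 0) : z = 0 := by
  rw [nsq_eq] at hz
  have h1 : ‖(WithLp.toLp 2 z : EuclideanSpace ℂ (Fin n))‖ = 0 := by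
    exact pow_eq_zero_iff (two_ne_zero) |>.1 hz
  have h2 := norm_eq_zero.1 h1
  have h3 := congrArg (WithLp.ofLp) h2
  exact h3

lemma qn_zero {n N : ℕ} (E : Fin N → (Fin n × Fin n → Bool)) : qn E 0 = 0 := by
  have := qn_smul E 0 0
  rw [zero_smul, norm_zero] at this
  rw [this]
  ring

lemma normalise {n N : ℕ} (E : Fin N → (Fin n × Fin n → Bool)) (z : Fin n → ℂ)
    (hz : nsq z ≠ 0) : ∃ u : Fin n → ℂ, nsq u = 1 ∧ qn E z = qn E u * nsq z := by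
  have h0 : 0 < nsq z := lt_of_le_of_ne (nsq_nonneg z) (Ne.symm hz)
  have hc : ‖(((Real.sqrt (nsq z))⁻¹ : ℝ) : ℂ)‖ ^ 2 = (nsq z)⁻¹ := by
    rw [Complex.norm_real, Real.norm_eq_abs, sq_abs, inv_pow, Real.sq_sqrt h0.le]
  refine ⟨(((Real.sqrt (nsq z))⁻¹ : ℝ) : ℂ) • z, ?_, ?_⟩
  · rw [nsq_smul, hc]
    exact inv_mul_cancel₀ hz
  · rw [qn_smul, hc]
    field_simp

lemma nsq_z0 {n : ℕ} : nsq (0 : Fin n → ℂ) = 0 := by
  have := nsq_smul (0 : ℂ) (0 : Fin n → ℂ)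
  rw [zero_smul, norm_zero] at this
  rw [this]
  ring

lemma ext_upper {n N : ℕ} (E : Fin N → (Fin n × Fin n → Bool)) (A : ℝ)
    (hA : ∀ z, nsq z = 1 → qn E z ≤ A) (z : Fin n → ℂ) : qn E z ≤ A * nsq z := by
  by_cases hz : nsq z = 0
  · rw [nsq_zero z hz, qn_zero, nsq_z0, mul_zero]
  · obtain ⟨u, hu, h⟩ := normalise E z hz
    rw [h]
    exact mul_le_mul_of_nonneg_right (hA u hu) (nsq_nonneg z)

lemma ext_lower {n N : ℕ} (E : Fin N → (Fin n × Fin n → Bool)) (A : ℝ)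
    (hA : ∀ z, nsq z = 1 → A ≤ qn E z) (z : Fin n → ℂ) : A * nsq z ≤ qn E z := by
  by_cases hz : nsq z = 0
  · rw [nsq_zero z hz, qn_zero, nsq_z0, mul_zero]
  · obtain ⟨u, hu, h⟩ := normalise E z hz
    rw [h]
    exact mul_le_mul_of_nonneg_right (hA u hu) (nsq_nonneg z)

/-- a crude bound on the sphere -/
lemma crude {n N : ℕ} (E : Fin N → (Fin n × Fin n → Bool)) :
    ∃ C : ℝ, ∀ z, nsq z = 1 → qn E z ≤ C := by
  refine ⟨Real.sqrt (∑ _k : Fin N, (∑ _p : Fin n × Fin n, (1 : ℝ)) ^ 2), fun z hz => ?_⟩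
  refine Real.le_sqrt_of_sq_le ?_
  rw [qn_sq]
  refine Finset.sum_le_sum fun k _ => ?_
  refine pow_le_pow_left₀ (norm_nonneg _) ?_ 2
  unfold rq
  refine (norm_sum_le _ _).trans (Finset.sum_le_sum fun p _ => ?_)
  have h1 : ∀ i, ‖z i‖ ≤ 1 := by
    intro i
    have : ‖z i‖ ^ 2 ≤ nsq z := by
      unfold nsq
      exact Finset.single_le_sum (f := fun i => ‖z i‖ ^ 2) (fun i _ => by positivity)
        (Finset.mem_univ i)
    rw [hz] at this
    have h2 := norm_nonneg (z i)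
    nlinarith
  have h2 : ‖((sg (E k p) : ℝ) : ℂ)‖ = 1 := by
    unfold sg
    split_ifs <;> simp
  rw [norm_mul, norm_mul, h2, one_mul]
  exact mul_le_one₀ (h1 _) (norm_nonneg _) (h1 _)

/-- (d) the upper bound -/
lemma upper {n N : ℕ} (E : Fin N → (Fin n × Fin n → Bool)) (R : ℝ) (hR : 0 ≤ R)
    (T : Finset (Fin n → ℂ))
    (hT : ∀ z : Fin n → ℂ, nsq z = 1 → ∃ w ∈ T, nsq (z - w) ≤ (1 / 10) ^ 2)
    (hE : ∀ w ∈ T, qn E w ≤ R * nsq w) (z : Fin n → ℂ) : qn E z ≤ 2 * R * nsq z := by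
  obtain ⟨C, hC⟩ := crude E
  set A : ℝ := ⨆ z : {z : Fin n → ℂ // nsq z = 1}, qn E z.1 with hAd
  have hbdd : BddAbove (Set.range fun z : {z : Fin n → ℂ // nsq z = 1} => qn E z.1) := by
    refine ⟨C, ?_⟩
    rintro _ ⟨z, rfl⟩
    exact hC z.1 z.2
  have hA1 : ∀ z, nsq z = 1 → qn E z ≤ A := fun z hz => le_ciSup hbdd ⟨z, hz⟩
  have hA0 : 0 ≤ A := Real.iSup_nonneg fun z => qn_nonneg E z.1
  have hA2 := ext_upper E A hA1
  have hA3 : A ≤ 121 / 100 * R + 22 / 100 * A := by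
    refine Real.iSup_le ?_ (by positivity)
    rintro ⟨z, hz⟩
    change qn E z ≤ _
    obtain ⟨w, hw, hzw⟩ := hT z hz
    obtain ⟨h1, h2, h3⟩ := near z w (1 / 10) (by norm_num) (by norm_num) hz hzw
    have h4 := qn_diff_le E A hA2 4 (by norm_num) z w
    have h5 := hE w hw
    have h6 : R * nsq w ≤ R * (121 / 100) := by
      refine mul_le_mul_of_nonneg_left ?_ hR
      norm_num at h2
      exact h2
    have h7 : A / 2 * (4 ^ 2 * nsq (z - w) + (4 ^ 2)⁻¹ * nsq (z + w)) ≤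
        A / 2 * (44 / 100) := by
      refine mul_le_mul_of_nonneg_left ?_ (by positivity)
      norm_num at h3 hzw ⊢
      linarith
    have h8 := abs_le.1 h4
    linarith [h8.2]
  have hA4 : A ≤ 2 * R := by linarith
  exact (hA2 z).trans (mul_le_mul_of_nonneg_right hA4 (nsq_nonneg z))

/-- (e) the lower bound -/
lemma lower {n N : ℕ} (E : Fin N → (Fin n × Fin n → Bool)) (K ε : ℝ) (hK : 1 ≤ K)
    (hε : ε = 1 / (100 * Real.sqrt K))
    (T : Finset (Fin n → ℂ))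
    (hT : ∀ z : Fin n → ℂ, nsq z = 1 → ∃ w ∈ T, nsq (z - w) ≤ ε ^ 2)
    (hup : ∀ z, qn E z ≤ 2 * (Real.sqrt K * Real.sqrt N) * nsq z)
    (hE : ∀ w ∈ T, Real.sqrt N / 2 * nsq w ≤ qn E w) (z : Fin n → ℂ) :
    3 / 10 * Real.sqrt N * nsq z ≤ qn E z := by
  refine ext_lower E (3 / 10 * Real.sqrt N) (fun z hz => ?_) z
  have hsK : 1 ≤ Real.sqrt K := by
    rw [show (1 : ℝ) = Real.sqrt 1 from Real.sqrt_one.symm]
    exact Real.sqrt_le_sqrt hK
  have hε0 : 0 < ε := by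
    rw [hε]
    positivity
  have hεK : ε * Real.sqrt K = 1 / 100 := by
    rw [hε]
    field_simp
  have hε1 : ε ≤ 1 / 100 := by
    nlinarith
  obtain ⟨w, hw, hzw⟩ := hT z hz
  obtain ⟨h1, h2, h3⟩ := near z w ε hε0.le (by linarith) hz hzw
  have h4 := qn_diff_le E _ hup (Real.sqrt ε)⁻¹ (by positivity) z w
  have h5 : ((Real.sqrt ε)⁻¹) ^ 2 = ε⁻¹ := by
    rw [inv_pow, Real.sq_sqrt hε0.le]
  rw [h5, inv_inv] at h4
  have h6 : ε⁻¹ * nsq (z - w) ≤ ε := by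
    have : ε⁻¹ * nsq (z - w) ≤ ε⁻¹ * ε ^ 2 := mul_le_mul_of_nonneg_left hzw (by positivity)
    refine this.trans (le_of_eq ?_)
    field_simp
  have h7 : ε * nsq (z + w) ≤ ε * 9 := by
    refine mul_le_mul_of_nonneg_left ?_ hε0.le
    nlinarith
  have hN := Real.sqrt_nonneg (N : ℝ)
  have h8 : 2 * (Real.sqrt K * Real.sqrt N) / 2 * (ε⁻¹ * nsq (z - w) + ε * nsq (z + w)) ≤
      2 * (Real.sqrt K * Real.sqrt N) / 2 * (10 * ε) :=
    mul_le_mul_of_nonneg_left (by linarith) (by positivity)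
  have h9 : 2 * (Real.sqrt K * Real.sqrt N) / 2 * (10 * ε) = Real.sqrt N / 10 := by
    have : 2 * (Real.sqrt K * Real.sqrt N) / 2 * (10 * ε) =
      10 * Real.sqrt N * (ε * Real.sqrt K) := by ring
    rw [this, hεK]
    ring
  have h10 := hE w hw
  have h11 : Real.sqrt N / 2 * (81 / 100) ≤ Real.sqrt N / 2 * nsq w := by
    refine mul_le_mul_of_nonneg_left ?_ (by positivity)
    nlinarith
  have h12 := (abs_le.1 h4).1
  linarith

/-- the number of sign families -/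
lemma card_fam (n N : ℕ) :
    ((Finset.univ : Finset (Fin N → (Fin n × Fin n → Bool))).card : ℝ) = (2 ^ (n * n)) ^ N := by
  rw [Finset.card_univ]
  simp

/-- (c) the union bound -/
lemma good (h2 : S_UP) (h3 : S_LO) (n C N : ℕ) (hN : N = C * n) (hn : 1 ≤ n) (hC : 1 ≤ C) (K A1 A2 : ℝ) (hA1 : 1 ≤ A1)
    (hA2 : 1 ≤ A2) (hK1 : A1 * (2 * Real.exp (-(3 / 16 * K))) ≤ 1 / 4)
    (hC1 : A2 * Real.exp (-(C / 800)) ≤ 1 / 4)
    (T1 T2 : Finset (Fin n → ℂ)) (hT1 : (T1.card : ℝ) ≤ A1 ^ n) (hT2 : (T2.card : ℝ) ≤ A2 ^ n) :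
    ∃ E : Fin N → (Fin n × Fin n → Bool),
      (∀ w ∈ T1, ∑ k, ‖rq (E k) w‖ ^ 2 ≤ K * N * nsq w ^ 2) ∧
      (∀ w ∈ T2, N / 4 * nsq w ^ 2 ≤ ∑ k, ‖rq (E k) w‖ ^ 2) := by
  classical
  by_contra hcon
  push Not at hcon
  have hN1 : 1 ≤ N := hN ▸ Nat.mul_pos hC hn
  have hnN : n ≤ N := hN ▸ Nat.le_mul_of_pos_left n hC
  have hsub : (Finset.univ : Finset (Fin N → (Fin n × Fin n → Bool))) ⊆
      T1.biUnion (fun w => univ.filter fun E : Fin N → (Fin n × Fin n → Bool) =>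
        K * N * nsq w ^ 2 < ∑ k, ‖rq (E k) w‖ ^ 2) ∪
      T2.biUnion (fun w => univ.filter fun E : Fin N → (Fin n × Fin n → Bool) =>
        ∑ k, ‖rq (E k) w‖ ^ 2 < N / 4 * nsq w ^ 2) := by
    intro E _
    rw [Finset.mem_union, Finset.mem_biUnion, Finset.mem_biUnion]
    by_cases hE : ∀ w ∈ T1, ∑ k, ‖rq (E k) w‖ ^ 2 ≤ K * N * nsq w ^ 2
    · obtain ⟨w, hw, h⟩ := hcon E hE
      exact Or.inr ⟨w, hw, Finset.mem_filter.2 ⟨Finset.mem_univ _, h⟩⟩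
    · push Not at hE
      obtain ⟨w, hw, h⟩ := hE
      exact Or.inl ⟨w, hw, Finset.mem_filter.2 ⟨Finset.mem_univ _, h⟩⟩
  have h4 := Finset.card_le_card hsub
  have h5 := h4.trans (Finset.card_union_le _ _)
  have h6 : ((Finset.univ : Finset (Fin N → (Fin n × Fin n → Bool))).card : ℝ) ≤
      ∑ w ∈ T1, ((univ.filter fun E : Fin N → (Fin n × Fin n → Bool) =>
        K * N * nsq w ^ 2 < ∑ k, ‖rq (E k) w‖ ^ 2).card : ℝ) +
      ∑ w ∈ T2, ((univ.filter fun E : Fin N → (Fin n × Fin n → Bool) =>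
        ∑ k, ‖rq (E k) w‖ ^ 2 < N / 4 * nsq w ^ 2).card : ℝ) := by
    have h7 := h5.trans (Nat.add_le_add Finset.card_biUnion_le Finset.card_biUnion_le)
    exact_mod_cast h7
  have hP : (0 : ℝ) < (2 ^ (n * n)) ^ N := by positivity
  have h7 : ∑ w ∈ T1, ((univ.filter fun E : Fin N → (Fin n × Fin n → Bool) =>
        K * N * nsq w ^ 2 < ∑ k, ‖rq (E k) w‖ ^ 2).card : ℝ) ≤
        (2 ^ (n * n)) ^ N * (1 / 4) := by
    refine (Finset.sum_le_sum fun w _ => h2 n N w K).trans ?_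
    rw [Finset.sum_const, nsmul_eq_mul]
    have h8 : (T1.card : ℝ) ≤ A1 ^ N := hT1.trans (pow_le_pow_right₀ hA1 hnN)
    have h9 : (T1.card : ℝ) * ((2 ^ (n * n)) ^ N * (2 * Real.exp (-(3 / 16 * K))) ^ N) ≤
        A1 ^ N * ((2 ^ (n * n)) ^ N * (2 * Real.exp (-(3 / 16 * K))) ^ N) :=
      mul_le_mul_of_nonneg_right h8 (by positivity)
    refine h9.trans ?_
    have h10 : A1 ^ N * ((2 ^ (n * n)) ^ N * (2 * Real.exp (-(3 / 16 * K))) ^ N) =
        (2 ^ (n * n)) ^ N * (A1 * (2 * Real.exp (-(3 / 16 * K)))) ^ N := by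
      rw [mul_pow A1]
      ring
    rw [h10]
    refine mul_le_mul_of_nonneg_left ?_ hP.le
    calc (A1 * (2 * Real.exp (-(3 / 16 * K)))) ^ N ≤ (1 / 4) ^ N :=
          pow_le_pow_left₀ (by positivity) hK1 N
      _ ≤ (1 / 4) ^ 1 := pow_le_pow_of_le_one (by norm_num) (by norm_num) hN1
      _ = 1 / 4 := by norm_num
  have h8 : ∑ w ∈ T2, ((univ.filter fun E : Fin N → (Fin n × Fin n → Bool) =>
        ∑ k, ‖rq (E k) w‖ ^ 2 < N / 4 * nsq w ^ 2).card : ℝ) ≤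
        (2 ^ (n * n)) ^ N * (1 / 4) := by
    refine (Finset.sum_le_sum fun w _ => h3 n N w).trans ?_
    rw [Finset.sum_const, nsmul_eq_mul]
    have h9 : (T2.card : ℝ) * ((2 ^ (n * n)) ^ N * Real.exp (-((N : ℝ) / 800))) ≤
        A2 ^ n * ((2 ^ (n * n)) ^ N * Real.exp (-((N : ℝ) / 800))) :=
      mul_le_mul_of_nonneg_right hT2 (by positivity)
    refine h9.trans ?_
    have h10 : Real.exp (-((N : ℝ) / 800)) = Real.exp (-((C : ℝ) / 800)) ^ n := by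
      rw [← Real.exp_nat_mul, hN]
      congr 1
      push_cast
      ring
    rw [h10]
    have h11 : A2 ^ n * ((2 ^ (n * n)) ^ N * Real.exp (-((C : ℝ) / 800)) ^ n) =
        (2 ^ (n * n)) ^ N * (A2 * Real.exp (-((C : ℝ) / 800))) ^ n := by
      rw [mul_pow A2]
      ring
    rw [h11]
    refine mul_le_mul_of_nonneg_left ?_ hP.le
    calc (A2 * Real.exp (-((C : ℝ) / 800))) ^ n ≤ (1 / 4) ^ n :=
          pow_le_pow_left₀ (by positivity) hC1 n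
      _ ≤ (1 / 4) ^ 1 := pow_le_pow_of_le_one (by norm_num) (by norm_num) hn
      _ = 1 / 4 := by norm_num
  rw [card_fam] at h6
  linarith

lemma form_eq {n : ℕ} (e : Fin n × Fin n → Bool) (c : ℂ) (z : Fin n → ℂ) :
    ∑ i, ∑ j, (c * (sg (e (i, j)) : ℂ)) * z i * z j = c * rq e z := by
  unfold rq
  rw [Fintype.sum_prod_type, Finset.mul_sum]
  refine Finset.sum_congr rfl fun i _ => ?_
  rw [Finset.mul_sum]
  refine Finset.sum_congr rfl fun j _ => ?_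
  ring

end CRFlat

open CRFlat in
/-- FLAT from NET, UP and LO -/
theorem cr_flat (h1 : S_NET) (h2 : S_UP) (h3 : S_LO) : S_FLAT := by
  obtain ⟨A1, hA1⟩ := h1 (1 / 10) (by norm_num)
  set B1 : ℝ := max (A1 : ℝ) 1 with hB1
  have hB11 : 1 ≤ B1 := le_max_right _ _
  have hB10 : 0 < B1 := by linarith
  set K : ℝ := max 1 (16 / 3 * Real.log (8 * B1)) with hK
  have hK1 : 1 ≤ K := le_max_left _ _
  have hK2 : B1 * (2 * Real.exp (-(3 / 16 * K))) ≤ 1 / 4 := by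
    have h4 : Real.exp (-(3 / 16 * K)) ≤ (8 * B1)⁻¹ := by
      rw [← Real.exp_log (show (0 : ℝ) < 8 * B1 by positivity), ← Real.exp_neg]
      refine Real.exp_le_exp.2 ?_
      have : 16 / 3 * Real.log (8 * B1) ≤ K := le_max_right _ _
      linarith
    have h5 : B1 * (2 * Real.exp (-(3 / 16 * K))) ≤ B1 * (2 * (8 * B1)⁻¹) := by gcongr
    refine h5.trans (le_of_eq ?_)
    field_simp
    norm_num
  have hsK : 1 ≤ Real.sqrt K := by
    rw [show (1 : ℝ) = Real.sqrt 1 from Real.sqrt_one.symm]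
    exact Real.sqrt_le_sqrt hK1
  set ε : ℝ := 1 / (100 * Real.sqrt K) with hε
  obtain ⟨A2, hA2⟩ := h1 ε (by positivity)
  set B2 : ℝ := max (A2 : ℝ) 1 with hB2
  have hB21 : 1 ≤ B2 := le_max_right _ _
  have hB20 : 0 < B2 := by linarith
  set C : ℕ := ⌈800 * Real.log (4 * B2)⌉₊ + 1 with hC
  have hC1 : B2 * Real.exp (-((C : ℝ) / 800)) ≤ 1 / 4 := by
    have h4 : Real.exp (-((C : ℝ) / 800)) ≤ (4 * B2)⁻¹ := by
      rw [← Real.exp_log (show (0 : ℝ) < 4 * B2 by positivity), ← Real.exp_neg]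
      refine Real.exp_le_exp.2 ?_
      have h5 : 800 * Real.log (4 * B2) ≤ C := by
        rw [hC]
        push_cast
        have := Nat.le_ceil (800 * Real.log (4 * B2))
        linarith
      linarith
    have h5 : B2 * Real.exp (-((C : ℝ) / 800)) ≤ B2 * (4 * B2)⁻¹ := by gcongr
    refine h5.trans (le_of_eq ?_)
    field_simp
  refine ⟨C, 9 / 100 / (4 * K), by positivity, fun n => ?_⟩
  rcases Nat.eq_zero_or_pos n with rfl | hn
  · refine ⟨0, Nat.zero_le _, fun _ _ _ => 0, fun z => ?_⟩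
    have : nsq z = 0 := by
      unfold nsq
      simp
    rw [this]
    simp
  obtain ⟨T1, hT1, hT1'⟩ := hA1 n
  obtain ⟨T2, hT2, hT2'⟩ := hA2 n
  have hc1 : (T1.card : ℝ) ≤ B1 ^ n := by
    calc (T1.card : ℝ) ≤ (A1 : ℝ) ^ n := by exact_mod_cast hT1
      _ ≤ B1 ^ n := pow_le_pow_left₀ (by positivity) (le_max_left _ _) n
  have hc2 : (T2.card : ℝ) ≤ B2 ^ n := by
    calc (T2.card : ℝ) ≤ (A2 : ℝ) ^ n := by exact_mod_cast hT2
      _ ≤ B2 ^ n := pow_le_pow_left₀ (by positivity) (le_max_left _ _) n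
  obtain ⟨N, hN⟩ : ∃ N : ℕ, N = C * n := ⟨_, rfl⟩
  obtain ⟨E, hE1, hE2⟩ := good h2 h3 n C N hN hn (by omega) K B1 B2 hB11 hB21 hK2 hC1 T1 T2
    hc1 hc2
  have hN1 : 1 ≤ N := hN ▸ Nat.mul_pos (by omega) hn
  have hNr : (0 : ℝ) < N := by exact_mod_cast hN1
  have hsN : 0 < Real.sqrt N := Real.sqrt_pos.2 hNr
  have hR : 0 ≤ Real.sqrt K * Real.sqrt N := by positivity
  have hK0 : 0 < K := by linarith
  have hE1' : ∀ w ∈ T1, qn E w ≤ Real.sqrt K * Real.sqrt N * nsq w := by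
    intro w hw
    have := hE1 w hw
    rw [← qn_sq] at this
    refine le_of_sq_le_sq ?_ (mul_nonneg hR (nsq_nonneg w))
    rw [mul_pow, mul_pow, Real.sq_sqrt hK0.le, Real.sq_sqrt hNr.le]
    exact this
  have hup := upper E (Real.sqrt K * Real.sqrt N) hR T1 hT1' hE1'
  have hE2' : ∀ w ∈ T2, Real.sqrt N / 2 * nsq w ≤ qn E w := by
    intro w hw
    have := hE2 w hw
    rw [← qn_sq] at this
    refine le_of_sq_le_sq ?_ (qn_nonneg E w)
    rw [mul_pow, div_pow, Real.sq_sqrt hNr.le]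
    have h4 : (N : ℝ) / 2 ^ 2 = N / 4 := by norm_num
    rw [h4]
    exact this
  have hlo := lower E K ε hK1 hε T2 hT2' hup hE2'
  set c : ℝ := (2 * (Real.sqrt K * Real.sqrt N))⁻¹ with hc
  have hc0 : 0 < c := by positivity
  have hc2 : c ^ 2 = (4 * (K * N))⁻¹ := by
    rw [hc, inv_pow, mul_pow, mul_pow, Real.sq_sqrt hK0.le, Real.sq_sqrt hNr.le]
    norm_num
  refine ⟨N, hN.le, fun k i j => (c : ℂ) * (sg (E k (i, j)) : ℂ), fun z => ?_⟩
  have hsum : ∑ k, ‖∑ i, ∑ j, ((c : ℂ) * (sg (E k (i, j)) : ℂ)) * z i * z j‖ ^ 2 =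
      c ^ 2 * qn E z ^ 2 := by
    rw [qn_sq, Finset.mul_sum]
    refine Finset.sum_congr rfl fun k _ => ?_
    rw [form_eq, norm_mul, mul_pow, Complex.norm_real, Real.norm_eq_abs, sq_abs]
  rw [hsum, hc2]
  have hnz := nsq_nonneg z
  constructor
  · have h4 : (3 / 10 * Real.sqrt N * nsq z) ^ 2 ≤ qn E z ^ 2 :=
      pow_le_pow_left₀ (by positivity) (hlo z) 2
    have h5 : (3 / 10 * Real.sqrt N * nsq z) ^ 2 = 9 / 100 * N * nsq z ^ 2 := by
      rw [mul_pow, mul_pow, Real.sq_sqrt hNr.le]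
      norm_num
    rw [h5] at h4
    have h6 : 9 / 100 / (4 * K) * nsq z ^ 2 = (4 * (K * N))⁻¹ * (9 / 100 * N * nsq z ^ 2) := by
      field_simp
    rw [h6]
    exact mul_le_mul_of_nonneg_left h4 (by positivity)
  · have h4 : qn E z ^ 2 ≤ (2 * (Real.sqrt K * Real.sqrt N) * nsq z) ^ 2 :=
      pow_le_pow_left₀ (qn_nonneg E z) (hup z) 2
    have h5 : (2 * (Real.sqrt K * Real.sqrt N) * nsq z) ^ 2 = 4 * (K * N) * nsq z ^ 2 := by
      rw [mul_pow, mul_pow, mul_pow, Real.sq_sqrt hK0.le, Real.sq_sqrt hNr.le]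
      ring
    rw [h5] at h4
    calc (4 * (K * N))⁻¹ * qn E z ^ 2 ≤ (4 * (K * N))⁻¹ * (4 * (K * N) * nsq z ^ 2) :=
          mul_le_mul_of_nonneg_left h4 (by positivity)
      _ = nsq z ^ 2 := by
          field_simp

end Pool.Agent.H962
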