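import Pool.Agent.H867.FT.Gen5
import Pool.Agent.H707.FT867PSG

/-!
# DMS: the Krull dimension of a finite extension of a power series ring
-/

set_option autoImplicit false

namespace Pool.Agent.H962.FT867DMS

open Pool.Agent.H867.FT

/-- integral extensions with lying over have the same dimension -/
theorem dim_eq (R S : Type) [CommRing R] [CommRing S] [Algebra R S] [Algebra.IsIntegral R S]
    [FaithfulSMul R S] : ringKrullDim S = ringKrullDim R := by
  apply le_antisymm
  · unfold ringKrullDim
    refine Order.krullDim_le_of_strictMono (PrimeSpectrum.comap (algebraMap R S)) ?_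
    intro P Q hPQ
    have h1 : P.asIdeal < Q.asIdeal := hPQ
    have h2 : (P.asIdeal.comap (algebraMap R S)) < Q.asIdeal.comap (algebraMap R S) :=
      Ideal.IsIntegral.comap_lt_comap h1
    exact h2
  · unfold ringKrullDim
    refine iSup_le fun l => ?_
    -- lift the first prime
    obtain ⟨P, hP, hPl⟩ : ∃ P : Ideal S, P.IsPrime ∧
        P.comap (algebraMap R S) = (RelSeries.head l).asIdeal := by
      have hinj : RingHom.ker (algebraMap R S) ≤ (RelSeries.head l).asIdeal := by
        rw [(RingHom.injective_iff_ker_eq_bot _).1 (FaithfulSMul.algebraMap_injective R S)]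
        exact bot_le
      obtain ⟨P, _, hP, hc⟩ := Ideal.exists_ideal_over_prime_of_isIntegral
        (RelSeries.head l).asIdeal (⊥ : Ideal S) (by
          rw [← RingHom.ker_eq_comap_bot]
          exact hinj)
      exact ⟨P, hP, hc⟩
    have : P.IsPrime := hP
    have : P.LiesOver (RelSeries.head l).asIdeal := ⟨hPl.symm⟩
    obtain ⟨L, hL, -, -⟩ := Ideal.exists_ltSeries_of_hasGoingUp l P
    rw [← hL]
    exact le_iSup (fun p : LTSeries (PrimeSpectrum S) => (p.length : WithBot ℕ∞)) L

theorem dim_ge (k : Type) [Field k] (d : ℕ) :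
    ((d : ℕ) : WithBot ℕ∞) ≤ ringKrullDim (MvPowerSeries (Fin d) k) := by
  induction d with
  | zero => exact ringKrullDim_nonneg_of_nontrivial
  | succ d ih =>
    rw [ringKrullDim_eq_of_ringEquiv (MvPowerSeries.finSuccEquiv k d).toRingEquiv]
    refine le_trans ?_ ringKrullDim_succ_le_ringKrullDim_powerseries
    push_cast
    exact add_le_add ih le_rfl

theorem dim_le (k : Type) [Field k] (d : ℕ) :
    ringKrullDim (MvPowerSeries (Fin d) k) ≤ ((d : ℕ) : WithBot ℕ∞) := by
  refine (ringKrullDim_le_spanFinrank_maximalIdeal _).trans ?_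
  rw [(Pool.Agent.H707.FT867.psg k d).1]
  have h1 : (Ideal.span (Set.range fun i : Fin d =>
      (MvPowerSeries.X i : MvPowerSeries (Fin d) k))).spanFinrank ≤
      (Set.range fun i : Fin d => (MvPowerSeries.X i : MvPowerSeries (Fin d) k)).ncard :=
    Submodule.spanFinrank_span_le_ncard_of_finite (Set.finite_range _)
  have h2 : (Set.range fun i : Fin d => (MvPowerSeries.X i : MvPowerSeries (Fin d) k)).ncard ≤ d := by
    rw [← Set.image_univ]
    refine (Set.ncard_image_le Set.finite_univ).trans ?_
    rw [Set.ncard_univ, Nat.card_eq_fintype_card, Fintype.card_fin]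
  exact_mod_cast h1.trans h2

theorem dms : S_DMS := by
  intro k _ d S _ _ _ _
  rw [dim_eq (MvPowerSeries (Fin d) k) S]
  exact le_antisymm (dim_le k d) (dim_ge k d)

end Pool.Agent.H962.FT867DMS
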