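import Pool.Agent.H962.Contour

/-!
Counting connected components meeting a finite set.
-/

namespace Pool.Agent.H962

open Finset

open Classical in
/-- Number of connected components of `K` meeting `S`. -/
noncomputable def comps {V : Type*} (K : SimpleGraph V) (S : Finset V) : ℕ :=
  (S.image K.connectedComponentMk).card

lemma card_image_le_of_factor {α β γ : Type*} [DecidableEq β] [DecidableEq γ] (S : Finset α)
    (f : α → β) (g : α → γ) (h : ∀ x ∈ S, ∀ y ∈ S, g x = g y → f x = f y) :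
    (S.image f).card ≤ (S.image g).card := by
  classical
  rcases S.eq_empty_or_nonempty with rfl | ⟨x0, hx0⟩
  · simp
  · set r : γ → α := fun z => if h : ∃ x ∈ S, g x = z then h.choose else x0 with hr
    have h1 : S.image f ⊆ (S.image g).image (fun z => f (r z)) := by
      intro y hy
      rw [Finset.mem_image] at hy
      obtain ⟨x, hx, rfl⟩ := hy
      rw [Finset.mem_image]
      refine ⟨g x, Finset.mem_image_of_mem _ hx, ?_⟩
      have h2 : ∃ x' ∈ S, g x' = g x := ⟨x, hx, rfl⟩
      have h3 : r (g x) = h2.choose := by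
        rw [hr]
        exact dif_pos h2
      rw [h3]
      exact h _ h2.choose_spec.1 _ hx h2.choose_spec.2
    exact (Finset.card_le_card h1).trans Finset.card_image_le

lemma comps_le_of_imp {V : Type*} {K : SimpleGraph V} {K' : SimpleGraph V} {S : Finset V}
    (h : ∀ x ∈ S, ∀ y ∈ S, K'.Reachable x y → K.Reachable x y) : comps K S ≤ comps K' S := by
  classical
  unfold comps
  apply card_image_le_of_factor
  intro x hx y hy hxy
  rw [SimpleGraph.ConnectedComponent.eq] at hxy ⊢
  exact h x hx y hy hxy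

lemma comps_congr {V : Type*} {K K' : SimpleGraph V} {S : Finset V}
    (h : ∀ x ∈ S, ∀ y ∈ S, K.Reachable x y ↔ K'.Reachable x y) : comps K S = comps K' S :=
  le_antisymm (comps_le_of_imp (fun x hx y hy => (h x hx y hy).2))
    (comps_le_of_imp (fun x hx y hy => (h x hx y hy).1))

lemma comps_empty {V : Type*} (K : SimpleGraph V) : comps K ∅ = 0 := by
  simp [comps]

lemma comps_mono {V : Type*} (K : SimpleGraph V) {S T : Finset V} (h : S ⊆ T) :
    comps K S ≤ comps K T := by
  classical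
  exact Finset.card_le_card (Finset.image_subset_image h)

lemma comps_one {V : Type*} {K : SimpleGraph V} {S : Finset V} (hS : S.Nonempty)
    (h : ∀ x ∈ S, ∀ y ∈ S, K.Reachable x y) : comps K S = 1 := by
  classical
  unfold comps
  obtain ⟨x, hx⟩ := hS
  rw [Finset.card_eq_one]
  refine ⟨K.connectedComponentMk x, ?_⟩
  ext c
  rw [Finset.mem_image, Finset.mem_singleton]
  constructor
  · rintro ⟨y, hy, rfl⟩
    exact SimpleGraph.ConnectedComponent.sound (h y hy x hx)
  · rintro rfl
    exact ⟨x, hx, rfl⟩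

lemma comps_isolated {V : Type*} {K : SimpleGraph V} {S : Finset V}
    (h : ∀ x ∈ S, ∀ y ∈ S, K.Reachable x y → x = y) : comps K S = S.card := by
  classical
  unfold comps
  apply Finset.card_image_of_injOn
  intro x hx y hy hxy
  rw [SimpleGraph.ConnectedComponent.eq] at hxy
  exact h x hx y hy hxy

/-- Splitting: if no vertex of `S` is connected to a vertex of `T`. -/
lemma comps_union_disj {V : Type*} [DecidableEq V] {K : SimpleGraph V} {S T : Finset V}
    (h : ∀ x ∈ S, ∀ y ∈ T, ¬ K.Reachable x y) : comps K (S ∪ T) = comps K S + comps K T := by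
  classical
  unfold comps
  rw [Finset.image_union]
  apply Finset.card_union_of_disjoint
  rw [Finset.disjoint_left]
  intro c hc hc'
  rw [Finset.mem_image] at hc hc'
  obtain ⟨x, hx, rfl⟩ := hc
  obtain ⟨y, hy, hxy⟩ := hc'
  rw [SimpleGraph.ConnectedComponent.eq] at hxy
  exact h x hx y hy hxy.symm

/-- Absorption: if each vertex of `T` is connected to a vertex of `S`. -/
lemma comps_union_absorb {V : Type*} [DecidableEq V] {K : SimpleGraph V} {S T : Finset V}
    (h : ∀ y ∈ T, ∃ x ∈ S, K.Reachable y x) : comps K (S ∪ T) = comps K S := by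
  classical
  unfold comps
  congr 1
  ext c
  rw [Finset.mem_image, Finset.mem_image]
  constructor
  · rintro ⟨y, hy, rfl⟩
    rw [Finset.mem_union] at hy
    rcases hy with hy | hy
    · exact ⟨y, hy, rfl⟩
    · obtain ⟨x, hx, hxy⟩ := h y hy
      exact ⟨x, hx, SimpleGraph.ConnectedComponent.sound hxy.symm⟩
  · rintro ⟨y, hy, rfl⟩
    exact ⟨y, Finset.mem_union_left _ hy, rfl⟩

/-- Reachability after adding an edge. -/
lemma reach_add {V : Type*} {K K' : SimpleGraph V} {a b : V}
    (hadj : ∀ x y, K'.Adj x y → K.Adj x y ∨ (x = a ∧ y = b) ∨ (x = b ∧ y = a))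
    {x y : V} (h : K'.Reachable x y) :
    K.Reachable x y ∨ (K.Reachable x a ∧ K.Reachable b y) ∨
      (K.Reachable x b ∧ K.Reachable a y) := by
  obtain ⟨w⟩ := h
  induction w with
  | nil => exact Or.inl (SimpleGraph.Reachable.refl _)
  | cons h1 _ ih =>
    rcases hadj _ _ h1 with h2 | ⟨rfl, rfl⟩ | ⟨rfl, rfl⟩
    · have h2' := SimpleGraph.Adj.reachable h2
      rcases ih with h3 | ⟨h3, h4⟩ | ⟨h3, h4⟩
      · exact Or.inl (h2'.trans h3)
      · exact Or.inr (Or.inl ⟨h2'.trans h3, h4⟩)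
      · exact Or.inr (Or.inr ⟨h2'.trans h3, h4⟩)
    · rcases ih with h3 | ⟨h3, h4⟩ | ⟨h3, h4⟩
      · exact Or.inr (Or.inl ⟨SimpleGraph.Reachable.refl _, h3⟩)
      · exact Or.inr (Or.inl ⟨SimpleGraph.Reachable.refl _, h4⟩)
      · exact Or.inl h4
    · rcases ih with h3 | ⟨h3, h4⟩ | ⟨h3, h4⟩
      · exact Or.inr (Or.inr ⟨SimpleGraph.Reachable.refl _, h3⟩)
      · exact Or.inl h4
      · exact Or.inr (Or.inr ⟨SimpleGraph.Reachable.refl _, h4⟩)

/-- Adding an edge between connected vertices does not change the number of components. -/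
lemma comps_add_of_reach {V : Type*} {K K' : SimpleGraph V} {a b : V} {S : Finset V}
    (hle : K ≤ K')
    (hadj : ∀ x y, K'.Adj x y → K.Adj x y ∨ (x = a ∧ y = b) ∨ (x = b ∧ y = a))
    (hab : K.Reachable a b) : comps K S = comps K' S := by
  apply comps_congr
  intro x _ y _
  constructor
  · exact fun h => h.mono hle
  · intro h
    rcases reach_add hadj h with h | ⟨h1, h2⟩ | ⟨h1, h2⟩
    · exact h
    · exact h1.trans (hab.trans h2)
    · exact h1.trans (hab.symm.trans h2)

/-- Adding an edge between two components lowers their number by one. -/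
lemma comps_add_of_not_reach {V : Type*} {K K' : SimpleGraph V} {a b : V} {S : Finset V}
    (ha : a ∈ S) (hb : b ∈ S) (hle : K ≤ K') (hK' : K'.Reachable a b)
    (hadj : ∀ x y, K'.Adj x y → K.Adj x y ∨ (x = a ∧ y = b) ∨ (x = b ∧ y = a))
    (hab : ¬ K.Reachable a b) : comps K S = comps K' S + 1 := by
  classical
  unfold comps
  set B := S.image K.connectedComponentMk with hB
  have hbB : K.connectedComponentMk b ∈ B := Finset.mem_image_of_mem _ hb
  set F : K.ConnectedComponent → K'.ConnectedComponent :=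
    SimpleGraph.ConnectedComponent.map (SimpleGraph.Hom.ofLE hle) with hF
  have hFmk : ∀ x, F (K.connectedComponentMk x) = K'.connectedComponentMk x := fun x => rfl
  have h1 : (B.erase (K.connectedComponentMk b)).image F = S.image K'.connectedComponentMk := by
    ext c
    rw [Finset.mem_image, Finset.mem_image]
    constructor
    · rintro ⟨d, hd, rfl⟩
      rw [Finset.mem_erase, hB, Finset.mem_image] at hd
      obtain ⟨-, x, hx, rfl⟩ := hd
      exact ⟨x, hx, (hFmk x).symm⟩
    · rintro ⟨x, hx, rfl⟩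
      by_cases hxb : K.connectedComponentMk x = K.connectedComponentMk b
      · refine ⟨K.connectedComponentMk a, ?_, ?_⟩
        · rw [Finset.mem_erase]
          refine ⟨?_, Finset.mem_image_of_mem _ ha⟩
          intro h
          rw [SimpleGraph.ConnectedComponent.eq] at h
          exact hab h
        · rw [hFmk]
          rw [SimpleGraph.ConnectedComponent.eq] at hxb ⊢
          exact hK'.trans (hxb.symm.mono hle)
      · refine ⟨K.connectedComponentMk x, ?_, hFmk x⟩
        rw [Finset.mem_erase]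
        exact ⟨hxb, Finset.mem_image_of_mem _ hx⟩
  have h2 : Set.InjOn F (B.erase (K.connectedComponentMk b) : Finset _) := by
    intro c hc d hd hcd
    rw [Finset.mem_coe, Finset.mem_erase, hB, Finset.mem_image] at hc hd
    obtain ⟨hcb, x, hx, rfl⟩ := hc
    obtain ⟨hdb, y, hy, rfl⟩ := hd
    rw [hFmk, hFmk, SimpleGraph.ConnectedComponent.eq] at hcd
    rw [SimpleGraph.ConnectedComponent.eq]
    rcases reach_add hadj hcd with h | ⟨h3, h4⟩ | ⟨h3, h4⟩
    · exact h
    · exact absurd (SimpleGraph.ConnectedComponent.sound h4.symm) hdb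
    · exact absurd (SimpleGraph.ConnectedComponent.sound h3) hcb
  rw [← h1, Finset.card_image_of_injOn h2, Finset.card_erase_of_mem hbB]
  have : 0 < B.card := Finset.card_pos.2 ⟨_, hbB⟩
  omega

lemma G_insert_le (η : Set Edge) (e : Edge) : G η ≤ G (insert e η) :=
  G_mono (Set.subset_insert _ _)

lemma G_insert_adj (η : Set Edge) (e : Edge) (x y : ℤ × ℤ) (h : (G (insert e η)).Adj x y) :
    (G η).Adj x y ∨ (x = src e ∧ y = tgt e) ∨ (x = tgt e ∧ y = src e) := by
  obtain ⟨f, hf, h'⟩ := h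
  rcases Set.mem_insert_iff.1 hf with rfl | hf
  · rcases h' with ⟨rfl, rfl⟩ | ⟨rfl, rfl⟩
    · right; left; exact ⟨rfl, rfl⟩
    · right; right; exact ⟨rfl, rfl⟩
  · left; exact ⟨f, hf, h'⟩

lemma H_insert_le (η : Set Edge) (e : Edge) : H (insert e η) ≤ H η := by
  rintro x y ⟨f, hf, h'⟩
  exact ⟨f, fun h => hf (Set.mem_insert_of_mem _ h), h'⟩

lemma H_insert_adj (η : Set Edge) (e : Edge) (x y : ℤ × ℤ) (h : (H η).Adj x y) :
    (H (insert e η)).Adj x y ∨ (x = c1 e ∧ y = c2 e) ∨ (x = c2 e ∧ y = c1 e) := by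
  obtain ⟨f, hf, h'⟩ := h
  by_cases hfe : f = e
  · subst hfe
    rcases h' with ⟨rfl, rfl⟩ | ⟨rfl, rfl⟩
    · right; left; exact ⟨rfl, rfl⟩
    · right; right; exact ⟨rfl, rfl⟩
  · left
    refine ⟨f, ?_, h'⟩
    rw [Set.mem_insert_iff, not_or]
    exact ⟨hfe, hf⟩

/-! ### Gluing -/

section Glue

variable {α ξ : Set Edge} {I Vg : Finset (ℤ × ℤ)}

/-- `α` does not touch `I`, `ξ` lives on `I ∪ Vg`, and `ξ`-connections inside `Vg` are
`α`-connections. -/
structure Glue (α ξ : Set Edge) (I Vg : Finset (ℤ × ℤ)) : Prop where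
  disj : ∀ g ∈ Vg, g ∉ I
  hα : ∀ e ∈ α, src e ∉ I ∧ tgt e ∉ I
  hξ : ∀ e ∈ ξ, (src e ∈ I ∨ src e ∈ Vg) ∧ (tgt e ∈ I ∨ tgt e ∈ Vg)
  hg : ∀ g ∈ Vg, ∀ g' ∈ Vg, (G ξ).Reachable g g' → (G α).Reachable g g'

open Classical in
/-- vertices of `I` not attached to `Vg` through `ξ`. -/
noncomputable def Ifree (ξ : Set Edge) (I Vg : Finset (ℤ × ℤ)) : Finset (ℤ × ℤ) :=
  I.filter (fun v => ∀ g ∈ Vg, ¬ (G ξ).Reachable v g)

open Classical in
lemma glue_reach (h : Glue α ξ I Vg) {x y : ℤ × ℤ} (hx : x ∉ I) (hy : y ∉ I) :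
    (G (α ∪ ξ)).Reachable x y ↔ (G α).Reachable x y := by
  constructor
  swap
  · exact G_reach_mono Set.subset_union_left
  intro hr
  set κ : ℤ × ℤ → Option ((G α).ConnectedComponent) := fun v =>
    if v ∈ I then
      (if hv : ∃ g ∈ Vg, (G ξ).Reachable v g then some ((G α).connectedComponentMk hv.choose)
        else none)
    else some ((G α).connectedComponentMk v) with hκ
  have hκI : ∀ v ∈ I, ∀ g ∈ Vg, (G ξ).Reachable v g →
      κ v = some ((G α).connectedComponentMk g) := by
    intro v hv g hg hvg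
    have hex : ∃ g ∈ Vg, (G ξ).Reachable v g := ⟨g, hg, hvg⟩
    simp only [hκ]
    rw [if_pos hv, dif_pos hex]
    congr 1
    apply SimpleGraph.ConnectedComponent.sound
    exact h.hg _ hex.choose_spec.1 _ hg (hex.choose_spec.2.symm.trans hvg)
  have hκo : ∀ v, v ∉ I → κ v = some ((G α).connectedComponentMk v) := by
    intro v hv
    simp only [hκ]
    rw [if_neg hv]
  have hκn : ∀ v ∈ I, (¬ ∃ g ∈ Vg, (G ξ).Reachable v g) → κ v = none := by
    intro v hv hn
    simp only [hκ]
    rw [if_pos hv, dif_neg hn]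
  have h1 : κ x = κ y := by
    refine G_reach_inv κ ?_ hr
    intro e he
    rcases he with he | he
    · obtain ⟨h2, h3⟩ := h.hα e he
      rw [hκo _ h2, hκo _ h3]
      congr 1
      exact SimpleGraph.ConnectedComponent.sound (G_reach_edge he)
    · obtain ⟨h2, h3⟩ := h.hξ e he
      have h4 := G_reach_edge he
      rcases h2 with h2 | h2 <;> rcases h3 with h3 | h3
      · by_cases h5 : ∃ g ∈ Vg, (G ξ).Reachable (src e) g
        · obtain ⟨g, hg, h6⟩ := h5
          rw [hκI _ h2 g hg h6, hκI _ h3 g hg (h4.symm.trans h6)]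
        · rw [hκn _ h2 h5, hκn _ h3]
          rintro ⟨g, hg, h6⟩
          exact h5 ⟨g, hg, h4.trans h6⟩
      · rw [hκI _ h2 _ h3 h4, hκo _ (h.disj _ h3)]
      · rw [hκI _ h3 _ h2 h4.symm, hκo _ (h.disj _ h2)]
      · rw [hκo _ (h.disj _ h2), hκo _ (h.disj _ h3)]
        congr 1
        exact SimpleGraph.ConnectedComponent.sound (h.hg _ h2 _ h3 h4)
  rw [hκo _ hx, hκo _ hy] at h1
  exact SimpleGraph.ConnectedComponent.exact (Option.some.inj h1)

lemma glue_free' (hα : ∀ e ∈ α, src e ∉ I ∧ tgt e ∉ I)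
    (hξ : ∀ e ∈ ξ, (src e ∈ I ∨ src e ∈ Vg) ∧ (tgt e ∈ I ∨ tgt e ∈ Vg))
    {x y : ℤ × ℤ} (hx : x ∈ Ifree ξ I Vg)
    (hr : (G (α ∪ ξ)).Reachable x y) : (G ξ).Reachable x y ∧ y ∈ I := by
  classical
  unfold Ifree at hx
  rw [Finset.mem_filter] at hx
  obtain ⟨hxI, hxf⟩ := hx
  have key : ∀ v, (G ξ).Reachable x v → v ∈ I := by
    intro v hv
    by_contra hvI
    -- v is the endpoint of a `ξ` edge
    have h1 : v ∈ I ∨ v ∈ Vg := by
      have h2 : (v = x) ∨ ∃ u, (G ξ).Adj u v := by
        rw [SimpleGraph.reachable_iff_reflTransGen] at hv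
        rcases Relation.ReflTransGen.cases_tail hv with h2 | ⟨u, -, h2⟩
        · exact Or.inl h2
        · exact Or.inr ⟨u, h2⟩
      rcases h2 with rfl | ⟨u, e, he, h3⟩
      · exact Or.inl hxI
      · obtain ⟨h4, h5⟩ := hξ e he
        rcases h3 with ⟨rfl, rfl⟩ | ⟨rfl, rfl⟩
        · exact h5
        · exact h4
    rcases h1 with h1 | h1
    · exact hvI h1
    · exact hxf v h1 hv
  have h2 : ((G ξ).Reachable x x) = ((G ξ).Reachable x y) := by
    refine G_reach_inv (fun v => (G ξ).Reachable x v) ?_ hr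
    intro e he
    simp only [eq_iff_iff]
    rcases he with he | he
    · obtain ⟨h3, h4⟩ := hα e he
      constructor
      · exact fun h5 => absurd (key _ h5) h3
      · exact fun h5 => absurd (key _ h5) h4
    · have h5 := G_reach_edge he
      exact ⟨fun h6 => h6.trans h5, fun h6 => h6.trans h5.symm⟩
  have h3 : (G ξ).Reachable x y := h2 ▸ SimpleGraph.Reachable.refl x
  exact ⟨h3, key y h3⟩

/-- Splitting off the free inside clusters. -/
lemma glue_split (hα : ∀ e ∈ α, src e ∉ I ∧ tgt e ∉ I)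
    (hξ : ∀ e ∈ ξ, (src e ∈ I ∨ src e ∈ Vg) ∧ (tgt e ∈ I ∨ tgt e ∈ Vg))
    {V' : Finset (ℤ × ℤ)} (hV : Vg ⊆ V') (hd : ∀ v ∈ V', v ∉ I) :
    comps (G (α ∪ ξ)) (V' ∪ I) = comps (G (α ∪ ξ)) V' + comps (G ξ) (Ifree ξ I Vg) := by
  classical
  set Iatt := I.filter (fun v => ∃ g ∈ Vg, (G ξ).Reachable v g) with hIatt
  have h1 : V' ∪ I = (V' ∪ Iatt) ∪ Ifree ξ I Vg := by
    ext v
    simp only [hIatt, Ifree, Finset.mem_union, Finset.mem_filter]
    by_cases h2 : ∃ g ∈ Vg, (G ξ).Reachable v g
    · simp only [h2, and_true]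
      have h3 : ¬ ∀ g ∈ Vg, ¬ (G ξ).Reachable v g := by
        push Not
        exact h2
      simp only [h3, and_false, or_false]
    · simp only [h2, and_false, or_false]
      have h3 : ∀ g ∈ Vg, ¬ (G ξ).Reachable v g := by
        push Not at h2
        exact h2
      constructor
      · rintro (h4 | h4)
        · exact Or.inl h4
        · exact Or.inr ⟨h4, h3⟩
      · rintro (h4 | h4)
        · exact Or.inl h4
        · exact Or.inr h4.1
  have hfI : ∀ v ∈ Ifree ξ I Vg, v ∈ I := fun v hv => (Finset.mem_filter.1 hv).1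
  rw [h1, comps_union_disj, comps_union_absorb]
  · congr 1
    apply comps_congr
    intro x hx y _
    exact ⟨fun hr => (glue_free' hα hξ hx hr).1, G_reach_mono Set.subset_union_right⟩
  · intro y hy
    rw [hIatt, Finset.mem_filter] at hy
    obtain ⟨-, g, hg, hr⟩ := hy
    exact ⟨g, hV hg, G_reach_mono Set.subset_union_right hr⟩
  · intro x hx y hy hr
    obtain ⟨h2, h3⟩ := glue_free' hα hξ hy hr.symm
    rw [Finset.mem_union] at hx
    rcases hx with hx | hx
    · exact hd x hx h3
    · rw [hIatt, Finset.mem_filter] at hx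
      obtain ⟨-, g, hg, hr'⟩ := hx
      rw [Ifree, Finset.mem_filter] at hy
      exact hy.2 g hg (h2.trans hr')

lemma glue_comps (h : Glue α ξ I Vg) {V' : Finset (ℤ × ℤ)} (hV : Vg ⊆ V')
    (hd : ∀ v ∈ V', v ∉ I) :
    comps (G (α ∪ ξ)) (V' ∪ I) = comps (G α) V' + comps (G ξ) (Ifree ξ I Vg) := by
  rw [glue_split h.hα h.hξ hV hd]
  congr 1
  exact comps_congr fun x hx y hy => glue_reach h (hd x hx) (hd y hy)

end Glue

end Pool.Agent.H962
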