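import Pool.Agent.H962.Lattice

/-!
Finite sets of cells, their boundary edges, and the planarity facts we need.
-/

namespace Pool.Agent.H962

open Finset

/-- The four edges of a cell. -/
def cellEdges (c : ℤ × ℤ) : Finset Edge :=
  {(c, false), (c, true), ((c.1, c.2 + 1), false), ((c.1 + 1, c.2), true)}

/-- The four corners of a cell. -/
def cellVerts (c : ℤ × ℤ) : Finset (ℤ × ℤ) :=
  {c, (c.1 + 1, c.2), (c.1, c.2 + 1), (c.1 + 1, c.2 + 1)}

/-- All edges of the cells of `W`. -/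
def adjE (W : Finset (ℤ × ℤ)) : Finset Edge := W.biUnion cellEdges

/-- All corners of the cells of `W`. -/
def verts (W : Finset (ℤ × ℤ)) : Finset (ℤ × ℤ) := W.biUnion cellVerts

/-- Edges with both adjacent cells in `W`. -/
def Ein (W : Finset (ℤ × ℤ)) : Finset Edge := (adjE W).filter (fun e => c1 e ∈ W ∧ c2 e ∈ W)

/-- Boundary edges of `W`: exactly one adjacent cell lies in `W`. -/
def bdE (W : Finset (ℤ × ℤ)) : Finset Edge := (adjE W).filter (fun e => ¬ (c1 e ∈ W ∧ c2 e ∈ W))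

/-- Endpoints of the boundary edges. -/
def bdV (W : Finset (ℤ × ℤ)) : Finset (ℤ × ℤ) := (bdE W).image src ∪ (bdE W).image tgt

/-- Vertices all of whose four cells lie in `W`. -/
def Vint (W : Finset (ℤ × ℤ)) : Finset (ℤ × ℤ) :=
  W.filter (fun v => (v.1 - 1, v.2) ∈ W ∧ (v.1, v.2 - 1) ∈ W ∧ (v.1 - 1, v.2 - 1) ∈ W)

lemma mem_adjE {W : Finset (ℤ × ℤ)} {e : Edge} : e ∈ adjE W ↔ c1 e ∈ W ∨ c2 e ∈ W := by
  unfold adjE
  rw [Finset.mem_biUnion]
  obtain ⟨⟨a, b⟩, t⟩ := e
  constructor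
  · rintro ⟨⟨i, j⟩, hc, he⟩
    cases t
    · simp only [cellEdges, Finset.mem_insert, Finset.mem_singleton, Prod.mk.injEq, and_true,
        Bool.false_eq_true, and_false, or_false, false_or] at he
      rcases he with ⟨rfl, rfl⟩ | ⟨rfl, rfl⟩
      · left; simpa [c1] using hc
      · right; simpa [c2] using hc
    · simp only [cellEdges, Finset.mem_insert, Finset.mem_singleton, Prod.mk.injEq, and_true,
        Bool.true_eq_false, and_false, false_or] at he
      rcases he with ⟨rfl, rfl⟩ | ⟨rfl, rfl⟩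
      · left; simpa [c1] using hc
      · right; simpa [c2] using hc
  · rintro (h | h)
    · refine ⟨_, h, ?_⟩
      cases t <;> simp [cellEdges, c1]
    · refine ⟨_, h, ?_⟩
      cases t <;> simp [cellEdges, c2]

lemma mem_Ein {W : Finset (ℤ × ℤ)} {e : Edge} : e ∈ Ein W ↔ c1 e ∈ W ∧ c2 e ∈ W := by
  unfold Ein
  rw [Finset.mem_filter, mem_adjE]
  tauto

lemma mem_bdE {W : Finset (ℤ × ℤ)} {e : Edge} : e ∈ bdE W ↔ ¬ (c1 e ∈ W ↔ c2 e ∈ W) := by
  unfold bdE
  rw [Finset.mem_filter, mem_adjE]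
  tauto

lemma adjE_eq (W : Finset (ℤ × ℤ)) : adjE W = Ein W ∪ bdE W := by
  ext e
  rw [Finset.mem_union, mem_adjE, mem_Ein, mem_bdE]
  tauto

lemma disj_Ein_bdE (W : Finset (ℤ × ℤ)) : Disjoint (Ein W) (bdE W) := by
  rw [Finset.disjoint_left]
  intro e he
  rw [mem_Ein] at he
  rw [mem_bdE]
  tauto

lemma mem_verts {W : Finset (ℤ × ℤ)} {i j : ℤ} : (i, j) ∈ verts W ↔
    (i, j) ∈ W ∨ (i - 1, j) ∈ W ∨ (i, j - 1) ∈ W ∨ (i - 1, j - 1) ∈ W := by
  unfold verts
  rw [Finset.mem_biUnion]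
  constructor
  · rintro ⟨⟨a, b⟩, hc, he⟩
    simp only [cellVerts, Finset.mem_insert, Finset.mem_singleton, Prod.mk.injEq] at he
    rcases he with ⟨rfl, rfl⟩ | ⟨rfl, rfl⟩ | ⟨rfl, rfl⟩ | ⟨rfl, rfl⟩
    · left; exact hc
    · right; left; simpa using hc
    · right; right; left; simpa using hc
    · right; right; right; simpa using hc
  · rintro (h | h | h | h)
    · exact ⟨_, h, by simp [cellVerts]⟩
    · exact ⟨_, h, by simp [cellVerts]⟩
    · exact ⟨_, h, by simp [cellVerts]⟩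
    · exact ⟨_, h, by simp [cellVerts]⟩

lemma mem_Vint {W : Finset (ℤ × ℤ)} {i j : ℤ} : (i, j) ∈ Vint W ↔
    (i, j) ∈ W ∧ (i - 1, j) ∈ W ∧ (i, j - 1) ∈ W ∧ (i - 1, j - 1) ∈ W := by
  unfold Vint
  rw [Finset.mem_filter]

lemma Vint_subset (W : Finset (ℤ × ℤ)) : Vint W ⊆ W := Finset.filter_subset _ _

lemma mem_bdV {W : Finset (ℤ × ℤ)} {v : ℤ × ℤ} :
    v ∈ bdV W ↔ ∃ e ∈ bdE W, src e = v ∨ tgt e = v := by
  unfold bdV
  rw [Finset.mem_union, Finset.mem_image, Finset.mem_image]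
  constructor
  · rintro (⟨e, he, h⟩ | ⟨e, he, h⟩)
    · exact ⟨e, he, Or.inl h⟩
    · exact ⟨e, he, Or.inr h⟩
  · rintro ⟨e, he, h | h⟩
    · exact Or.inl ⟨e, he, h⟩
    · exact Or.inr ⟨e, he, h⟩

/-- a vertex is on the boundary iff its four cells are not all on the same side. -/
lemma mem_bdV' {W : Finset (ℤ × ℤ)} {i j : ℤ} : (i, j) ∈ bdV W ↔
    ¬ (((i, j) ∈ W ↔ (i, j - 1) ∈ W) ∧ ((i, j) ∈ W ↔ (i - 1, j) ∈ W) ∧
      ((i - 1, j) ∈ W ↔ (i - 1, j - 1) ∈ W)) := by
  rw [mem_bdV]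
  constructor
  · rintro ⟨⟨⟨a, b⟩, t⟩, he, h⟩
    rw [mem_bdE] at he
    cases t
    · simp only [c1, c2, src, tgt, Bool.false_eq_true, if_false, Prod.mk.injEq] at he h
      rcases h with ⟨rfl, rfl⟩ | ⟨rfl, rfl⟩
      · tauto
      · simp only [add_sub_cancel_right]
        tauto
    · simp only [c1, c2, src, tgt, if_true, Prod.mk.injEq] at he h
      rcases h with ⟨rfl, rfl⟩ | ⟨rfl, rfl⟩
      · tauto
      · simp only [add_sub_cancel_right]
        tauto
  · intro h
    by_cases h1 : ((i, j) ∈ W ↔ (i, j - 1) ∈ W)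
    · by_cases h2 : ((i, j) ∈ W ↔ (i - 1, j) ∈ W)
      · have h3 : ¬ ((i - 1, j) ∈ W ↔ (i - 1, j - 1) ∈ W) := by tauto
        refine ⟨((i - 1, j), false), ?_, Or.inr ?_⟩
        · rw [mem_bdE]
          simpa [c1, c2] using h3
        · simp [tgt]
      · refine ⟨((i, j), true), ?_, Or.inl rfl⟩
        rw [mem_bdE]
        simpa [c1, c2] using h2
    · refine ⟨((i, j), false), ?_, Or.inl rfl⟩
      rw [mem_bdE]
      simpa [c1, c2] using h1

lemma verts_eq (W : Finset (ℤ × ℤ)) : verts W = bdV W ∪ Vint W := by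
  ext ⟨i, j⟩
  rw [Finset.mem_union, mem_verts, mem_bdV', mem_Vint]
  tauto

lemma disj_bdV_Vint (W : Finset (ℤ × ℤ)) : Disjoint (bdV W) (Vint W) := by
  rw [Finset.disjoint_left]
  rintro ⟨i, j⟩ h
  rw [mem_bdV'] at h
  rw [mem_Vint]
  tauto

/-- edges incident to a vertex of `Vint W` have both cells in `W`. -/
lemma Ein_of_Vint {W : Finset (ℤ × ℤ)} {e : Edge} (h : src e ∈ Vint W ∨ tgt e ∈ Vint W) :
    e ∈ Ein W := by
  rw [mem_Ein]
  obtain ⟨⟨a, b⟩, t⟩ := e
  cases t
  · simp only [c1, c2, src, tgt, Bool.false_eq_true, if_false, mem_Vint] at h ⊢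
    simp only [add_sub_cancel_right] at h
    tauto
  · simp only [c1, c2, src, tgt, if_true, mem_Vint] at h ⊢
    simp only [add_sub_cancel_right] at h
    tauto

lemma Ein_verts {W : Finset (ℤ × ℤ)} {e : Edge} (h : e ∈ Ein W) :
    src e ∈ verts W ∧ tgt e ∈ verts W := by
  rw [mem_Ein] at h
  obtain ⟨⟨a, b⟩, t⟩ := e
  cases t
  · simp only [c1, c2, src, tgt, Bool.false_eq_true, if_false, mem_verts] at h ⊢
    simp only [add_sub_cancel_right]
    tauto
  · simp only [c1, c2, src, tgt, if_true, mem_verts] at h ⊢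
    simp only [add_sub_cancel_right]
    tauto

lemma bdE_bdV {W : Finset (ℤ × ℤ)} {e : Edge} (h : e ∈ bdE W) :
    src e ∈ bdV W ∧ tgt e ∈ bdV W :=
  ⟨mem_bdV.2 ⟨e, h, Or.inl rfl⟩, mem_bdV.2 ⟨e, h, Or.inr rfl⟩⟩

lemma adjE_verts {W : Finset (ℤ × ℤ)} {e : Edge} (h : e ∈ adjE W) :
    src e ∈ verts W ∧ tgt e ∈ verts W := by
  rw [adjE_eq, Finset.mem_union] at h
  rcases h with h | h
  · exact Ein_verts h
  · have := bdE_bdV h
    rw [verts_eq]
    exact ⟨Finset.mem_union_left _ this.1, Finset.mem_union_left _ this.2⟩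

/-- boundaries of sets of cells are even. -/
lemma bd_bdE (X : Finset (ℤ × ℤ)) (v : ℤ × ℤ) : bd (bdE X) v = 0 := by
  obtain ⟨i, j⟩ := v
  rw [bd_eq_ind]
  set x : ℤ × ℤ → ZMod 2 := fun c => if c ∈ X then 1 else 0 with hx
  have h : ∀ e, ind (bdE X) e = x (c1 e) + x (c2 e) := by
    intro e
    simp only [hx]
    unfold ind
    by_cases h1 : c1 e ∈ X <;> by_cases h2 : c2 e ∈ X
    · rw [if_neg (by rw [mem_bdE]; tauto), if_pos h1, if_pos h2]; rfl
    · rw [if_pos (by rw [mem_bdE]; tauto), if_pos h1, if_neg h2]; rfl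
    · rw [if_pos (by rw [mem_bdE]; tauto), if_neg h1, if_pos h2]; rfl
    · rw [if_neg (by rw [mem_bdE]; tauto), if_neg h1, if_neg h2]; rfl
  rw [h, h, h, h]
  change x (i, j) + x (i, j - 1) + (x (i, j) + x (i - 1, j)) + (x (i - 1, j) + x (i - 1, j - 1))
    + (x (i, j - 1) + x (i - 1, j - 1)) = 0
  have h1 := zmod2_add_self (x (i, j))
  have h2 := zmod2_add_self (x (i - 1, j))
  have h3 := zmod2_add_self (x (i, j - 1))
  have h4 := zmod2_add_self (x (i - 1, j - 1))
  linear_combination h1 + h2 + h3 + h4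

/-- Closing a cycle separates the two cells. -/
theorem sep_of_cycle {η : Set Edge} {e : Edge} (he : e ∉ η)
    (h : (G η).Reachable (src e) (tgt e)) : ¬ (H (insert e η)).Reachable (c1 e) (c2 e) := by
  classical
  obtain ⟨S, hS, hb⟩ := path_chain h
  have heS : e ∉ S := fun h' => he (hS h')
  obtain ⟨X, hX⟩ := even_is_boundary (insert e S) (by
    intro v
    have h1 : bd (insert e S) v = bd {e} v + bd S v := by
      unfold bd
      rw [Finset.sum_insert heS, Finset.sum_singleton]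
    rw [h1, hb, bd_singleton, zmod2_add_self])
  intro hr
  have h2 : (c1 e ∈ X) = (c2 e ∈ X) := by
    refine H_reach_inv (fun c => c ∈ X) ?_ hr
    intro f hf
    have h3 : f ∉ insert e S := by
      intro h4
      apply hf
      rw [Finset.mem_insert] at h4
      rcases h4 with rfl | h4
      · exact Set.mem_insert _ _
      · exact Set.mem_insert_of_mem _ (hS h4)
    rw [hX] at h3
    simp only [eq_iff_iff]
    tauto
  have h5 := (hX e).1 (Finset.mem_insert_self _ _)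
  rw [h2] at h5
  exact h5 Iff.rfl

/-- If the two cells of `e` are separated by `η ∪ {e}` then the endpoints of `e` are connected
in `η`. -/
theorem cycle_of_sep {η : Set Edge} {e : Edge} (X : Finset (ℤ × ℤ))
    (hX : ¬ (c1 e ∈ X ↔ c2 e ∈ X)) (hb : ∀ f, ¬ (c1 f ∈ X ↔ c2 f ∈ X) → f = e ∨ f ∈ η) :
    (G η).Reachable (src e) (tgt e) := by
  classical
  by_contra hcon
  set φ : ℤ × ℤ → ZMod 2 := fun v => if (G η).Reachable (src e) v then 1 else 0 with hφ
  have h1 : ∑ f ∈ bdE X, (φ (src f) + φ (tgt f)) = 0 := by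
    set T : Finset (ℤ × ℤ) := (bdE X).image src ∪ (bdE X).image tgt with hT
    have h2 : ∀ f ∈ bdE X, φ (src f) + φ (tgt f) =
        ∑ v ∈ T, φ v * ((if src f = v then 1 else 0) + (if tgt f = v then 1 else 0)) := by
      intro f hf
      have h3 : src f ∈ T := Finset.mem_union_left _ (Finset.mem_image_of_mem _ hf)
      have h4 : tgt f ∈ T := Finset.mem_union_right _ (Finset.mem_image_of_mem _ hf)
      simp only [mul_add, Finset.sum_add_distrib, mul_ite, mul_one, mul_zero]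
      rw [Finset.sum_ite_eq T (src f) φ, Finset.sum_ite_eq T (tgt f) φ, if_pos h3, if_pos h4]
    rw [Finset.sum_congr rfl h2, Finset.sum_comm]
    apply Finset.sum_eq_zero
    intro v _
    rw [← Finset.mul_sum]
    have := bd_bdE X v
    unfold bd at this
    rw [this, mul_zero]
  have he : e ∈ bdE X := mem_bdE.2 hX
  rw [← Finset.add_sum_erase _ _ he] at h1
  have h2 : ∑ f ∈ (bdE X).erase e, (φ (src f) + φ (tgt f)) = 0 := by
    apply Finset.sum_eq_zero
    intro f hf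
    rw [Finset.mem_erase] at hf
    have h3 : f ∈ η := by
      rcases hb f (mem_bdE.1 hf.2) with h | h
      · exact absurd h hf.1
      · exact h
    have h4 : φ (src f) = φ (tgt f) := by
      simp only [hφ]
      have h5 := G_reach_edge h3
      refine if_congr ⟨fun h => h.trans h5, fun h => h.trans h5.symm⟩ rfl rfl
    rw [h4, zmod2_add_self]
  rw [h2, add_zero] at h1
  simp only [hφ] at h1
  rw [if_pos (SimpleGraph.Reachable.refl _), if_neg hcon] at h1
  exact absurd h1 (by decide)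

/-- Domains: finite nonempty sets of cells which are connected and have connected complement
(both in the sense of cells sharing an edge). -/
structure IsDom (W : Finset (ℤ × ℤ)) : Prop where
  nonempty : W.Nonempty
  inn : ∀ c ∈ W, ∀ d ∈ W, (H (↑(bdE W))).Reachable c d
  out : ∀ c ∉ W, ∀ d ∉ W, (H (↑(bdE W))).Reachable c d

/-- A finite set of cells that is constant across all edges outside `W` misses the complement
of `W`. -/
lemma outside_notMem {W : Finset (ℤ × ℤ)} (hW : IsDom W) (X : Finset (ℤ × ℤ))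
    (h : ∀ f, c1 f ∉ W → c2 f ∉ W → (c1 f ∈ X ↔ c2 f ∈ X)) : ∀ c ∉ W, c ∉ X := by
  classical
  obtain ⟨d, hd⟩ := Infinite.exists_notMem_finset (W ∪ X)
  rw [Finset.mem_union, not_or] at hd
  intro c hc hcX
  have h1 : (c ∉ W ∧ c ∈ X) = (d ∉ W ∧ d ∈ X) := by
    refine H_reach_inv (fun c => c ∉ W ∧ c ∈ X) ?_ (hW.out c hc d hd.1)
    intro f hf
    have hf' : (c1 f ∈ W ↔ c2 f ∈ W) := by
      by_contra h2
      exact hf (Finset.mem_coe.2 (mem_bdE.2 h2))
    simp only [eq_iff_iff]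
    by_cases h3 : c1 f ∈ W
    · have h4 := hf'.1 h3
      tauto
    · have h4 : c2 f ∉ W := fun h5 => h3 (hf'.2 h5)
      have := h f h3 h4
      tauto
  have h2 : d ∉ W ∧ d ∈ X := h1 ▸ ⟨hc, hcX⟩
  exact hd.2 h2.2

/-- The boundary of a domain is connected. -/
theorem bdE_connected {W : Finset (ℤ × ℤ)} (hW : IsDom W) {g g' : ℤ × ℤ} (hg : g ∈ bdV W)
    (hg' : g' ∈ bdV W) : (G (↑(bdE W))).Reachable g g' := by
  classical
  set K : Finset Edge := (bdE W).filter (fun f => (G (↑(bdE W))).Reachable g (src f)) with hK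
  have hKb : ∀ v, bd K v = 0 := by
    intro v
    have h1 : bd K v = (if (G (↑(bdE W))).Reachable g v then 1 else 0) * bd (bdE W) v := by
      unfold bd
      rw [hK, Finset.sum_filter, Finset.mul_sum]
      apply Finset.sum_congr rfl
      intro f hf
      have h5 := G_reach_edge (Finset.mem_coe.2 hf)
      by_cases h2 : (G (↑(bdE W))).Reachable g (src f)
      · rw [if_pos h2]
        by_cases h3 : (G (↑(bdE W))).Reachable g v
        · rw [if_pos h3, one_mul]
        · rw [if_neg h3, zero_mul, if_neg, if_neg, add_zero]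
          · rintro rfl; exact h3 (h2.trans h5)
          · rintro rfl; exact h3 h2
      · rw [if_neg h2]
        by_cases h3 : (G (↑(bdE W))).Reachable g v
        · rw [if_pos h3, one_mul, if_neg, if_neg, add_zero]
          · rintro rfl; exact h2 (h3.trans h5.symm)
          · rintro rfl; exact h2 h3
        · rw [if_neg h3, zero_mul]
    rw [h1, bd_bdE, mul_zero]
  obtain ⟨X, hX⟩ := even_is_boundary K hKb
  have hKsub : K ⊆ bdE W := Finset.filter_subset _ _
  have hout : ∀ c ∉ W, c ∉ X := by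
    apply outside_notMem hW X
    intro f h1 h2
    by_contra h3
    have h4 := hKsub ((hX f).2 h3)
    rw [mem_bdE] at h4
    tauto
  have hin : ∀ c ∈ W, ∀ d ∈ W, (c ∈ X ↔ d ∈ X) := by
    intro c hc d hd
    have h1 : (c ∈ X) = (d ∈ X) := by
      refine H_reach_inv (fun c => c ∈ X) ?_ (hW.inn c hc d hd)
      intro f hf
      simp only [eq_iff_iff]
      by_contra h3
      exact hf (Finset.mem_coe.2 (hKsub ((hX f).2 h3)))
    rw [h1]
  obtain ⟨f, hf, hfg⟩ := mem_bdV.1 hg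
  have hfK : f ∈ K := by
    rw [hK, Finset.mem_filter]
    refine ⟨hf, ?_⟩
    rcases hfg with rfl | rfl
    · exact SimpleGraph.Reachable.refl _
    · exact (G_reach_edge (Finset.mem_coe.2 hf)).symm
  -- an inner cell in X
  obtain ⟨c0, hc0W, hc0X⟩ : ∃ c ∈ W, c ∈ X := by
    have h1 := (hX f).1 hfK
    have h2 := mem_bdE.1 hf
    by_cases h3 : c1 f ∈ W
    · by_cases h4 : c1 f ∈ X
      · exact ⟨_, h3, h4⟩
      · have h5 : c2 f ∉ W := by tauto
        have h6 := hout _ h5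
        tauto
    · have h5 : c2 f ∈ W := by tauto
      have h6 := hout _ h3
      exact ⟨_, h5, by tauto⟩
  obtain ⟨f', hf', hfg'⟩ := mem_bdV.1 hg'
  have hf'K : f' ∈ K := by
    rw [hX]
    have h2 := mem_bdE.1 hf'
    by_cases h3 : c1 f' ∈ W
    · have h5 : c2 f' ∉ W := by tauto
      have h6 := hout _ h5
      have h7 := (hin _ h3 _ hc0W).2 hc0X
      tauto
    · have h5 : c2 f' ∈ W := by tauto
      have h6 := hout _ h3
      have h7 := (hin _ h5 _ hc0W).2 hc0X
      tauto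
  rw [hK, Finset.mem_filter] at hf'K
  rcases hfg' with rfl | rfl
  · exact hf'K.2
  · exact hf'K.2.trans (G_reach_edge (Finset.mem_coe.2 hf'))

/-- Inner cells adjacent to the boundary of `W`. -/
def Touch (W : Finset (ℤ × ℤ)) (c : ℤ × ℤ) : Prop :=
  c ∈ W ∧ ∃ f ∈ bdE W, c1 f = c ∨ c2 f = c

/-- all inner cells touching the boundary of `W` are connected across edges not in `ξ`. -/
def Conn (W : Finset (ℤ × ℤ)) (ξ : Finset Edge) : Prop :=
  ∀ c d, Touch W c → Touch W d → (H (↑ξ ∪ ↑(bdE W))).Reachable c d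

/-- In a `Conn` configuration, the vertices of the contour are pairwise disconnected inside. -/
theorem sep_of_conn {W : Finset (ℤ × ℤ)} (hW : IsDom W) {ξ : Finset Edge} (hξ : ξ ⊆ Ein W)
    (hc : Conn W ξ) {g g' : ℤ × ℤ} (hg : g ∈ bdV W) (hg' : g' ∈ bdV W)
    (hr : (G (↑ξ)).Reachable g g') : g = g' := by
  classical
  by_contra hne
  obtain ⟨S1, hS1, hb1⟩ := path_chain hr
  obtain ⟨S2, hS2, hb2⟩ := path_chain (bdE_connected hW hg hg')
  have hS1' : S1 ⊆ ξ := fun f hf => Finset.mem_coe.1 (hS1 hf)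
  have hS2' : S2 ⊆ bdE W := fun f hf => Finset.mem_coe.1 (hS2 hf)
  obtain ⟨X, hX⟩ := even_is_boundary (symmDiff S1 S2) (by
    intro v
    rw [bd_symmDiff, hb1, hb2, zmod2_add_self])
  have hd : ∀ f, f ∈ S1 → f ∉ bdE W := fun f hf h =>
    (Finset.disjoint_left.1 (disj_Ein_bdE W)) (hξ (hS1' hf)) h
  have hout : ∀ c ∉ W, c ∉ X := by
    apply outside_notMem hW X
    intro f h1 h2
    by_contra h3
    have h4 := (hX f).2 h3
    rw [Finset.mem_symmDiff] at h4
    rcases h4 with ⟨h4, -⟩ | ⟨h4, -⟩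
    · have := mem_Ein.1 (hξ (hS1' h4))
      exact h1 this.1
    · have := mem_bdE.1 (hS2' h4)
      tauto
  obtain ⟨f, hf⟩ : ∃ f, f ∈ S2 := by
    by_contra hcon
    push Not at hcon
    have h1 := hb2 g
    rw [Finset.eq_empty_of_forall_notMem hcon, if_pos rfl, if_neg (fun h => hne h.symm)] at h1
    simp [bd] at h1
  obtain ⟨f', hf', hf'2⟩ : ∃ f', f' ∈ bdE W ∧ f' ∉ S2 := by
    by_contra hcon
    push Not at hcon
    have h1 : S2 = bdE W := Finset.Subset.antisymm hS2' hcon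
    have h2 := hb2 g
    rw [h1, bd_bdE, if_pos rfl, if_neg (fun h => hne h.symm)] at h2
    simp at h2
  have hfS : f ∈ symmDiff S1 S2 := by
    rw [Finset.mem_symmDiff]
    exact Or.inr ⟨hf, fun h => hd f h (hS2' hf)⟩
  have hf'S : f' ∉ symmDiff S1 S2 := by
    rw [Finset.mem_symmDiff]
    rintro (⟨h, -⟩ | ⟨h, -⟩)
    · exact hd f' h hf'
    · exact hf'2 h
  obtain ⟨c, hcT, hcX⟩ : ∃ c, Touch W c ∧ c ∈ X := by
    have h1 := (hX f).1 hfS
    have h2 := mem_bdE.1 (hS2' hf)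
    by_cases h3 : c1 f ∈ W
    · have h5 : c2 f ∉ W := by tauto
      have h6 := hout _ h5
      exact ⟨c1 f, ⟨h3, f, hS2' hf, Or.inl rfl⟩, by tauto⟩
    · have h5 : c2 f ∈ W := by tauto
      have h6 := hout _ h3
      exact ⟨c2 f, ⟨h5, f, hS2' hf, Or.inr rfl⟩, by tauto⟩
  obtain ⟨d, hdT, hdX⟩ : ∃ c, Touch W c ∧ c ∉ X := by
    have h1 : (c1 f' ∈ X ↔ c2 f' ∈ X) := by
      by_contra h
      exact hf'S ((hX f').2 h)
    have h2 := mem_bdE.1 hf'
    by_cases h3 : c1 f' ∈ W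
    · have h5 : c2 f' ∉ W := by tauto
      have h6 := hout _ h5
      exact ⟨c1 f', ⟨h3, f', hf', Or.inl rfl⟩, by tauto⟩
    · have h5 : c2 f' ∈ W := by tauto
      have h6 := hout _ h3
      exact ⟨c2 f', ⟨h5, f', hf', Or.inr rfl⟩, by tauto⟩
  have h7 : (c ∈ X) = (d ∈ X) := by
    refine H_reach_inv (fun c => c ∈ X) ?_ (hc c d hcT hdT)
    intro k hk
    simp only [eq_iff_iff]
    by_contra h3
    apply hk
    have h4 := (hX k).2 h3
    rw [Finset.mem_symmDiff] at h4
    rcases h4 with ⟨h4, -⟩ | ⟨h4, -⟩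
    · exact Or.inl (hS1 h4)
    · exact Or.inr (hS2 h4)
  rw [h7] at hcX
  exact hdX hcX

end Pool.Agent.H962
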