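import Pool.Agent.H962.Domain

/-!
Counting contours.
-/

namespace Pool.Agent.H962

open Finset

/-! ### A general bound on the number of connected sets -/

section Grow

variable {E : Type*} [DecidableEq E]

/-- `S` contains `r` and every proper subset containing `r` can be enlarged by a neighbour. -/
def Grow (N : E → Finset E) (r : E) (S : Finset E) : Prop :=
  r ∈ S ∧ ∀ T ⊆ S, r ∈ T → T ≠ S → ∃ s ∈ S, s ∉ T ∧ ∃ t ∈ T, s ∈ N t

lemma grow_subset {N : E → Finset E} {r : E} {S T ω : Finset E} (hS : Grow N r S)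
    (hT : Grow N r T) (hSω : ω ∩ (S ∪ S.biUnion N) = S) (hTω : ω ∩ (T ∪ T.biUnion N) = T) :
    S ⊆ T := by
  by_contra hcon
  have h1 : T ∩ S ≠ S := by
    intro h
    exact hcon (Finset.inter_eq_right.1 h)
  obtain ⟨s, hsS, hsT, t, htT, hst⟩ := hS.2 (T ∩ S) Finset.inter_subset_right
    (Finset.mem_inter.2 ⟨hT.1, hS.1⟩) h1
  rw [Finset.mem_inter] at htT hsT
  have h2 : s ∈ ω := by
    have : s ∈ ω ∩ (S ∪ S.biUnion N) := by rw [hSω]; exact hsS
    exact (Finset.mem_inter.1 this).1
  have h3 : s ∈ T := by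
    rw [← hTω, Finset.mem_inter, Finset.mem_union, Finset.mem_biUnion]
    exact ⟨h2, Or.inr ⟨t, htT.1, hst⟩⟩
  exact hsT ⟨h3, hsS⟩

theorem card_grow_le (N : E → Finset E) (r : E) (Δ ℓ : ℕ) (hN : ∀ e, (N e).card ≤ Δ)
    (𝒮 : Finset (Finset E)) (h𝒮 : ∀ S ∈ 𝒮, Grow N r S ∧ S.card = ℓ) :
    𝒮.card ≤ 2 ^ ((Δ + 1) * ℓ) := by
  classical
  set cl : Finset E → Finset E := fun S => S ∪ S.biUnion N with hcl
  set U : Finset E := 𝒮.biUnion cl with hU
  set Cyl : Finset E → Finset (Finset E) := fun S => U.powerset.filter (fun ω => ω ∩ cl S = S)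
    with hCyl
  have hclcard : ∀ S ∈ 𝒮, (cl S).card ≤ (Δ + 1) * ℓ := by
    intro S hS
    have h1 := (h𝒮 S hS).2
    have h2 : (S.biUnion N).card ≤ S.card * Δ := Finset.card_biUnion_le_card_mul _ _ _
      (fun e _ => hN e)
    calc (cl S).card ≤ S.card + (S.biUnion N).card := Finset.card_union_le _ _
      _ ≤ S.card + S.card * Δ := Nat.add_le_add_left h2 _
      _ = (Δ + 1) * ℓ := by rw [h1]; ring
  have hclU : ∀ S ∈ 𝒮, cl S ⊆ U := fun S hS => Finset.subset_biUnion_of_mem cl hS
  have hcard : ∀ S ∈ 𝒮, 2 ^ U.card ≤ (Cyl S).card * 2 ^ ((Δ + 1) * ℓ) := by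
    intro S hS
    have hSU : S ⊆ U := fun x hx => hclU S hS (Finset.mem_union_left _ hx)
    have h1 : 2 ^ (U \ cl S).card ≤ (Cyl S).card := by
      rw [← Finset.card_powerset]
      apply Finset.card_le_card_of_injOn (fun ω => ω ∪ S)
      · intro ω hω
        rw [Finset.mem_coe, Finset.mem_powerset] at hω
        rw [Finset.mem_coe, hCyl, Finset.mem_filter, Finset.mem_powerset]
        constructor
        · exact Finset.union_subset (hω.trans Finset.sdiff_subset) hSU
        · ext x
          rw [Finset.mem_inter, Finset.mem_union]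
          constructor
          · rintro ⟨hx | hx, hx2⟩
            · exact absurd hx2 (Finset.mem_sdiff.1 (hω hx)).2
            · exact hx
          · intro hx
            exact ⟨Or.inr hx, Finset.mem_union_left _ hx⟩
      · intro ω hω ω' hω' hh
        rw [Finset.mem_coe, Finset.mem_powerset] at hω hω'
        simp only at hh
        have key : ∀ ω₁ ω₂ : Finset E, ω₁ ⊆ U \ cl S → ω₁ ∪ S = ω₂ ∪ S → ω₁ ⊆ ω₂ := by
          intro ω₁ ω₂ h3 h4 x hx
          have h5 : x ∈ ω₂ ∪ S := by rw [← h4]; exact Finset.mem_union_left _ hx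
          rw [Finset.mem_union] at h5
          rcases h5 with h5 | h5
          · exact h5
          · exact absurd (Finset.mem_union_left _ h5) (Finset.mem_sdiff.1 (h3 hx)).2
        exact Finset.Subset.antisymm (key _ _ hω hh) (key _ _ hω' hh.symm)
    have h2 : U.card = (U \ cl S).card + (cl S).card :=
      (Finset.card_sdiff_add_card_eq_card (hclU S hS)).symm
    calc 2 ^ U.card = 2 ^ (U \ cl S).card * 2 ^ (cl S).card := by rw [h2, pow_add]
      _ ≤ (Cyl S).card * 2 ^ ((Δ + 1) * ℓ) :=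
        Nat.mul_le_mul h1 (Nat.pow_le_pow_right (by norm_num) (hclcard S hS))
  have hdisj : (↑𝒮 : Set (Finset E)).PairwiseDisjoint Cyl := by
    intro S hS T hT hST
    rw [Function.onFun, Finset.disjoint_left]
    intro ω hω hω'
    rw [hCyl, Finset.mem_filter] at hω hω'
    apply hST
    exact Finset.Subset.antisymm (grow_subset (h𝒮 S hS).1 (h𝒮 T hT).1 hω.2 hω'.2)
      (grow_subset (h𝒮 T hT).1 (h𝒮 S hS).1 hω'.2 hω.2)
  have h1 : ∑ S ∈ 𝒮, (Cyl S).card ≤ 2 ^ U.card := by
    rw [← Finset.card_biUnion hdisj, ← Finset.card_powerset]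
    apply Finset.card_le_card
    intro ω hω
    rw [Finset.mem_biUnion] at hω
    obtain ⟨S, -, hω⟩ := hω
    exact (Finset.mem_filter.1 hω).1
  have h2 : 𝒮.card * 2 ^ U.card ≤ 2 ^ U.card * 2 ^ ((Δ + 1) * ℓ) := by
    calc 𝒮.card * 2 ^ U.card = ∑ S ∈ 𝒮, 2 ^ U.card := by rw [Finset.sum_const, smul_eq_mul]
      _ ≤ ∑ S ∈ 𝒮, (Cyl S).card * 2 ^ ((Δ + 1) * ℓ) := Finset.sum_le_sum hcard
      _ = (∑ S ∈ 𝒮, (Cyl S).card) * 2 ^ ((Δ + 1) * ℓ) := by rw [Finset.sum_mul]
      _ ≤ 2 ^ U.card * 2 ^ ((Δ + 1) * ℓ) := Nat.mul_le_mul_right _ h1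
  rw [mul_comm (2 ^ U.card)] at h2
  exact Nat.le_of_mul_le_mul_right h2 (by positivity)

end Grow

/-! ### Contours -/

/-- the four edges at a vertex -/
def edgesAt (v : ℤ × ℤ) : Finset Edge :=
  {(v, false), (v, true), ((v.1 - 1, v.2), false), ((v.1, v.2 - 1), true)}

/-- edges sharing an endpoint with `e` -/
def nbr (e : Edge) : Finset Edge := edgesAt (src e) ∪ edgesAt (tgt e)

lemma mem_edgesAt {v : ℤ × ℤ} {e : Edge} (h : src e = v ∨ tgt e = v) : e ∈ edgesAt v := by
  obtain ⟨i, j⟩ := v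
  obtain ⟨⟨a, b⟩, t⟩ := e
  cases t
  · simp only [edgesAt, Finset.mem_insert, Finset.mem_singleton, Prod.mk.injEq, and_true,
        Bool.false_eq_true, and_false, or_false, false_or, src, tgt, if_false] at h ⊢
    omega
  · simp only [edgesAt, Finset.mem_insert, Finset.mem_singleton, Prod.mk.injEq, and_true,
        Bool.true_eq_false, and_false, false_or, src, tgt, if_true] at h ⊢
    omega

lemma card_nbr (e : Edge) : (nbr e).card ≤ 8 := by
  unfold nbr
  refine (Finset.card_union_le _ _).trans ?_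
  have h : ∀ v, (edgesAt v).card ≤ 4 := fun v => Finset.card_le_four
  have := h (src e)
  have := h (tgt e)
  omega

lemma grow_bdE {W : Finset (ℤ × ℤ)} (hW : IsDom W) {r : Edge} (hr : r ∈ bdE W) :
    Grow nbr r (bdE W) := by
  classical
  refine ⟨hr, ?_⟩
  intro T hT hrT hne
  by_contra hcon
  push Not at hcon
  obtain ⟨e, he, heT⟩ : ∃ e ∈ bdE W, e ∉ T := by
    by_contra h
    push Not at h
    exact hne (Finset.Subset.antisymm hT h)
  have h1 := bdE_connected hW (bdE_bdV hr).1 (bdE_bdV he).1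
  have h2 : (∃ t ∈ T, src t = src r ∨ tgt t = src r) = (∃ t ∈ T, src t = src e ∨ tgt t = src e) := by
    refine G_reach_inv (fun v => ∃ t ∈ T, src t = v ∨ tgt t = v) ?_ h1
    intro f hf
    rw [Finset.mem_coe] at hf
    simp only [eq_iff_iff]
    constructor
    · rintro ⟨t, ht, h3⟩
      by_cases hfT : f ∈ T
      · exact ⟨f, hfT, Or.inr rfl⟩
      · exfalso
        apply hcon f hf hfT t ht
        unfold nbr
        rw [Finset.mem_union]
        rcases h3 with h3 | h3
        · left; exact mem_edgesAt (Or.inl h3.symm)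
        · right; exact mem_edgesAt (Or.inl h3.symm)
    · rintro ⟨t, ht, h3⟩
      by_cases hfT : f ∈ T
      · exact ⟨f, hfT, Or.inl rfl⟩
      · exfalso
        apply hcon f hf hfT t ht
        unfold nbr
        rw [Finset.mem_union]
        rcases h3 with h3 | h3
        · left; exact mem_edgesAt (Or.inr h3.symm)
        · right; exact mem_edgesAt (Or.inr h3.symm)
  obtain ⟨t, ht, h3⟩ : ∃ t ∈ T, src t = src e ∨ tgt t = src e := h2 ▸ ⟨r, hrT, Or.inl rfl⟩
  apply hcon e he heT t ht
  unfold nbr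
  rw [Finset.mem_union]
  rcases h3 with h3 | h3
  · left; exact mem_edgesAt (Or.inl h3.symm)
  · right; exact mem_edgesAt (Or.inl h3.symm)

lemma bdE_inj {W W' : Finset (ℤ × ℤ)} (hW' : IsDom W')
    (h : bdE W = bdE W') : W ⊆ W' := by
  classical
  obtain ⟨z, hz⟩ := Infinite.exists_notMem_finset (W ∪ W')
  rw [Finset.mem_union, not_or] at hz
  intro d hd
  by_contra hd'
  have h1 := hW'.out z hz.2 d hd'
  rw [← h] at h1
  have h2 : (z ∈ W) = (d ∈ W) := by
    refine H_reach_inv (fun v => v ∈ W) ?_ h1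
    intro f hf
    rw [Finset.mem_coe, mem_bdE, not_not] at hf
    simp only [eq_iff_iff]
    exact hf
  rw [← h2] at hd
  exact hz.1 hd

/-- The boundary is at least twice the number of columns plus rows. -/
lemma card_bdE_ge (W : Finset (ℤ × ℤ)) :
    2 * ((W.image Prod.fst).card + (W.image Prod.snd).card) ≤ (bdE W).card := by
  classical
  have hsplit : (bdE W).card = ((bdE W).filter (fun e => e.2 = false)).card +
      ((bdE W).filter (fun e => ¬ e.2 = false)).card :=
    (Finset.card_filter_add_card_filter_not (fun e : Edge => e.2 = false)).symm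
  have hcols : 2 * (W.image Prod.fst).card ≤ ((bdE W).filter (fun e => e.2 = false)).card := by
    have h1 : ((W.image Prod.fst).biUnion (fun i =>
        ((bdE W).filter (fun e => e.2 = false)).filter (fun e => e.1.1 = i))).card ≤
        ((bdE W).filter (fun e => e.2 = false)).card := by
      apply Finset.card_le_card
      intro e he
      rw [Finset.mem_biUnion] at he
      obtain ⟨i, -, he⟩ := he
      exact (Finset.mem_filter.1 he).1
    rw [Finset.card_biUnion] at h1
    · refine le_trans ?_ h1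
      rw [mul_comm, ← smul_eq_mul]
      apply Finset.card_nsmul_le_sum
      intro i hi
      rw [Finset.mem_image] at hi
      obtain ⟨c, hc, rfl⟩ := hi
      set col := W.filter (fun d => d.1 = c.1) with hcol
      have hne : col.Nonempty := ⟨c, Finset.mem_filter.2 ⟨hc, rfl⟩⟩
      obtain ⟨x, hx, hxmax⟩ := Finset.exists_max_image col (fun d => d.2) hne
      obtain ⟨y, hy, hymin⟩ := Finset.exists_min_image col (fun d => d.2) hne
      rw [hcol, Finset.mem_filter] at hx hy
      have h2 : ((x.1, x.2 + 1), false) ∈ bdE W := by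
        rw [mem_bdE]
        have h3 : (x.1, x.2 + 1) ∉ W := by
          intro h
          have := hxmax (x.1, x.2 + 1) (Finset.mem_filter.2 ⟨h, hx.2⟩)
          simp only at this
          omega
        have h4 : (x.1, x.2) ∈ W := hx.1
        simp only [c1, c2, Bool.false_eq_true, if_false, add_sub_cancel_right]
        tauto
      have h3 : ((y.1, y.2), false) ∈ bdE W := by
        rw [mem_bdE]
        have h3 : (y.1, y.2 - 1) ∉ W := by
          intro h
          have := hymin (y.1, y.2 - 1) (Finset.mem_filter.2 ⟨h, hy.2⟩)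
          simp only at this
          omega
        have h4 : (y.1, y.2) ∈ W := hy.1
        simp only [c1, c2, Bool.false_eq_true, if_false]
        tauto
      have h5 : ({((x.1, x.2 + 1), false), ((y.1, y.2), false)} : Finset Edge) ⊆
          ((bdE W).filter (fun e => e.2 = false)).filter (fun e => e.1.1 = c.1) := by
        intro e he
        rw [Finset.mem_insert, Finset.mem_singleton] at he
        rw [Finset.mem_filter, Finset.mem_filter]
        rcases he with rfl | rfl
        · exact ⟨⟨h2, rfl⟩, hx.2⟩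
        · exact ⟨⟨h3, rfl⟩, hy.2⟩
      refine le_trans ?_ (Finset.card_le_card h5)
      rw [Finset.card_pair]
      intro h6
      rw [Prod.mk.injEq, Prod.mk.injEq] at h6
      have h7 := hymin x (Finset.mem_filter.2 hx)
      omega
    · intro i _ j _ hij
      rw [Function.onFun, Finset.disjoint_left]
      intro e he he'
      rw [Finset.mem_filter] at he he'
      exact hij (he.2.symm.trans he'.2)
  have hrows : 2 * (W.image Prod.snd).card ≤ ((bdE W).filter (fun e => ¬ e.2 = false)).card := by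
    have h1 : ((W.image Prod.snd).biUnion (fun i =>
        ((bdE W).filter (fun e => ¬ e.2 = false)).filter (fun e => e.1.2 = i))).card ≤
        ((bdE W).filter (fun e => ¬ e.2 = false)).card := by
      apply Finset.card_le_card
      intro e he
      rw [Finset.mem_biUnion] at he
      obtain ⟨i, -, he⟩ := he
      exact (Finset.mem_filter.1 he).1
    rw [Finset.card_biUnion] at h1
    · refine le_trans ?_ h1
      rw [mul_comm, ← smul_eq_mul]
      apply Finset.card_nsmul_le_sum
      intro i hi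
      rw [Finset.mem_image] at hi
      obtain ⟨c, hc, rfl⟩ := hi
      set col := W.filter (fun d => d.2 = c.2) with hcol
      have hne : col.Nonempty := ⟨c, Finset.mem_filter.2 ⟨hc, rfl⟩⟩
      obtain ⟨x, hx, hxmax⟩ := Finset.exists_max_image col (fun d => d.1) hne
      obtain ⟨y, hy, hymin⟩ := Finset.exists_min_image col (fun d => d.1) hne
      rw [hcol, Finset.mem_filter] at hx hy
      have h2 : ((x.1 + 1, x.2), true) ∈ bdE W := by
        rw [mem_bdE]
        have h3 : (x.1 + 1, x.2) ∉ W := by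
          intro h
          have := hxmax (x.1 + 1, x.2) (Finset.mem_filter.2 ⟨h, hx.2⟩)
          simp only at this
          omega
        have h4 : (x.1, x.2) ∈ W := hx.1
        simp only [c1, c2, if_true, add_sub_cancel_right]
        tauto
      have h3 : ((y.1, y.2), true) ∈ bdE W := by
        rw [mem_bdE]
        have h3 : (y.1 - 1, y.2) ∉ W := by
          intro h
          have := hymin (y.1 - 1, y.2) (Finset.mem_filter.2 ⟨h, hy.2⟩)
          simp only at this
          omega
        have h4 : (y.1, y.2) ∈ W := hy.1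
        simp only [c1, c2, if_true]
        tauto
      have h5 : ({((x.1 + 1, x.2), true), ((y.1, y.2), true)} : Finset Edge) ⊆
          ((bdE W).filter (fun e => ¬ e.2 = false)).filter (fun e => e.1.2 = c.2) := by
        intro e he
        rw [Finset.mem_insert, Finset.mem_singleton] at he
        rw [Finset.mem_filter, Finset.mem_filter]
        rcases he with rfl | rfl
        · exact ⟨⟨h2, by simp⟩, hx.2⟩
        · exact ⟨⟨h3, by simp⟩, hy.2⟩
      refine le_trans ?_ (Finset.card_le_card h5)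
      rw [Finset.card_pair]
      intro h6
      rw [Prod.mk.injEq, Prod.mk.injEq] at h6
      have h7 := hymin x (Finset.mem_filter.2 hx)
      omega
    · intro i _ j _ hij
      rw [Function.onFun, Finset.disjoint_left]
      intro e he he'
      rw [Finset.mem_filter] at he he'
      exact hij (he.2.symm.trans he'.2)
  omega

/-- a boundary edge close to a given cell on its right. -/
lemma exists_right {W : Finset (ℤ × ℤ)} {f : ℤ × ℤ} (hf : f ∈ W) :
    ∃ k ∈ Finset.range (bdE W).card, ((f.1 + (k : ℤ) + 1, f.2), true) ∈ bdE W := by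
  classical
  have hex : ∃ k : ℕ, (f.1 + (k : ℤ) + 1, f.2) ∉ W := by
    by_contra hcon
    push Not at hcon
    have hinj : Function.Injective (fun k : ℕ => (f.1 + (k : ℤ) + 1, f.2)) := by
      intro a b hab
      simp only [Prod.mk.injEq] at hab
      omega
    have h1 : (Set.range (fun k : ℕ => (f.1 + (k : ℤ) + 1, f.2))) ⊆ ↑W := by
      rintro _ ⟨k, rfl⟩
      exact hcon k
    exact (Set.infinite_range_of_injective hinj) (W.finite_toSet.subset h1)
  set k := Nat.find hex with hk
  have hk1 : (f.1 + (k : ℤ) + 1, f.2) ∉ W := Nat.find_spec hex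
  have hk2 : ∀ m : ℕ, m ≤ k → (f.1 + (m : ℤ), f.2) ∈ W := by
    intro m hm
    rcases Nat.eq_zero_or_pos m with rfl | hm0
    · simpa using hf
    · have h1 : ¬ (f.1 + ((m - 1 : ℕ) : ℤ) + 1, f.2) ∉ W := Nat.find_min hex (by omega)
      rw [not_not] at h1
      have h2 : f.1 + ((m - 1 : ℕ) : ℤ) + 1 = f.1 + (m : ℤ) := by
        push_cast [Nat.cast_sub hm0]
        omega
      rwa [h2] at h1
  refine ⟨k, ?_, ?_⟩
  · rw [Finset.mem_range]
    have h1 : (Finset.range (k + 1)).image (fun m : ℕ => f.1 + (m : ℤ)) ⊆ W.image Prod.fst := by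
      intro i hi
      rw [Finset.mem_image] at hi ⊢
      obtain ⟨m, hm, rfl⟩ := hi
      rw [Finset.mem_range] at hm
      exact ⟨_, hk2 m (by omega), rfl⟩
    have h2 := Finset.card_le_card h1
    rw [Finset.card_image_of_injective _ (by intro a b hab; simp only at hab; omega),
      Finset.card_range] at h2
    have h3 := card_bdE_ge W
    omega
  · rw [mem_bdE]
    have h1 := hk2 k le_rfl
    simp only [c1, c2, if_true, add_sub_cancel_right]
    tauto

/-- Number of contours of given length around a given cell. -/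
lemma card_contours (f : ℤ × ℤ) (ℓ : ℕ) (𝒲 : Finset (Finset (ℤ × ℤ)))
    (h𝒲 : ∀ W ∈ 𝒲, IsDom W ∧ f ∈ W ∧ (bdE W).card = ℓ) : 𝒲.card ≤ 2 ^ (10 * ℓ) := by
  classical
  have hsub : 𝒲 ⊆ (Finset.range ℓ).biUnion (fun k =>
      𝒲.filter (fun W => ((f.1 + (k : ℤ) + 1, f.2), true) ∈ bdE W)) := by
    intro W hW
    obtain ⟨h1, h2, h3⟩ := h𝒲 W hW
    obtain ⟨k, hk, hk2⟩ := exists_right h2
    rw [Finset.mem_biUnion]
    rw [h3] at hk
    exact ⟨k, hk, Finset.mem_filter.2 ⟨hW, hk2⟩⟩
  have hfib : ∀ k ∈ Finset.range ℓ,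
      (𝒲.filter (fun W => ((f.1 + (k : ℤ) + 1, f.2), true) ∈ bdE W)).card ≤ 2 ^ (9 * ℓ) := by
    intro k _
    have hinj : Set.InjOn bdE
        (↑(𝒲.filter (fun W => ((f.1 + (k : ℤ) + 1, f.2), true) ∈ bdE W)) :
          Set (Finset (ℤ × ℤ))) := by
      intro W hW W' hW' hh
      rw [Finset.mem_coe, Finset.mem_filter] at hW hW'
      exact Finset.Subset.antisymm (bdE_inj (h𝒲 W' hW'.1).1 hh)
        (bdE_inj (h𝒲 W hW.1).1 hh.symm)
    rw [← Finset.card_image_of_injOn hinj]
    apply card_grow_le nbr ((f.1 + (k : ℤ) + 1, f.2), true) 8 ℓ card_nbr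
    intro S hS
    rw [Finset.mem_image] at hS
    obtain ⟨W, hW, rfl⟩ := hS
    rw [Finset.mem_filter] at hW
    exact ⟨grow_bdE (h𝒲 W hW.1).1 hW.2, (h𝒲 W hW.1).2.2⟩
  calc 𝒲.card ≤ _ := Finset.card_le_card hsub
    _ ≤ ∑ k ∈ Finset.range ℓ,
      (𝒲.filter (fun W => ((f.1 + (k : ℤ) + 1, f.2), true) ∈ bdE W)).card :=
        Finset.card_biUnion_le
    _ ≤ ∑ k ∈ Finset.range ℓ, 2 ^ (9 * ℓ) := Finset.sum_le_sum hfib
    _ = ℓ * 2 ^ (9 * ℓ) := by rw [Finset.sum_const, Finset.card_range, smul_eq_mul]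
    _ ≤ 2 ^ ℓ * 2 ^ (9 * ℓ) := Nat.mul_le_mul_right _ (Nat.lt_two_pow_self).le
    _ = 2 ^ (10 * ℓ) := by rw [← pow_add]; congr 1; ring

/-- Sum over contours. -/
theorem sum_contours (f : ℤ × ℤ) (L : ℕ) (𝒲 : Finset (Finset (ℤ × ℤ)))
    (h𝒲 : ∀ W ∈ 𝒲, IsDom W ∧ f ∈ W ∧ L ≤ (bdE W).card) (x : ℝ) (hx : 0 ≤ x)
    (hx2 : 2 ^ 10 * x ≤ 1 / 2) :
    ∑ W ∈ 𝒲, x ^ (bdE W).card ≤ 2 * (2 ^ 10 * x) ^ L := by
  classical
  set y : ℝ := 2 ^ 10 * x with hy
  have hy0 : 0 ≤ y := by positivity
  set M := 𝒲.sup (fun W => (bdE W).card) with hM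
  have hmaps : ∀ W ∈ 𝒲, (bdE W).card ∈ Finset.Icc L M := by
    intro W hW
    rw [Finset.mem_Icc]
    exact ⟨(h𝒲 W hW).2.2, Finset.le_sup (f := fun W => (bdE W).card) hW⟩
  rw [← Finset.sum_fiberwise_of_maps_to hmaps]
  have h1 : ∀ ℓ ∈ Finset.Icc L M, ∑ W ∈ 𝒲.filter (fun W => (bdE W).card = ℓ),
      x ^ (bdE W).card ≤ y ^ ℓ := by
    intro ℓ _
    have h2 : ∑ W ∈ 𝒲.filter (fun W => (bdE W).card = ℓ), x ^ (bdE W).card =
        ((𝒲.filter (fun W => (bdE W).card = ℓ)).card : ℝ) * x ^ ℓ := by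
      rw [← nsmul_eq_mul, ← Finset.sum_const]
      apply Finset.sum_congr rfl
      intro W hW
      rw [(Finset.mem_filter.1 hW).2]
    rw [h2]
    have h3 : (𝒲.filter (fun W => (bdE W).card = ℓ)).card ≤ 2 ^ (10 * ℓ) := by
      apply card_contours f ℓ
      intro W hW
      rw [Finset.mem_filter] at hW
      exact ⟨(h𝒲 W hW.1).1, (h𝒲 W hW.1).2.1, hW.2⟩
    have h4 : ((𝒲.filter (fun W => (bdE W).card = ℓ)).card : ℝ) ≤ 2 ^ (10 * ℓ) := by
      exact_mod_cast h3
    calc _ ≤ (2 : ℝ) ^ (10 * ℓ) * x ^ ℓ := mul_le_mul_of_nonneg_right h4 (by positivity)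
      _ = y ^ ℓ := by rw [hy, mul_pow, pow_mul]
  refine (Finset.sum_le_sum h1).trans ?_
  have h5 : ∑ ℓ ∈ Finset.Icc L M, y ^ ℓ ≤ ∑ j ∈ Finset.range (M + 1 - L), y ^ (L + j) := by
    rw [← Finset.sum_image (s := Finset.range (M + 1 - L)) (g := fun j => L + j)
      (f := fun ℓ => y ^ ℓ) (by intro a _ b _ hab; simp only at hab; omega)]
    apply Finset.sum_le_sum_of_subset_of_nonneg
    · intro ℓ hℓ
      rw [Finset.mem_Icc] at hℓ
      rw [Finset.mem_image]
      exact ⟨ℓ - L, Finset.mem_range.2 (by omega), by omega⟩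
    · intro _ _ _
      positivity
  refine h5.trans ?_
  have h6 : ∀ n : ℕ, ∑ j ∈ Finset.range n, y ^ (L + j) ≤ (2 - (1 / 2) ^ n * 2) * y ^ L := by
    intro n
    have h7 : ∀ j ∈ Finset.range n, y ^ (L + j) ≤ y ^ L * (1 / 2) ^ j := by
      intro j _
      rw [pow_add]
      apply mul_le_mul_of_nonneg_left _ (by positivity)
      exact pow_le_pow_left₀ hy0 hx2 j
    refine (Finset.sum_le_sum h7).trans ?_
    rw [← Finset.mul_sum, geom_sum_eq (by norm_num)]
    apply le_of_eq
    ring
  refine (h6 _).trans ?_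
  apply mul_le_mul_of_nonneg_right _ (by positivity)
  have : (0 : ℝ) ≤ (1 / 2) ^ (M + 1 - L) := by positivity
  linarith

end Pool.Agent.H962
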