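import Pool.Agent.H962.Key

/-!
Random-cluster weights on a domain with modified boundary-cluster weight, hull of a dual
cluster and the contour bound.
-/

namespace Pool.Agent.H962

open Finset

/-- number of boundary clusters -/
noncomputable def kb (D : Finset (ℤ × ℤ)) (η : Finset Edge) : ℕ := comps (G (↑η)) (bdV D)

/-- number of interior clusters -/
noncomputable def ki (D : Finset (ℤ × ℤ)) (η : Finset Edge) : ℕ :=
  comps (G (↑η)) (verts D) - comps (G (↑η)) (bdV D)

/-- weight -/
noncomputable def wt (q b s : ℝ) (D : Finset (ℤ × ℤ)) (η : Finset Edge) : ℝ :=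
  q ^ (ki D η) * b ^ (kb D η) * s ^ η.card

/-- partition function -/
noncomputable def ZD (q b s : ℝ) (D : Finset (ℤ × ℤ)) : ℝ :=
  ∑ η ∈ (adjE D).powerset, wt q b s D η

/-- the event that `∂W` is the outer contour. -/
def EvW (D W : Finset (ℤ × ℤ)) (η : Finset Edge) : Prop :=
  (∀ e ∈ bdE W, e ∈ Ein D → e ∈ η) ∧ Conn W (η ∩ Ein W)

/-- weight of an outside configuration. -/
noncomputable def Rw (q b s : ℝ) (D W : Finset (ℤ × ℤ)) (α : Finset Edge) : ℝ :=
  q ^ (comps (G (↑α)) (verts D \ Vint W) - comps (G (↑α)) (bdV D)) *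
    b ^ (comps (G (↑α)) (bdV D)) * s ^ α.card

lemma Rw_nonneg {q b s : ℝ} (hq : 0 ≤ q) (hb : 0 ≤ b) (hs : 0 ≤ s) (D W : Finset (ℤ × ℤ))
    (α : Finset Edge) : 0 ≤ Rw q b s D W α := by
  unfold Rw
  positivity

lemma wt_nonneg {q b s : ℝ} (hq : 0 ≤ q) (hb : 0 ≤ b) (hs : 0 ≤ s) (D : Finset (ℤ × ℤ))
    (α : Finset Edge) : 0 ≤ wt q b s D α := by
  unfold wt
  positivity

section

variable {D W : Finset (ℤ × ℤ)}

lemma verts_mono (h : W ⊆ D) : verts W ⊆ verts D := Finset.biUnion_subset_biUnion_of_subset_left _ h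

lemma adjE_mono (h : W ⊆ D) : adjE W ⊆ adjE D := Finset.biUnion_subset_biUnion_of_subset_left _ h

lemma Ein_mono (h : W ⊆ D) : Ein W ⊆ Ein D := by
  intro e he
  rw [mem_Ein] at he ⊢
  exact ⟨h he.1, h he.2⟩

lemma Vint_mono (h : W ⊆ D) : Vint W ⊆ Vint D := by
  rintro ⟨i, j⟩ he
  rw [mem_Vint] at he ⊢
  exact ⟨h he.1, h he.2.1, h he.2.2.1, h he.2.2.2⟩

lemma Vint_subset_verts (h : W ⊆ D) : Vint W ⊆ verts D := by
  refine Finset.Subset.trans ?_ (verts_mono h)
  rw [verts_eq]
  exact Finset.subset_union_right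

lemma bdV_subset_out (h : W ⊆ D) : bdV W ⊆ verts D \ Vint W := by
  intro g hg
  rw [Finset.mem_sdiff]
  constructor
  · apply verts_mono h
    rw [verts_eq]
    exact Finset.mem_union_left _ hg
  · exact (Finset.disjoint_left.1 (disj_bdV_Vint W)) hg

lemma bdVD_subset_out (h : W ⊆ D) : bdV D ⊆ verts D \ Vint W := by
  intro g hg
  rw [Finset.mem_sdiff]
  constructor
  · rw [verts_eq]
    exact Finset.mem_union_left _ hg
  · intro h2
    exact (Finset.disjoint_left.1 (disj_bdV_Vint D)) hg (Vint_mono h h2)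

lemma wt_glue {q b s : ℝ} (h : W ⊆ D) {α ξ : Finset Edge} (hd : Disjoint α ξ)
    (hg : Glue (↑α) (↑ξ) (Vint W) (bdV W)) :
    wt q b s D (α ∪ ξ) = Rw q b s D W α * (q ^ (jW W ξ) * s ^ ξ.card) := by
  classical
  have h1 : comps (G (↑(α ∪ ξ))) (verts D) =
      comps (G (↑α)) (verts D \ Vint W) + jW W ξ := by
    rw [Finset.coe_union]
    have h2 := glue_comps hg (bdV_subset_out h) (fun v hv => (Finset.mem_sdiff.1 hv).2)
    rw [Finset.sdiff_union_of_subset (Vint_subset_verts h)] at h2
    exact h2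
  have h2 : comps (G (↑(α ∪ ξ))) (bdV D) = comps (G (↑α)) (bdV D) := by
    rw [Finset.coe_union]
    apply comps_congr
    intro x hx y hy
    exact glue_reach hg (Finset.mem_sdiff.1 (bdVD_subset_out h hx)).2
      (Finset.mem_sdiff.1 (bdVD_subset_out h hy)).2
  have h3 : comps (G (↑α)) (bdV D) ≤ comps (G (↑α)) (verts D \ Vint W) :=
    comps_mono _ (bdVD_subset_out h)
  unfold wt Rw ki kb
  rw [h1, h2, Finset.card_union_of_disjoint hd]
  have h4 : comps (G (↑α)) (verts D \ Vint W) + jW W ξ - comps (G (↑α)) (bdV D) =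
      (comps (G (↑α)) (verts D \ Vint W) - comps (G (↑α)) (bdV D)) + jW W ξ := by omega
  rw [h4, pow_add, pow_add]
  ring

/-- closing one boundary edge -/
lemma Rw_insert {q b s : ℝ} (hq : 0 ≤ q) (hb : 1 ≤ b) (hs : 0 ≤ s) (h : W ⊆ D)
    {α : Finset Edge} {e : Edge} (he : e ∉ α) (heD : e ∈ bdE D) :
    Rw q b s D W α * s ≤ b * Rw q b s D W (insert e α) := by
  classical
  have hv := bdE_bdV heD
  have hv' := bdVD_subset_out h hv.1
  have hv'' := bdVD_subset_out h hv.2
  have hb0 : 0 ≤ b := by linarith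
  unfold Rw
  rw [Finset.card_insert_of_notMem he, Finset.coe_insert]
  by_cases hr : (G (↑α : Set Edge)).Reachable (src e) (tgt e)
  · rw [← comps_add_of_reach (S := verts D \ Vint W) (G_insert_le _ e) (G_insert_adj _ e) hr,
      ← comps_add_of_reach (S := bdV D) (G_insert_le _ e) (G_insert_adj _ e) hr]
    rw [pow_succ]
    have h1 : 0 ≤ q ^ (comps (G (↑α)) (verts D \ Vint W) - comps (G (↑α)) (bdV D)) *
      b ^ (comps (G (↑α)) (bdV D)) * (s ^ α.card * s) := by positivity
    nlinarith
  · have h1 := comps_add_of_not_reach (S := verts D \ Vint W) hv' hv'' (G_insert_le _ e)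
      (G_reach_edge (Set.mem_insert _ _)) (G_insert_adj _ e) hr
    have h2 := comps_add_of_not_reach (S := bdV D) hv.1 hv.2 (G_insert_le _ e)
      (G_reach_edge (Set.mem_insert _ _)) (G_insert_adj _ e) hr
    rw [h1, h2, Nat.add_sub_add_right, pow_succ, pow_succ]
    apply le_of_eq
    ring

lemma Rw_remove {q b s : ℝ} (hq : 0 ≤ q) (hb : 1 ≤ b) (hs : 0 ≤ s) (h : W ⊆ D)
    {a Γ : Finset Edge} (ha : Disjoint a Γ) (hΓ : Γ ⊆ bdE D) (U : Finset Edge) (hU : U ⊆ Γ) :
    Rw q b s D W (a ∪ (Γ \ U)) * s ^ U.card ≤ b ^ U.card * Rw q b s D W (a ∪ Γ) := by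
  classical
  induction U using Finset.induction_on with
  | empty => simp
  | insert e U he ih =>
    have heΓ : e ∈ Γ := hU (Finset.mem_insert_self _ _)
    have hU' : U ⊆ Γ := fun f hf => hU (Finset.mem_insert_of_mem hf)
    have ih' := ih hU'
    have h1 : a ∪ (Γ \ U) = insert e (a ∪ (Γ \ insert e U)) := by
      ext f
      simp only [Finset.mem_union, Finset.mem_sdiff, Finset.mem_insert]
      constructor
      · rintro (h2 | ⟨h2, h3⟩)
        · exact Or.inr (Or.inl h2)
        · by_cases h4 : f = e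
          · exact Or.inl h4
          · right; right
            exact ⟨h2, by tauto⟩
      · rintro (rfl | h2 | ⟨h2, h3⟩)
        · exact Or.inr ⟨heΓ, he⟩
        · exact Or.inl h2
        · exact Or.inr ⟨h2, by tauto⟩
    have h2 : e ∉ a ∪ (Γ \ insert e U) := by
      rw [Finset.mem_union, Finset.mem_sdiff, not_or]
      refine ⟨fun h3 => (Finset.disjoint_left.1 ha) h3 heΓ, ?_⟩
      rintro ⟨-, h3⟩
      exact h3 (Finset.mem_insert_self _ _)
    have h3 := Rw_insert (q := q) (b := b) (s := s) hq hb hs h h2 (hΓ heΓ)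
    rw [← h1] at h3
    rw [Finset.card_insert_of_notMem he, pow_succ, pow_succ]
    have h4 : 0 ≤ s ^ U.card := by positivity
    have hb0 : 0 ≤ b := by linarith
    calc Rw q b s D W (a ∪ (Γ \ insert e U)) * (s ^ U.card * s)
        = (Rw q b s D W (a ∪ (Γ \ insert e U)) * s) * s ^ U.card := by ring
      _ ≤ (b * Rw q b s D W (a ∪ (Γ \ U))) * s ^ U.card := mul_le_mul_of_nonneg_right h3 h4
      _ = b * (Rw q b s D W (a ∪ (Γ \ U)) * s ^ U.card) := by ring
      _ ≤ b * (b ^ U.card * Rw q b s D W (a ∪ Γ)) := mul_le_mul_of_nonneg_left ih' hb0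
      _ = _ := by ring

open Classical in
/-- The contour bound. -/
theorem contour_bound {q b s t : ℝ} (hqs : s * s = q) (hst : t * t = s) (ht : 1 ≤ t)
    (hb : 1 ≤ b) (hD : IsDom D) (hW : IsDom W) (h : W ⊆ D) :
    t ^ (bdE W).card * ∑ η ∈ (adjE D).powerset.filter (fun η => EvW D W η), wt q b s D η ≤
      (1 + b / s) ^ (bdE W ∩ bdE D).card * 16 ^ (bdE W).card * q * ZD q b s D := by
  have hs : 1 ≤ s := by rw [← hst]; nlinarith
  have ht0 : 0 < t := by linarith
  have hs0 : 0 < s := by linarith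
  have hq0 : 0 < q := by rw [← hqs]; positivity
  have hb0 : 0 ≤ b := by linarith
  set Γi := bdE W ∩ Ein D with hΓi
  set Γb := bdE W ∩ bdE D with hΓb
  set Out := adjE D \ adjE W with hOut
  have hγ : bdE W = Γi ∪ Γb := by
    ext e
    rw [hΓi, hΓb, Finset.mem_union, Finset.mem_inter, Finset.mem_inter]
    have h1 : e ∈ bdE W → e ∈ Ein D ∨ e ∈ bdE D := by
      intro he
      have h2 : e ∈ adjE D := adjE_mono h (by rw [adjE_eq]; exact Finset.mem_union_right _ he)
      rw [adjE_eq, Finset.mem_union] at h2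
      exact h2
    tauto
  have hdec : adjE D = ((Out ∪ Γi) ∪ Γb) ∪ Ein W := by
    have h1 : adjE D = Out ∪ adjE W := (Finset.sdiff_union_of_subset (adjE_mono h)).symm
    rw [h1, adjE_eq W, hγ]
    ext e
    simp only [Finset.mem_union]
    tauto
  have hbW : ∀ e, e ∈ bdE W → e ∉ Ein W := fun e he he' =>
    (Finset.disjoint_left.1 (disj_Ein_bdE W)) he' he
  have hd1 : Disjoint ((Out ∪ Γi) ∪ Γb) (Ein W) := by
    rw [Finset.disjoint_left]
    intro e he
    rw [Finset.mem_union, Finset.mem_union] at he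
    rcases he with (he | he) | he
    · rw [hOut, Finset.mem_sdiff, adjE_eq W, Finset.mem_union] at he
      tauto
    · exact hbW e (Finset.mem_inter.1 he).1
    · exact hbW e (Finset.mem_inter.1 he).1
  have hd2 : Disjoint (Out ∪ Γi) Γb := by
    rw [Finset.disjoint_left]
    intro e he he'
    have h3 := Finset.mem_inter.1 he'
    rw [Finset.mem_union] at he
    rcases he with he | he
    · rw [hOut, Finset.mem_sdiff, adjE_eq W, Finset.mem_union] at he
      tauto
    · exact (Finset.disjoint_left.1 (disj_Ein_bdE D)) (Finset.mem_inter.1 he).2 h3.2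
  -- glue facts
  have hα : ∀ a ⊆ Out ∪ Γi, ∀ τ ⊆ Γb, ∀ e ∈ a ∪ τ, e ∉ Ein W := by
    intro a ha τ hτ e he
    apply (Finset.disjoint_left.1 hd1)
    rw [Finset.mem_union] at he
    rcases he with he | he
    · exact Finset.mem_union_left _ (ha he)
    · exact Finset.mem_union_right _ (hτ he)
  have hdisj : ∀ a ⊆ Out ∪ Γi, ∀ τ ⊆ Γb, ∀ ξ ⊆ Ein W, Disjoint (a ∪ τ) ξ := by
    intro a ha τ hτ ξ hξ
    rw [Finset.disjoint_left]
    intro e he he'
    exact hα a ha τ hτ e he (hξ he')
  have hconn : ∀ a ⊆ Out ∪ Γi, ∀ τ ⊆ Γb, ∀ ξ ⊆ Ein W, Conn W ξ →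
      wt q b s D ((a ∪ τ) ∪ ξ) = Rw q b s D W (a ∪ τ) * (q ^ (jW W ξ) * s ^ ξ.card) := by
    intro a ha τ hτ ξ hξ hc
    apply wt_glue h (hdisj a ha τ hτ ξ hξ)
    apply glue_dom hξ
    · intro e he
      exact hα a ha τ hτ e (Finset.mem_coe.1 he)
    · intro g hg g' hg' hr
      rw [sep_of_conn hW hξ hc hg hg' hr]
  have hfull : ∀ a ⊆ Out ∪ Γi, Γi ⊆ a → ∀ ξ ⊆ Ein W,
      wt q b s D ((a ∪ Γb) ∪ ξ) = Rw q b s D W (a ∪ Γb) * (q ^ (jW W ξ) * s ^ ξ.card) := by
    intro a ha hΓa ξ hξ
    apply wt_glue h (hdisj a ha Γb (Finset.Subset.refl _) ξ hξ)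
    apply glue_dom hξ
    · intro e he
      exact hα a ha Γb (Finset.Subset.refl _) e (Finset.mem_coe.1 he)
    · intro g hg g' hg' _
      refine G_reach_mono ?_ (bdE_connected hW hg hg')
      rw [Finset.coe_subset, hγ]
      exact Finset.union_subset_union hΓa (Finset.Subset.refl _)
  -- lower bound for Z
  have hZ : (∑ a ∈ (Out ∪ Γi).powerset.filter (fun a => Γi ⊆ a), Rw q b s D W (a ∪ Γb)) *
      Aw q s W ≤ ZD q b s D := by
    unfold ZD
    rw [hdec, sum_powerset_union _ _ hd1, sum_powerset_union _ _ hd2, Finset.sum_mul]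
    refine le_trans ?_ (Finset.sum_le_sum_of_subset_of_nonneg
      (Finset.filter_subset (fun a => Γi ⊆ a) _)
      (fun a _ _ => Finset.sum_nonneg fun τ _ => Finset.sum_nonneg fun ξ _ =>
        wt_nonneg hq0.le hb0 hs0.le _ _))
    apply Finset.sum_le_sum
    intro a ha
    rw [Finset.mem_filter, Finset.mem_powerset] at ha
    refine le_trans ?_ (Finset.single_le_sum (f := fun τ => ∑ ξ ∈ (Ein W).powerset,
      wt q b s D ((a ∪ τ) ∪ ξ)) (fun τ _ => Finset.sum_nonneg fun ξ _ =>
        wt_nonneg hq0.le hb0 hs0.le _ _) (Finset.mem_powerset.2 (Finset.Subset.refl Γb)))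
    unfold Aw
    rw [Finset.mul_sum]
    apply Finset.sum_le_sum
    intro ξ hξ
    rw [Finset.mem_powerset] at hξ
    exact (hfull a ha.1 ha.2 ξ hξ).ge
  -- upper bound for the event
  have hE : ∑ η ∈ (adjE D).powerset.filter (fun η => EvW D W η), wt q b s D η ≤
      (∑ a ∈ (Out ∪ Γi).powerset.filter (fun a => Γi ⊆ a), Rw q b s D W (a ∪ Γb)) *
        (1 + b / s) ^ Γb.card * Aconn q s W := by
    rw [Finset.sum_filter, hdec, sum_powerset_union _ _ hd1, sum_powerset_union _ _ hd2,
      Finset.sum_mul, Finset.sum_mul, Finset.sum_filter]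
    apply Finset.sum_le_sum
    intro a ha
    rw [Finset.mem_powerset] at ha
    by_cases hΓa : Γi ⊆ a
    · rw [if_pos hΓa]
      have h1 : ∀ τ ∈ Γb.powerset, (∑ ξ ∈ (Ein W).powerset,
          if EvW D W (a ∪ τ ∪ ξ) then wt q b s D (a ∪ τ ∪ ξ) else 0) ≤
          (1 ^ τ.card * (b / s) ^ (Γb.card - τ.card)) * (Rw q b s D W (a ∪ Γb) * Aconn q s W) := by
        intro τ hτ
        rw [Finset.mem_powerset] at hτ
        have h2 : (∑ ξ ∈ (Ein W).powerset,
          if EvW D W (a ∪ τ ∪ ξ) then wt q b s D (a ∪ τ ∪ ξ) else 0) ≤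
            Rw q b s D W (a ∪ τ) * Aconn q s W := by
          unfold Aconn
          rw [Finset.mul_sum, Finset.sum_filter]
          apply Finset.sum_le_sum
          intro ξ hξ
          rw [Finset.mem_powerset] at hξ
          have h3 : (a ∪ τ ∪ ξ) ∩ Ein W = ξ := by
            ext e
            rw [Finset.mem_inter, Finset.mem_union]
            constructor
            · rintro ⟨h4 | h4, h5⟩
              · exact absurd h5 (hα a ha τ hτ e h4)
              · exact h4
            · intro h4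
              exact ⟨Or.inr h4, hξ h4⟩
          by_cases hev : EvW D W (a ∪ τ ∪ ξ)
          · have hc : Conn W ξ := by
              have := hev.2
              rwa [h3] at this
            rw [if_pos hev, if_pos hc, hconn a ha τ hτ ξ hξ hc]
          · rw [if_neg hev]
            split_ifs
            · have := Rw_nonneg hq0.le hb0 hs0.le D W (a ∪ τ)
              positivity
            · exact le_refl _
        have h3 : Rw q b s D W (a ∪ τ) ≤ (b / s) ^ (Γb.card - τ.card) * Rw q b s D W (a ∪ Γb) := by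
          have h4 := Rw_remove (q := q) (b := b) (s := s) hq0.le hb hs0.le h
            (hd2.mono_left ha) (Finset.inter_subset_right) (Γb \ τ)
            Finset.sdiff_subset
          rw [Finset.sdiff_sdiff_eq_self hτ, Finset.card_sdiff_of_subset hτ] at h4
          rw [div_pow, div_mul_eq_mul_div, le_div_iff₀ (by positivity)]
          exact h4
        have hA : 0 ≤ Aconn q s W := Finset.sum_nonneg fun ξ _ => by positivity
        calc _ ≤ Rw q b s D W (a ∪ τ) * Aconn q s W := h2
          _ ≤ ((b / s) ^ (Γb.card - τ.card) * Rw q b s D W (a ∪ Γb)) * Aconn q s W :=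
            mul_le_mul_of_nonneg_right h3 hA
          _ = _ := by ring
      refine (Finset.sum_le_sum h1).trans ?_
      rw [← Finset.sum_mul, Finset.sum_pow_mul_eq_add_pow]
      apply le_of_eq
      ring
    · rw [if_neg hΓa]
      apply le_of_eq
      apply Finset.sum_eq_zero
      intro τ hτ
      rw [Finset.mem_powerset] at hτ
      apply Finset.sum_eq_zero
      intro ξ hξ
      rw [Finset.mem_powerset] at hξ
      rw [if_neg]
      intro hev
      apply hΓa
      intro e he
      have h3 := Finset.mem_inter.1 he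
      have h2 := hev.1 e h3.1 h3.2
      rw [Finset.mem_union, Finset.mem_union] at h2
      rcases h2 with (h2 | h2) | h2
      · exact h2
      · exact absurd (hτ h2) ((Finset.disjoint_left.1 hd2) (Finset.mem_union_right _ he))
      · exact absurd (hξ h2) (hbW e h3.1)
  have hkey := key_estimate hqs hst ht hW
  set RR := ∑ a ∈ (Out ∪ Γi).powerset.filter (fun a => Γi ⊆ a), Rw q b s D W (a ∪ Γb) with hRR
  have hRR0 : 0 ≤ RR := Finset.sum_nonneg fun a _ => Rw_nonneg hq0.le hb0 hs0.le _ _ _
  have hc0 : 0 ≤ (1 + b / s) ^ Γb.card := by positivity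
  calc t ^ (bdE W).card * ∑ η ∈ (adjE D).powerset.filter (fun η => EvW D W η), wt q b s D η
      ≤ t ^ (bdE W).card * (RR * (1 + b / s) ^ Γb.card * Aconn q s W) :=
        mul_le_mul_of_nonneg_left hE (by positivity)
    _ = (RR * (1 + b / s) ^ Γb.card) * (t ^ (bdE W).card * Aconn q s W) := by ring
    _ ≤ (RR * (1 + b / s) ^ Γb.card) * (16 ^ (bdE W).card * q * Aw q s W) :=
        mul_le_mul_of_nonneg_left hkey (by positivity)
    _ = ((1 + b / s) ^ Γb.card * 16 ^ (bdE W).card * q) * (RR * Aw q s W) := by ring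
    _ ≤ ((1 + b / s) ^ Γb.card * 16 ^ (bdE W).card * q) * ZD q b s D :=
        mul_le_mul_of_nonneg_left hZ (by positivity)

end

/-! ### The hull of a dual cluster -/

lemma H_empty_reach (x y : ℤ × ℤ) : (H ∅).Reachable x y := by
  have hstep1 : ∀ (a b : ℤ), (H ∅).Reachable (a, b) (a + 1, b) := by
    intro a b
    have := H_reach_edge (η := ∅) (e := ((a + 1, b), true)) (by simp)
    simpa [c1, c2] using this.symm
  have hstep2 : ∀ (a b : ℤ), (H ∅).Reachable (a, b) (a, b + 1) := by
    intro a b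
    have := H_reach_edge (η := ∅) (e := ((a, b + 1), false)) (by simp)
    simpa [c1, c2] using this.symm
  have h1 : ∀ (a b : ℤ) (n : ℕ), (H ∅).Reachable (a, b) (a + n, b) := by
    intro a b n
    induction n with
    | zero => simp
    | succ n ih =>
      have := hstep1 (a + n) b
      push_cast
      rw [← add_assoc]
      exact ih.trans this
  have h2 : ∀ (a b : ℤ) (n : ℕ), (H ∅).Reachable (a, b) (a, b + n) := by
    intro a b n
    induction n with
    | zero => simp
    | succ n ih =>
      have := hstep2 a (b + n)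
      push_cast
      rw [← add_assoc]
      exact ih.trans this
  have h1' : ∀ (a a' b : ℤ), (H ∅).Reachable (a, b) (a', b) := by
    intro a a' b
    rcases le_total a a' with h | h
    · obtain ⟨n, hn⟩ := Int.eq_ofNat_of_zero_le (sub_nonneg.2 h)
      have := h1 a b n
      rw [← hn] at this
      simpa using this
    · obtain ⟨n, hn⟩ := Int.eq_ofNat_of_zero_le (sub_nonneg.2 h)
      have := h1 a' b n
      rw [← hn] at this
      simpa using this.symm
  have h2' : ∀ (a b b' : ℤ), (H ∅).Reachable (a, b) (a, b') := by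
    intro a b b'
    rcases le_total b b' with h | h
    · obtain ⟨n, hn⟩ := Int.eq_ofNat_of_zero_le (sub_nonneg.2 h)
      have := h2 a b n
      rw [← hn] at this
      simpa using this
    · obtain ⟨n, hn⟩ := Int.eq_ofNat_of_zero_le (sub_nonneg.2 h)
      have := h2 a b' n
      rw [← hn] at this
      simpa using this.symm
  obtain ⟨a, b⟩ := x
  obtain ⟨a', b'⟩ := y
  exact (h1' a a' b).trans (h2' a' b b')

lemma walk_ind {V : Type*} {K : SimpleGraph V} {f0 : V} (P : V → Prop) (h0 : P f0)
    (hs : ∀ u v, K.Adj u v → P v → P u) {w : V} (hr : K.Reachable w f0) : P w := by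
  obtain ⟨p⟩ := hr
  induction p with
  | nil => exact h0
  | cons hadj _ ih => exact hs _ _ hadj (ih h0)

/-- The outer contour of a dual cluster. -/
theorem hull {D : Finset (ℤ × ℤ)} (hD : IsDom D) {η : Finset Edge} {e0 : Edge} (he0 : e0 ∈ Ein D)
    (he0η : e0 ∉ η) : ∃ W ⊆ D, IsDom W ∧ c1 e0 ∈ W ∧ c2 e0 ∈ W ∧ EvW D W η := by
  classical
  have hcells := mem_Ein.1 he0
  set f0 := c1 e0 with hf0
  set K := H (↑η ∪ ↑(bdE D) : Set Edge) with hK
  set C := D.filter (fun c => K.Reachable f0 c) with hC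
  have hf0C : f0 ∈ C := Finset.mem_filter.2 ⟨hcells.1, SimpleGraph.Reachable.refl _⟩
  -- boundary edges of C
  have hCb : ∀ e, e ∈ bdE C → e ∈ η ∨ e ∈ bdE D := by
    intro e he
    rw [mem_bdE] at he
    by_contra hcon
    rw [not_or] at hcon
    apply he
    have h1 : e ∉ (↑η ∪ ↑(bdE D) : Set Edge) := by
      rintro (h | h)
      · exact hcon.1 (Finset.mem_coe.1 h)
      · exact hcon.2 (Finset.mem_coe.1 h)
    have h2 := H_reach_edge h1
    have h3 : (c1 e ∈ D ↔ c2 e ∈ D) := by
      by_contra h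
      exact hcon.2 (mem_bdE.2 h)
    rw [hC, Finset.mem_filter, Finset.mem_filter, h3]
    constructor
    · rintro ⟨h4, h5⟩
      exact ⟨h4, h5.trans h2⟩
    · rintro ⟨h4, h5⟩
      exact ⟨h4, h5.trans h2.symm⟩
  obtain ⟨z, hz⟩ := Infinite.exists_notMem_finset D
  have hCD : C ⊆ D := Finset.filter_subset _ _
  set KC := H (↑(bdE C) : Set Edge) with hKC
  set W := D.filter (fun c => ¬ KC.Reachable z c) with hW
  have hWD : W ⊆ D := Finset.filter_subset _ _
  -- the complement of D is in U
  have hDU : ∀ u ∉ D, KC.Reachable z u := by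
    intro u hu
    have h1 : (z ∉ D ∧ KC.Reachable z z) = (u ∉ D ∧ KC.Reachable z u) := by
      refine H_reach_inv (fun v => v ∉ D ∧ KC.Reachable z v) ?_ (hD.out z hz u hu)
      intro f hf
      have h3 : (c1 f ∈ D ↔ c2 f ∈ D) := by
        by_contra h
        exact hf (Finset.mem_coe.2 (mem_bdE.2 h))
      simp only [eq_iff_iff]
      by_cases h4 : c1 f ∈ D
      · have := h3.1 h4
        tauto
      · have h5 : c2 f ∉ D := fun h => h4 (h3.2 h)
        have h6 : f ∉ (↑(bdE C) : Set Edge) := by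
          rw [Finset.mem_coe, mem_bdE, not_not]
          exact ⟨fun h => absurd (hCD h) h4, fun h => absurd (hCD h) h5⟩
        have h7 := H_reach_edge h6
        constructor
        · rintro ⟨-, h8⟩
          exact ⟨h5, h8.trans h7⟩
        · rintro ⟨-, h8⟩
          exact ⟨h4, h8.trans h7.symm⟩
    exact (h1 ▸ ⟨hz, SimpleGraph.Reachable.refl z⟩ : u ∉ D ∧ KC.Reachable z u).2
  have hmemW : ∀ c, c ∈ W ↔ ¬ KC.Reachable z c := by
    intro c
    rw [hW, Finset.mem_filter]
    constructor
    · exact fun h => h.2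
    · intro h
      refine ⟨?_, h⟩
      by_contra hc
      exact h (hDU c hc)
  -- KC-components are inside or outside C
  have hKCC : ∀ x y, KC.Reachable x y → (x ∈ C ↔ y ∈ C) := by
    intro x y hxy
    have h1 : (x ∈ C) = (y ∈ C) := by
      refine H_reach_inv (fun v => v ∈ C) ?_ hxy
      intro f hf
      simp only [eq_iff_iff]
      by_contra h
      exact hf (Finset.mem_coe.2 (mem_bdE.2 h))
    rw [h1]
  have hCW : C ⊆ W := by
    intro c hc
    rw [hmemW]
    intro h
    have := (hKCC z c h).2 hc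
    exact hz (hCD this)
  -- cells of W adjacent to the complement of W are in C
  have hadj : ∀ e ∈ bdE W, (c1 e ∈ W → c1 e ∈ C) ∧ (c2 e ∈ W → c2 e ∈ C) := by
    intro e he
    have h0 := mem_bdE.1 he
    constructor
    · intro h1
      have h2 : c2 e ∉ W := by tauto
      by_contra h3
      have h4 : c2 e ∉ C := fun h => h2 (hCW h)
      have h5 : e ∉ (↑(bdE C) : Set Edge) := by
        rw [Finset.mem_coe, mem_bdE, not_not]
        tauto
      rw [hmemW, not_not] at h2
      rw [hmemW] at h1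
      exact h1 (h2.trans (H_reach_edge h5).symm)
    · intro h1
      have h2 : c1 e ∉ W := by tauto
      by_contra h3
      have h4 : c1 e ∉ C := fun h => h2 (hCW h)
      have h5 : e ∉ (↑(bdE C) : Set Edge) := by
        rw [Finset.mem_coe, mem_bdE, not_not]
        tauto
      rw [hmemW, not_not] at h2
      rw [hmemW] at h1
      exact h1 (h2.trans (H_reach_edge h5))
  -- connections in C
  have hCconn : ∀ c ∈ C, (H (↑(η ∩ Ein W) ∪ ↑(bdE W) : Set Edge)).Reachable f0 c := by
    intro c hc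
    have hr := (Finset.mem_filter.1 hc).2
    have h1 : (f0 ∈ C ∧ (H (↑(η ∩ Ein W) ∪ ↑(bdE W) : Set Edge)).Reachable f0 f0) =
        (c ∈ C ∧ (H (↑(η ∩ Ein W) ∪ ↑(bdE W) : Set Edge)).Reachable f0 c) := by
      refine H_reach_inv (fun v => v ∈ C ∧
        (H (↑(η ∩ Ein W) ∪ ↑(bdE W) : Set Edge)).Reachable f0 v) ?_ hr
      intro f hf
      have h3 : (c1 f ∈ C ↔ c2 f ∈ C) := by
        by_contra h
        rcases hCb f (mem_bdE.2 h) with h4 | h4
        · exact hf (Or.inl (Finset.mem_coe.2 h4))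
        · exact hf (Or.inr (Finset.mem_coe.2 h4))
      simp only [eq_iff_iff]
      by_cases h4 : c1 f ∈ C
      · have h5 := h3.1 h4
        have h6 : f ∉ (↑(η ∩ Ein W) ∪ ↑(bdE W) : Set Edge) := by
          rintro (h | h)
          · exact hf (Or.inl (Finset.mem_coe.2 (Finset.mem_inter.1 (Finset.mem_coe.1 h)).1))
          · rw [Finset.mem_coe, mem_bdE] at h
            exact h ⟨fun _ => hCW h5, fun _ => hCW h4⟩
        have h7 := H_reach_edge h6
        constructor
        · rintro ⟨-, h8⟩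
          exact ⟨h5, h8.trans h7⟩
        · rintro ⟨-, h8⟩
          exact ⟨h4, h8.trans h7.symm⟩
      · have h5 : c2 f ∉ C := fun h => h4 (h3.2 h)
        tauto
    exact (h1 ▸ ⟨hf0C, SimpleGraph.Reachable.refl f0⟩ :
      c ∈ C ∧ (H (↑(η ∩ Ein W) ∪ ↑(bdE W) : Set Edge)).Reachable f0 c).2
  have hmono : ∀ x y, (H (↑(η ∩ Ein W) ∪ ↑(bdE W) : Set Edge)).Reachable x y →
      (H (↑(bdE W) : Set Edge)).Reachable x y := by
    intro x y hxy
    refine hxy.mono ?_
    rintro u v ⟨f, hf, h'⟩
    exact ⟨f, fun h => hf (Or.inr h), h'⟩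
  -- every cell of W is connected to f0 in W
  have hWconn : ∀ w ∈ W, (H (↑(bdE W) : Set Edge)).Reachable w f0 := by
    intro w hw
    refine walk_ind (K := H ∅) (f0 := f0) (fun w => w ∈ W →
        (H (↑(bdE W) : Set Edge)).Reachable w f0) (fun _ => SimpleGraph.Reachable.refl _) ?_
        (H_empty_reach w f0) hw
    intro u v hadj' ih hu
    obtain ⟨f, -, hfe⟩ := hadj'
    by_cases huC : u ∈ C
    · exact (hmono _ _ (hCconn u huC)).symm
    · have hvW : v ∈ W := by
        by_cases hvC : v ∈ C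
        · exact hCW hvC
        · rw [hmemW]
          intro hzv
          rw [hmemW] at hu
          apply hu
          have h6 : f ∉ (↑(bdE C) : Set Edge) := by
            rw [Finset.mem_coe, mem_bdE, not_not]
            rcases hfe with ⟨rfl, rfl⟩ | ⟨rfl, rfl⟩ <;> tauto
          have h7 := H_reach_edge h6
          rcases hfe with ⟨rfl, rfl⟩ | ⟨rfl, rfl⟩
          · exact hzv.trans h7.symm
          · exact hzv.trans h7
      have h8 : f ∉ (↑(bdE W) : Set Edge) := by
        rw [Finset.mem_coe, mem_bdE, not_not]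
        rcases hfe with ⟨rfl, rfl⟩ | ⟨rfl, rfl⟩ <;> tauto
      have h9 := H_reach_edge h8
      rcases hfe with ⟨h10, h11⟩ | ⟨h10, h11⟩
      · rw [h10, h11] at h9
        exact h9.trans (ih hvW)
      · rw [h10, h11] at h9
        exact h9.symm.trans (ih hvW)
  have hWdom : IsDom W := by
    refine ⟨⟨f0, hCW hf0C⟩, ?_, ?_⟩
    · intro c hc d hd
      exact (hWconn c hc).trans (hWconn d hd).symm
    · have hz' : ∀ c ∉ W, (H (↑(bdE W) : Set Edge)).Reachable z c := by
        intro c hc
        have hr : KC.Reachable z c := by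
          by_contra h
          exact hc ((hmemW c).2 h)
        have h1 : (KC.Reachable z z ∧ (H (↑(bdE W) : Set Edge)).Reachable z z) =
            (KC.Reachable z c ∧ (H (↑(bdE W) : Set Edge)).Reachable z c) := by
          refine H_reach_inv (fun v => KC.Reachable z v ∧
            (H (↑(bdE W) : Set Edge)).Reachable z v) ?_ hr
          intro f hf
          have h7 : KC.Reachable (c1 f) (c2 f) := H_reach_edge hf
          simp only [eq_iff_iff]
          by_cases h4 : KC.Reachable z (c1 f)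
          · have h5 := h4.trans h7
            have h6 : f ∉ (↑(bdE W) : Set Edge) := by
              rw [Finset.mem_coe, mem_bdE, not_not, hmemW, hmemW]
              tauto
            have h8 := H_reach_edge h6
            constructor
            · rintro ⟨-, h9⟩
              exact ⟨h5, h9.trans h8⟩
            · rintro ⟨-, h9⟩
              exact ⟨h4, h9.trans h8.symm⟩
          · have h5 : ¬ KC.Reachable z (c2 f) := fun h => h4 (h.trans h7.symm)
            tauto
        exact (h1 ▸ ⟨SimpleGraph.Reachable.refl z, SimpleGraph.Reachable.refl z⟩ :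
          KC.Reachable z c ∧ (H (↑(bdE W) : Set Edge)).Reachable z c).2
      intro c hc d hd
      exact (hz' c hc).symm.trans (hz' d hd)
  have he0K : K.Reachable (c1 e0) (c2 e0) := by
    apply H_reach_edge
    rintro (h | h)
    · exact he0η (Finset.mem_coe.1 h)
    · exact (Finset.disjoint_left.1 (disj_Ein_bdE D)) he0 (Finset.mem_coe.1 h)
  refine ⟨W, hWD, hWdom, hCW hf0C, ?_, ?_, ?_⟩
  · apply hCW
    rw [hC, Finset.mem_filter]
    exact ⟨hcells.2, he0K⟩
  · intro e he heD
    have h0 := mem_bdE.1 he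
    have h1 := hadj e he
    have h2 : e ∈ bdE C := by
      rw [mem_bdE]
      intro h3
      apply h0
      constructor
      · intro h4
        exact hCW (h3.1 (h1.1 h4))
      · intro h4
        exact hCW (h3.2 (h1.2 h4))
    rcases hCb e h2 with h4 | h4
    · exact h4
    · exact absurd h4 ((Finset.disjoint_left.1 (disj_Ein_bdE D)) heD)
  · rintro c d ⟨hcW, f, hf, hfc⟩ ⟨hdW, f', hf', hfd⟩
    have hcC : c ∈ C := by
      rcases hfc with rfl | rfl
      · exact (hadj f hf).1 hcW
      · exact (hadj f hf).2 hcW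
    have hdC : d ∈ C := by
      rcases hfd with rfl | rfl
      · exact (hadj f' hf').1 hdW
      · exact (hadj f' hf').2 hdW
    exact (hCconn c hcC).symm.trans (hCconn d hdC)

end Pool.Agent.H962
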