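import Pool.Agent.H962.Weights

/-!
The key comparison of partition functions inside a contour.
-/

namespace Pool.Agent.H962

open Finset

/-- at a contour vertex at most two inside edges. -/
lemma card_inside_edges {W : Finset (ℤ × ℤ)} {g : ℤ × ℤ} (hg : g ∈ bdV W) :
    ((Ein W).filter (fun e => src e = g ∨ tgt e = g)).card ≤ 2 := by
  classical
  obtain ⟨i, j⟩ := g
  rw [mem_bdV'] at hg
  have h4 : ∀ e ∈ (Ein W).filter (fun e => src e = (i, j) ∨ tgt e = (i, j)),
      (e = ((i, j), false) ∧ (i, j) ∈ W ∧ (i, j - 1) ∈ W) ∨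
      (e = ((i, j), true) ∧ (i, j) ∈ W ∧ (i - 1, j) ∈ W) ∨
      (e = ((i - 1, j), false) ∧ (i - 1, j) ∈ W ∧ (i - 1, j - 1) ∈ W) ∨
      (e = ((i, j - 1), true) ∧ (i, j - 1) ∈ W ∧ (i - 1, j - 1) ∈ W) := by
    intro e he
    rw [Finset.mem_filter, mem_Ein] at he
    obtain ⟨he, h⟩ := he
    obtain ⟨⟨a, b⟩, t⟩ := e
    cases t
    · simp only [c1, c2, src, tgt, Bool.false_eq_true, if_false, Prod.mk.injEq] at he h
      rcases h with ⟨rfl, rfl⟩ | ⟨h1, rfl⟩
      · left; exact ⟨rfl, he⟩
      · right; right; left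
        have : a = i - 1 := by omega
        subst this
        exact ⟨rfl, he⟩
    · simp only [c1, c2, src, tgt, if_true, Prod.mk.injEq] at he h
      rcases h with ⟨rfl, rfl⟩ | ⟨rfl, h1⟩
      · right; left; exact ⟨rfl, he⟩
      · right; right; right
        have : b = j - 1 := by omega
        subst this
        exact ⟨rfl, he⟩
  have key : ∃ x y : Edge, (Ein W).filter (fun e => src e = (i, j) ∨ tgt e = (i, j)) ⊆ {x, y} := by
    by_cases ha : (i, j) ∈ W
    · by_cases hb : (i, j - 1) ∈ W
      · by_cases hc : (i - 1, j) ∈ W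
        · have hd : (i - 1, j - 1) ∉ W := by tauto
          refine ⟨((i, j), false), ((i, j), true), ?_⟩
          intro e he
          rw [Finset.mem_insert, Finset.mem_singleton]
          have := h4 e he
          tauto
        · refine ⟨((i, j), false), ((i, j - 1), true), ?_⟩
          intro e he
          rw [Finset.mem_insert, Finset.mem_singleton]
          have := h4 e he
          tauto
      · refine ⟨((i, j), true), ((i - 1, j), false), ?_⟩
        intro e he
        rw [Finset.mem_insert, Finset.mem_singleton]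
        have := h4 e he
        tauto
    · refine ⟨((i - 1, j), false), ((i, j - 1), true), ?_⟩
      intro e he
      rw [Finset.mem_insert, Finset.mem_singleton]
      have := h4 e he
      tauto
  obtain ⟨x, y, hxy⟩ := key
  exact (Finset.card_le_card hxy).trans Finset.card_le_two

/-- inside edges not joining two vertices of `Vint` -/
def E1 (W : Finset (ℤ × ℤ)) : Finset Edge := Ein W \ EE (Vint W)

/-- a contour endpoint -/
def gE (W : Finset (ℤ × ℤ)) (e : Edge) : ℤ × ℤ := if src e ∈ bdV W then src e else tgt e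

lemma gE_spec {W : Finset (ℤ × ℤ)} {e : Edge} (he : e ∈ E1 W) :
    gE W e ∈ bdV W ∧ (src e = gE W e ∨ tgt e = gE W e) := by
  unfold E1 at he
  rw [Finset.mem_sdiff, mem_EE] at he
  have h1 := Ein_verts he.1
  rw [verts_eq, Finset.mem_union, Finset.mem_union] at h1
  unfold gE
  split_ifs with h
  · exact ⟨h, Or.inl rfl⟩
  · exact ⟨by tauto, Or.inr rfl⟩

lemma card_le_two_mul {W : Finset (ℤ × ℤ)} {X : Finset Edge} (hX : X ⊆ E1 W) :
    X.card ≤ 2 * (X.image (gE W)).card := by
  classical
  apply Finset.card_le_mul_card_image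
  intro g hg
  rw [Finset.mem_image] at hg
  obtain ⟨e, he, rfl⟩ := hg
  refine le_trans (Finset.card_le_card ?_) (card_inside_edges (gE_spec (hX he)).1)
  intro f hf
  rw [Finset.mem_filter] at hf ⊢
  have h1 := gE_spec (hX hf.1)
  refine ⟨(Finset.mem_sdiff.1 (hX hf.1)).1, ?_⟩
  rw [hf.2] at h1
  exact h1.2

lemma card_E1 (W : Finset (ℤ × ℤ)) : (E1 W).card ≤ 2 * (bdV W).card := by
  classical
  refine (card_le_two_mul (Finset.Subset.refl _)).trans ?_
  apply Nat.mul_le_mul_left
  apply Finset.card_le_card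
  intro g hg
  rw [Finset.mem_image] at hg
  obtain ⟨e, he, rfl⟩ := hg
  exact (gE_spec he).1

lemma card_bdV (W : Finset (ℤ × ℤ)) : (bdV W).card ≤ 2 * (bdE W).card := by
  unfold bdV
  refine (Finset.card_union_le _ _).trans ?_
  have h1 := Finset.card_image_le (s := bdE W) (f := src)
  have h2 := Finset.card_image_le (s := bdE W) (f := tgt)
  omega

/-- The exponent comparison for `Conn` configurations. -/
lemma conn_exponent {W : Finset (ℤ × ℤ)} (hW : IsDom W) {ξ : Finset Edge} (hξ : ξ ⊆ Ein W)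
    (hc : Conn W ξ) :
    2 * jW W ξ + (ξ \ EE (Vint W)).card ≤ 2 * comps (G (↑(ξ ∩ EE (Vint W)))) (Vint W) := by
  classical
  set Iatt := (Vint W).filter (fun v => ∃ g ∈ bdV W, (G (↑ξ)).Reachable v g) with hIatt
  have h1 : Vint W = Iatt ∪ Ifree (↑ξ) (Vint W) (bdV W) := by
    ext v
    simp only [hIatt, Ifree, Finset.mem_union, Finset.mem_filter]
    constructor
    · intro h
      by_cases h2 : ∃ g ∈ bdV W, (G (↑ξ)).Reachable v g
      · exact Or.inl ⟨h, h2⟩
      · push Not at h2
        exact Or.inr ⟨h, h2⟩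
    · rintro (h | h)
      · exact h.1
      · exact h.1
  have h2 : comps (G (↑ξ)) (Vint W) = comps (G (↑ξ)) Iatt + jW W ξ := by
    conv_lhs => rw [h1]
    rw [comps_union_disj]
    · rfl
    · intro x hx y hy hr
      rw [hIatt, Finset.mem_filter] at hx
      rw [Ifree, Finset.mem_filter] at hy
      obtain ⟨-, g, hg, hxg⟩ := hx
      exact hy.2 g hg (hr.symm.trans hxg)
  have h3 : comps (G (↑ξ)) (Vint W) ≤ comps (G (↑(ξ ∩ EE (Vint W)))) (Vint W) := by
    apply comps_le_of_imp
    intro x _ y _ hr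
    refine G_reach_mono ?_ hr
    intro e he
    exact Finset.mem_coe.2 (Finset.mem_inter.1 (Finset.mem_coe.1 he)).1
  set X := ξ \ EE (Vint W) with hX
  have hXsub : X ⊆ E1 W := Finset.sdiff_subset_sdiff hξ (Finset.Subset.refl _)
  have h4 := card_le_two_mul hXsub
  have h5 : (X.image (gE W)).card ≤ comps (G (↑ξ)) Iatt := by
    have h6 : (X.image (gE W)).card = ((X.image (gE W)).image (G (↑ξ)).connectedComponentMk).card := by
      symm
      apply Finset.card_image_of_injOn
      intro g hg g' hg' hgg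
      rw [SimpleGraph.ConnectedComponent.eq] at hgg
      rw [Finset.mem_coe, Finset.mem_image] at hg hg'
      obtain ⟨e, he, rfl⟩ := hg
      obtain ⟨e', he', rfl⟩ := hg'
      exact sep_of_conn hW hξ hc (gE_spec (hXsub he)).1 (gE_spec (hXsub he')).1 hgg
    rw [h6]
    unfold comps
    apply Finset.card_le_card
    intro c hc'
    rw [Finset.mem_image] at hc' ⊢
    obtain ⟨g, hg, rfl⟩ := hc'
    rw [Finset.mem_image] at hg
    obtain ⟨e, he, rfl⟩ := hg
    have hspec := gE_spec (hXsub he)
    have heξ : e ∈ ξ := (Finset.mem_sdiff.1 he).1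
    have hreach := G_reach_edge (Finset.mem_coe.2 heξ)
    have hv := Ein_verts (hξ heξ)
    rw [verts_eq, Finset.mem_union, Finset.mem_union] at hv
    rcases hspec.2 with h7 | h7
    · have h8 : tgt e ∈ Vint W := by
        rcases hv.2 with h9 | h9
        · have := sep_of_conn hW hξ hc (h7 ▸ hspec.1) h9 hreach
          exact absurd this (src_ne_tgt e)
        · exact h9
      refine ⟨tgt e, ?_, ?_⟩
      · rw [hIatt, Finset.mem_filter]
        exact ⟨h8, gE W e, hspec.1, h7 ▸ hreach.symm⟩
      · rw [← h7]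
        exact SimpleGraph.ConnectedComponent.sound hreach.symm
    · have h8 : src e ∈ Vint W := by
        rcases hv.1 with h9 | h9
        · have := sep_of_conn hW hξ hc h9 (h7 ▸ hspec.1) hreach
          exact absurd this (src_ne_tgt e)
        · exact h9
      refine ⟨src e, ?_, ?_⟩
      · rw [hIatt, Finset.mem_filter]
        exact ⟨h8, gE W e, hspec.1, h7 ▸ hreach⟩
      · rw [← h7]
        exact SimpleGraph.ConnectedComponent.sound hreach
  omega

lemma EE_Vint_subset (W : Finset (ℤ × ℤ)) : EE (Vint W) ⊆ Ein W := by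
  intro e he
  rw [mem_EE] at he
  exact Ein_of_Vint (Or.inl he.1)

lemma Aconn_le {q s : ℝ} (hqs : s * s = q) (hs : 1 ≤ s) {W : Finset (ℤ × ℤ)} (hW : IsDom W) :
    Aconn q s W ≤ 16 ^ (bdE W).card * Zf q s (Vint W) := by
  classical
  have hs0 : 0 ≤ s := by linarith
  have hq0 : 0 ≤ q := by rw [← hqs]; positivity
  set g : Finset Edge → ℝ := fun ζ => q ^ (comps (G (↑ζ)) (Vint W)) * s ^ ζ.card with hg
  have hg0 : ∀ ζ, 0 ≤ g ζ := fun ζ => by simp only [hg]; positivity
  have h1 : Aconn q s W ≤ ∑ ξ ∈ (Ein W).powerset, g (ξ ∩ EE (Vint W)) := by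
    unfold Aconn
    refine le_trans (Finset.sum_le_sum ?_) (Finset.sum_le_sum_of_subset_of_nonneg
      (Finset.filter_subset _ _) (fun ξ _ _ => hg0 _))
    intro ξ hξ
    rw [Finset.mem_filter, Finset.mem_powerset] at hξ
    have h2 := conn_exponent hW hξ.1 hξ.2
    have h3 : ξ.card = (ξ ∩ EE (Vint W)).card + (ξ \ EE (Vint W)).card :=
      (Finset.card_inter_add_card_sdiff ξ (EE (Vint W))).symm
    simp only [hg]
    rw [← hqs, ← pow_two, ← pow_mul, ← pow_mul, ← pow_add, ← pow_add]
    apply pow_le_pow_right₀ hs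
    omega
  have h2 : ∑ ξ ∈ (Ein W).powerset, g (ξ ∩ EE (Vint W)) = 2 ^ (E1 W).card * Zf q s (Vint W) := by
    have h3 : Ein W = EE (Vint W) ∪ E1 W := by
      unfold E1
      rw [Finset.union_sdiff_of_subset (EE_Vint_subset W)]
    have hdisj : Disjoint (EE (Vint W)) (E1 W) := by
      unfold E1
      exact Finset.disjoint_sdiff
    conv_lhs => rw [h3]
    rw [sum_powerset_union _ _ hdisj]
    unfold Zf
    rw [Finset.mul_sum]
    apply Finset.sum_congr rfl
    intro a ha
    rw [Finset.mem_powerset] at ha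
    have h4 : ∀ b ∈ (E1 W).powerset, g ((a ∪ b) ∩ EE (Vint W)) = g a := by
      intro b hb
      rw [Finset.mem_powerset] at hb
      congr 1
      rw [Finset.union_inter_distrib_right, Finset.inter_eq_left.2 ha]
      have : b ∩ EE (Vint W) = ∅ := by
        rw [← Finset.disjoint_iff_inter_eq_empty]
        exact (hdisj.mono_right hb).symm
      rw [this, Finset.union_empty]
    rw [Finset.sum_congr rfl h4, Finset.sum_const, Finset.card_powerset, nsmul_eq_mul]
    push_cast
    rfl
  have h3 : (2 : ℝ) ^ (E1 W).card ≤ 16 ^ (bdE W).card := by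
    have h4 := card_E1 W
    have h5 := card_bdV W
    have h6 : (16 : ℝ) ^ (bdE W).card = 2 ^ (4 * (bdE W).card) := by
      rw [pow_mul]
      norm_num
    rw [h6]
    apply pow_le_pow_right₀ (by norm_num)
    omega
  have hZ : 0 ≤ Zf q s (Vint W) := Finset.sum_nonneg fun ζ _ => hg0 ζ
  calc Aconn q s W ≤ _ := h1
    _ = 2 ^ (E1 W).card * Zf q s (Vint W) := h2
    _ ≤ _ := mul_le_mul_of_nonneg_right h3 hZ

/-- The key estimate inside a contour. -/
theorem key_estimate {q s t : ℝ} (hqs : s * s = q) (hst : t * t = s) (ht : 1 ≤ t)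
    {W : Finset (ℤ × ℤ)} (hW : IsDom W) :
    t ^ (bdE W).card * Aconn q s W ≤ 16 ^ (bdE W).card * q * Aw q s W := by
  have hs : 1 ≤ s := by rw [← hst]; nlinarith
  have ht0 : 0 < t := by linarith
  have hs0 : 0 < s := by linarith
  have hq0 : 0 < q := by rw [← hqs]; positivity
  have h1 := Aconn_le hqs hs hW
  have h2 : q ^ W.card * Zf q s (Vint W) ≤ q ^ (Vint W).card * Zf q s W :=
    Zf_mono hq0.le hs0.le (Vint_subset W)
  rw [Zf_dual hqs hW] at h2
  have h3 : q ^ W.card = s ^ (Ein W).card * t ^ (bdE W).card := by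
    have h4 := card_edges W
    have h5 : q = t ^ 4 := by rw [← hqs, ← hst]; ring
    have h6 : s = t ^ 2 := by rw [← hst]; ring
    rw [h5, h6, ← pow_mul, ← pow_mul, ← pow_add, h4]
  rw [h3] at h2
  have h4 : t ^ (bdE W).card * Zf q s (Vint W) ≤ q * Aw q s W := by
    have h5 : 0 < s ^ (Ein W).card := by positivity
    have h6 : s ^ (Ein W).card * (t ^ (bdE W).card * Zf q s (Vint W)) ≤
        s ^ (Ein W).card * (q * Aw q s W) := by
      calc _ = s ^ (Ein W).card * t ^ (bdE W).card * Zf q s (Vint W) := by ring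
        _ ≤ _ := h2
        _ = _ := by ring
    exact le_of_mul_le_mul_left h6 h5
  have h7 : 0 ≤ t ^ (bdE W).card := by positivity
  calc t ^ (bdE W).card * Aconn q s W
      ≤ t ^ (bdE W).card * (16 ^ (bdE W).card * Zf q s (Vint W)) :=
        mul_le_mul_of_nonneg_left h1 h7
    _ = 16 ^ (bdE W).card * (t ^ (bdE W).card * Zf q s (Vint W)) := by ring
    _ ≤ 16 ^ (bdE W).card * (q * Aw q s W) := mul_le_mul_of_nonneg_left h4 (by positivity)
    _ = _ := by ring

end Pool.Agent.H962
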