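import Mathlib

/-!
Planar combinatorics of the square lattice used for the random-cluster model:
edges, cells (unit squares), primal and dual graphs of a configuration,
mod 2 chains.
-/

namespace Pool.Agent.H962

open Finset

/-- An edge of the square lattice: `(x, false)` is the horizontal edge from `x` to `x + (1,0)`
and `(x, true)` is the vertical edge from `x` to `x + (0,1)`. -/
abbrev Edge := (ℤ × ℤ) × Bool

/-- First endpoint of an edge. -/
def src (e : Edge) : ℤ × ℤ := e.1

/-- Second endpoint of an edge. -/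
def tgt (e : Edge) : ℤ × ℤ := if e.2 then (e.1.1, e.1.2 + 1) else (e.1.1 + 1, e.1.2)

/-- First cell (unit square, named by its lower left corner) having the edge on its boundary. -/
def c1 (e : Edge) : ℤ × ℤ := e.1

/-- Second cell having the edge on its boundary. -/
def c2 (e : Edge) : ℤ × ℤ := if e.2 then (e.1.1 - 1, e.1.2) else (e.1.1, e.1.2 - 1)

/-- The graph on `ℤ²` whose edges are the edges of `η`. -/
def G (η : Set Edge) : SimpleGraph (ℤ × ℤ) where
  Adj x y := ∃ e ∈ η, (src e = x ∧ tgt e = y) ∨ (src e = y ∧ tgt e = x)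
  symm := ⟨by
    rintro x y ⟨e, he, h⟩
    exact ⟨e, he, h.symm⟩⟩
  loopless := ⟨by
    rintro x ⟨e, -, h⟩
    have h1 : src e = tgt e := by
      rcases h with ⟨h, h'⟩ | ⟨h, h'⟩ <;> rw [h, h']
    obtain ⟨⟨a, b⟩, t⟩ := e
    cases t <;> simp [src, tgt] at h1⟩

/-- The graph on cells: two cells are joined when they share an edge not in `η`. -/
def H (η : Set Edge) : SimpleGraph (ℤ × ℤ) where
  Adj x y := ∃ e ∉ η, (c1 e = x ∧ c2 e = y) ∨ (c1 e = y ∧ c2 e = x)
  symm := ⟨by
    rintro x y ⟨e, he, h⟩
    exact ⟨e, he, h.symm⟩⟩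
  loopless := ⟨by
    rintro x ⟨e, -, h⟩
    have h1 : c1 e = c2 e := by
      rcases h with ⟨h, h'⟩ | ⟨h, h'⟩ <;> rw [h, h']
    obtain ⟨⟨a, b⟩, t⟩ := e
    cases t <;> simp [c1, c2] at h1 <;> omega⟩

lemma reach_inv {V α : Type*} {K : SimpleGraph V} (κ : V → α)
    (h : ∀ x y, K.Adj x y → κ x = κ y) {x y : V} (hr : K.Reachable x y) : κ x = κ y := by
  obtain ⟨w⟩ := hr
  induction w with
  | nil => rfl
  | cons hadj _ ih => exact (h _ _ hadj).trans ih

lemma G_reach_inv {α : Type*} {η : Set Edge} (κ : ℤ × ℤ → α)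
    (h : ∀ e ∈ η, κ (src e) = κ (tgt e)) {x y : ℤ × ℤ} (hr : (G η).Reachable x y) :
    κ x = κ y := by
  refine reach_inv κ ?_ hr
  rintro x y ⟨e, he, ⟨rfl, rfl⟩ | ⟨rfl, rfl⟩⟩
  · exact h e he
  · exact (h e he).symm

lemma H_reach_inv {α : Type*} {η : Set Edge} (κ : ℤ × ℤ → α)
    (h : ∀ e ∉ η, κ (c1 e) = κ (c2 e)) {x y : ℤ × ℤ} (hr : (H η).Reachable x y) :
    κ x = κ y := by
  refine reach_inv κ ?_ hr
  rintro x y ⟨e, he, ⟨rfl, rfl⟩ | ⟨rfl, rfl⟩⟩
  · exact h e he
  · exact (h e he).symm

lemma G_reach_edge {η : Set Edge} {e : Edge} (he : e ∈ η) : (G η).Reachable (src e) (tgt e) :=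
  SimpleGraph.Adj.reachable ⟨e, he, Or.inl ⟨rfl, rfl⟩⟩

lemma H_reach_edge {η : Set Edge} {e : Edge} (he : e ∉ η) : (H η).Reachable (c1 e) (c2 e) :=
  SimpleGraph.Adj.reachable ⟨e, he, Or.inl ⟨rfl, rfl⟩⟩

lemma reach_mono {V : Type*} {K K' : SimpleGraph V}
    (h : ∀ x y, K.Adj x y → K'.Reachable x y) {x y : V} (hr : K.Reachable x y) :
    K'.Reachable x y := by
  obtain ⟨w⟩ := hr
  induction w with
  | nil => exact SimpleGraph.Reachable.refl _
  | cons hadj _ ih => exact (h _ _ hadj).trans ih

lemma G_mono {η η' : Set Edge} (h : η ⊆ η') : G η ≤ G η' := by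
  rintro x y ⟨e, he, h'⟩
  exact ⟨e, h he, h'⟩

lemma G_reach_mono {η η' : Set Edge} (h : η ⊆ η') {x y : ℤ × ℤ} (hr : (G η).Reachable x y) :
    (G η').Reachable x y := hr.mono (G_mono h)

/-! ### Mod 2 chains -/

/-- mod 2 degree of the vertex `v` in the finite edge set `S`. -/
def bd (S : Finset Edge) (v : ℤ × ℤ) : ZMod 2 :=
  ∑ e ∈ S, ((if src e = v then 1 else 0) + (if tgt e = v then 1 else 0))

/-- mod 2 indicator. -/
def ind (S : Finset Edge) (e : Edge) : ZMod 2 := if e ∈ S then 1 else 0

lemma zmod2_add_self (a : ZMod 2) : a + a = 0 := by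
  have : (2 : ZMod 2) = 0 := rfl
  rw [← two_mul, this, zero_mul]

lemma zmod2_cases (a : ZMod 2) : a = 0 ∨ a = 1 := by
  fin_cases a
  · left; rfl
  · right; rfl

lemma sum_symmDiff_zmod2 {α : Type*} [DecidableEq α] (f : α → ZMod 2) (S T : Finset α) :
    ∑ e ∈ symmDiff S T, f e = ∑ e ∈ S, f e + ∑ e ∈ T, f e := by
  have h1 : symmDiff S T = (S \ T) ∪ (T \ S) := rfl
  rw [h1, Finset.sum_union (Finset.disjoint_left.2 (by
    intro a ha hb
    simp only [mem_sdiff] at ha hb
    exact ha.2 hb.1))]
  rw [← Finset.sum_inter_add_sum_sdiff S T f, ← Finset.sum_inter_add_sum_sdiff T S f]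
  rw [Finset.inter_comm T S]
  have := zmod2_add_self (∑ x ∈ S ∩ T, f x)
  linear_combination -this

lemma bd_symmDiff (S T : Finset Edge) (v : ℤ × ℤ) :
    bd (symmDiff S T) v = bd S v + bd T v := sum_symmDiff_zmod2 _ S T

lemma bd_singleton (e : Edge) (v : ℤ × ℤ) :
    bd {e} v = (if src e = v then 1 else 0) + (if tgt e = v then 1 else 0) := by
  simp [bd]

/-- A connection in `η` is realised by a finite chain in `η`. -/
lemma path_chain {η : Set Edge} {a b : ℤ × ℤ} (h : (G η).Reachable a b) :
    ∃ S : Finset Edge, (↑S : Set Edge) ⊆ η ∧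
      ∀ v, bd S v = (if a = v then 1 else 0) + (if b = v then 1 else 0) := by
  obtain ⟨w⟩ := h
  induction w with
  | nil =>
    refine ⟨∅, by simp, fun v => ?_⟩
    rw [zmod2_add_self]
    simp [bd]
  | @cons u v w hadj _ ih =>
    obtain ⟨S, hS, hb⟩ := ih
    obtain ⟨e, he, h'⟩ := hadj
    refine ⟨symmDiff {e} S, ?_, fun z => ?_⟩
    · intro f hf
      simp only [Finset.coe_symmDiff, Finset.coe_singleton] at hf
      rcases hf with ⟨hf, -⟩ | ⟨hf, -⟩
      · rw [Set.mem_singleton_iff] at hf
        rw [hf]; exact he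
      · exact hS hf
    · rw [bd_symmDiff, bd_singleton, hb]
      have := zmod2_add_self (if v = z then 1 else 0)
      rcases h' with ⟨rfl, rfl⟩ | ⟨rfl, rfl⟩
      · linear_combination this
      · linear_combination this

lemma bd_eq_ind (S : Finset Edge) (i j : ℤ) :
    bd S (i, j) = ind S ((i, j), false) + ind S ((i, j), true) + ind S ((i - 1, j), false)
      + ind S ((i, j - 1), true) := by
  classical
  induction S using Finset.induction_on with
  | empty => simp [bd, ind]
  | insert e S he ih =>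
    have h1 : bd (insert e S) (i, j) = bd {e} (i, j) + bd S (i, j) := by
      unfold bd
      rw [Finset.sum_insert he, Finset.sum_singleton]
    have h2 : ∀ f, ind (insert e S) f = ind {e} f + ind S f := by
      intro f
      unfold ind
      by_cases hf : f = e
      · subst hf
        simp [he]
      · simp [hf]
    rw [h1, ih, h2, h2, h2, h2]
    have h3 : bd {e} (i, j) = ind {e} ((i, j), false) + ind {e} ((i, j), true)
        + ind {e} ((i - 1, j), false) + ind {e} ((i, j - 1), true) := by
      rw [bd_singleton]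
      obtain ⟨⟨a, b⟩, t⟩ := e
      cases t
      · simp only [src, tgt, ind, Finset.mem_singleton, Prod.mk.injEq, and_true,
          Bool.false_eq_true, if_false, and_false, add_zero, Bool.true_eq_false]
        congr 1
        · exact if_congr ⟨fun h => ⟨h.1.symm, h.2.symm⟩, fun h => ⟨h.1.symm, h.2.symm⟩⟩ rfl rfl
        · exact if_congr ⟨fun h => ⟨by omega, by omega⟩, fun h => ⟨by omega, by omega⟩⟩ rfl rfl
      · simp only [src, tgt, ind, Finset.mem_singleton, Prod.mk.injEq, and_true,
          Bool.false_eq_true, if_false, and_false, add_zero, zero_add, if_true]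
        congr 1
        · exact if_congr ⟨fun h => ⟨h.1.symm, h.2.symm⟩, fun h => ⟨h.1.symm, h.2.symm⟩⟩ rfl rfl
        · exact if_congr ⟨fun h => ⟨by omega, by omega⟩, fun h => ⟨by omega, by omega⟩⟩ rfl rfl
    rw [h3]
    ring

/-- parity of the number of vertical edges of `S` on row `c.2` weakly to the left of `c`. -/
def Xf (S : Finset Edge) (c : ℤ × ℤ) : ZMod 2 :=
  ∑ e ∈ S, if e.2 = true ∧ e.1.2 = c.2 ∧ e.1.1 ≤ c.1 then 1 else 0

lemma Xf_step (S : Finset Edge) (i j : ℤ) :
    Xf S (i, j) = Xf S (i - 1, j) + ind S ((i, j), true) := by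
  classical
  have h : ind S ((i, j), true) = ∑ e ∈ S, if e = ((i, j), true) then 1 else 0 := by
    rw [Finset.sum_ite_eq' S ((i, j), true) (fun _ => (1 : ZMod 2))]
    rfl
  rw [h]
  unfold Xf
  rw [← Finset.sum_add_distrib]
  apply Finset.sum_congr rfl
  rintro ⟨⟨a, b⟩, t⟩ -
  cases t
  · simp
  · simp only [true_and, Prod.mk.injEq, and_true]
    by_cases h1 : b = j
    · by_cases h2 : a ≤ i - 1
      · have h3 : a ≤ i := by omega
        have h4 : a ≠ i := by omega
        simp [h1, h2, h3, h4]
      · by_cases h3 : a = i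
        · simp [h1, h3]
        · have h4 : ¬ a ≤ i := by omega
          simp [h1, h2, h3, h4]
    · simp [h1]

/-- `H₁ = 0`: every finite even edge set is the boundary of a finite set of cells. -/
theorem even_is_boundary (S : Finset Edge) (hS : ∀ v, bd S v = 0) :
    ∃ X : Finset (ℤ × ℤ), ∀ e, e ∈ S ↔ ¬ (c1 e ∈ X ↔ c2 e ∈ X) := by
  classical
  obtain ⟨N, hN⟩ : ∃ N : ℤ, ∀ e ∈ S, -N ≤ e.1.1 ∧ e.1.1 ≤ N ∧ -N ≤ e.1.2 ∧ e.1.2 ≤ N := by
    induction S using Finset.induction_on with
    | empty => exact ⟨0, by simp⟩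
    | insert e S he ih =>
      clear hS ih
      refine ⟨∑ f ∈ insert e S, (|f.1.1| + |f.1.2|), ?_⟩
      intro f hf
      have h1 : |f.1.1| + |f.1.2| ≤ ∑ f ∈ insert e S, (|f.1.1| + |f.1.2|) :=
        Finset.single_le_sum (f := fun f : Edge => |f.1.1| + |f.1.2|)
          (fun g _ => by positivity) hf
      have h2 := abs_le.1 (le_refl |f.1.1|)
      have h3 := abs_le.1 (le_refl |f.1.2|)
      have h4 := abs_nonneg f.1.1
      have h5 := abs_nonneg f.1.2
      omega
  have hleft : ∀ i j, i < -N → Xf S (i, j) = 0 := by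
    intro i j hi
    unfold Xf
    apply Finset.sum_eq_zero
    intro e he
    have := hN e he
    rw [if_neg]
    rintro ⟨-, -, h⟩
    simp only at h
    omega
  have hrow : ∀ i j, (j < -N ∨ N < j) → Xf S (i, j) = 0 := by
    intro i j hj
    unfold Xf
    apply Finset.sum_eq_zero
    intro e he
    have := hN e he
    rw [if_neg]
    rintro ⟨-, h, -⟩
    simp only at h
    omega
  have hind : ∀ i j t, (i < -N ∨ N < i) → ind S ((i, j), t) = 0 := by
    intro i j t hi
    unfold ind
    rw [if_neg]
    intro h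
    have := hN _ h
    simp only at this
    omega
  have hvert : ∀ j i, Xf S (i, j) + Xf S (i, j - 1) = ind S ((i, j), false) := by
    intro j i
    have key : ∀ i, -N - 1 ≤ i → Xf S (i, j) + Xf S (i, j - 1) = ind S ((i, j), false) := by
      intro i hi
      induction i, hi using Int.leInduction with
      | base =>
        rw [hleft _ _ (by omega), hleft _ _ (by omega), hind _ _ _ (Or.inl (by omega)), add_zero]
      | succ i hi ih =>
        have h1 := Xf_step S (i + 1) j
        have h2 := Xf_step S (i + 1) (j - 1)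
        have h3 := bd_eq_ind S (i + 1) j
        rw [hS] at h3
        simp only [add_sub_cancel_right] at h1 h2 h3
        have h4 := zmod2_add_self (ind S ((i + 1, j), false))
        linear_combination h1 + h2 + ih - h3 - h4
    by_cases hi : -N - 1 ≤ i
    · exact key i hi
    · rw [hleft _ _ (by omega), hleft _ _ (by omega), hind _ _ _ (Or.inl (by omega)), add_zero]
  have hright : ∀ i j, N < i → Xf S (i, j) = 0 := by
    intro i j hi
    have key : ∀ j, -N - 1 ≤ j → Xf S (i, j) = 0 := by
      intro j hj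
      induction j, hj using Int.leInduction with
      | base => exact hrow _ _ (Or.inl (by omega))
      | succ j hj ih =>
        have h1 := hvert (j + 1) i
        rw [hind _ _ _ (Or.inr hi), add_sub_cancel_right, ih, add_zero] at h1
        exact h1
    by_cases hj : -N - 1 ≤ j
    · exact key j hj
    · exact hrow _ _ (Or.inl (by omega))
  refine ⟨((Finset.Icc (-N) N) ×ˢ (Finset.Icc (-N) N)).filter (fun c => Xf S c = 1), ?_⟩
  have hmem : ∀ c, c ∈ ((Finset.Icc (-N) N) ×ˢ (Finset.Icc (-N) N)).filter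
      (fun c => Xf S c = 1) ↔ Xf S c = 1 := by
    rintro ⟨i, j⟩
    simp only [Finset.mem_filter, Finset.mem_product, Finset.mem_Icc]
    constructor
    · exact fun h => h.2
    · intro h
      refine ⟨?_, h⟩
      by_contra hcon
      have h0 : Xf S (i, j) = 0 := by
        by_cases h1 : i < -N
        · exact hleft _ _ h1
        · by_cases h2 : N < i
          · exact hright _ _ h2
          · apply hrow
            by_contra h3
            apply hcon
            omega
      rw [h0] at h
      exact zero_ne_one h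
  intro e
  rw [hmem, hmem]
  have hsum : Xf S (c1 e) + Xf S (c2 e) = ind S e := by
    obtain ⟨⟨i, j⟩, t⟩ := e
    cases t
    · simpa [c1, c2] using hvert j i
    · have := Xf_step S i j
      have h4 := zmod2_add_self (Xf S (i - 1, j))
      simp only [c1, c2, if_true]
      linear_combination this + h4
  have hinde : e ∈ S ↔ ind S e = 1 := by
    unfold ind
    split_ifs with h
    · simp [h]
    · simp [h]
  rw [hinde, ← hsum]
  rcases zmod2_cases (Xf S (c1 e)) with h1 | h1 <;> rcases zmod2_cases (Xf S (c2 e)) with h2 | h2 <;>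
    rw [h1, h2] <;> decide

end Pool.Agent.H962
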