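import Pool.Agent.H962.Count

/-!
Peierls bound for the random-cluster measure with modified boundary-cluster weight.
-/

namespace Pool.Agent.H962

open Finset

lemma six_le {W : Finset (ℤ × ℤ)} {e : Edge} (h1 : c1 e ∈ W) (h2 : c2 e ∈ W) :
    6 ≤ (bdE W).card := by
  classical
  have h := card_bdE_ge W
  obtain ⟨⟨a, b⟩, t⟩ := e
  cases t
  · simp only [c1, c2, Bool.false_eq_true, if_false] at h1 h2
    have h3 : ({b, b - 1} : Finset ℤ) ⊆ W.image Prod.snd := by
      intro x hx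
      rw [Finset.mem_insert, Finset.mem_singleton] at hx
      rw [Finset.mem_image]
      rcases hx with rfl | rfl
      · exact ⟨_, h1, rfl⟩
      · exact ⟨_, h2, rfl⟩
    have h4 := Finset.card_le_card h3
    rw [Finset.card_pair (by omega)] at h4
    have h5 : 0 < (W.image Prod.fst).card := Finset.card_pos.2 ⟨a, Finset.mem_image.2 ⟨_, h1, rfl⟩⟩
    omega
  · simp only [c1, c2, if_true] at h1 h2
    have h3 : ({a, a - 1} : Finset ℤ) ⊆ W.image Prod.fst := by
      intro x hx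
      rw [Finset.mem_insert, Finset.mem_singleton] at hx
      rw [Finset.mem_image]
      rcases hx with rfl | rfl
      · exact ⟨_, h1, rfl⟩
      · exact ⟨_, h2, rfl⟩
    have h4 := Finset.card_le_card h3
    rw [Finset.card_pair (by omega)] at h4
    have h5 : 0 < (W.image Prod.snd).card := Finset.card_pos.2 ⟨b, Finset.mem_image.2 ⟨_, h1, rfl⟩⟩
    omega

/-- the first coordinates of a domain form an interval. -/
lemma interval_fst {W : Finset (ℤ × ℤ)} (hW : IsDom W) {c d : ℤ × ℤ} (hc : c ∈ W) (hd : d ∈ W)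
    {i : ℤ} (h1 : c.1 ≤ i) (h2 : i ≤ d.1) : i ∈ W.image Prod.fst := by
  classical
  by_contra hcon
  have hne : ∀ x ∈ W, x.1 ≠ i := fun x hx h => hcon (Finset.mem_image.2 ⟨x, hx, h⟩)
  have h3 : (c ∈ W ∧ c.1 < i) = (d ∈ W ∧ d.1 < i) := by
    refine H_reach_inv (fun v => v ∈ W ∧ v.1 < i) ?_ (hW.inn c hc d hd)
    intro e he
    rw [Finset.mem_coe, mem_bdE, not_not] at he
    simp only [eq_iff_iff]
    by_cases h4 : c1 e ∈ W
    · have h5 := he.1 h4
      have h6 := hne _ h4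
      have h7 := hne _ h5
      have h8 : (c1 e).1 - 1 ≤ (c2 e).1 ∧ (c2 e).1 ≤ (c1 e).1 := by
        obtain ⟨⟨a, b⟩, t⟩ := e
        cases t <;> simp [c1, c2]
      constructor
      · rintro ⟨_, h⟩
        exact ⟨h5, by omega⟩
      · rintro ⟨_, h⟩
        exact ⟨h4, by omega⟩
    · have h5 : c2 e ∉ W := fun h => h4 (he.2 h)
      tauto
  have h4 : c.1 < i := lt_of_le_of_ne h1 (hne c hc)
  have h5 : d ∈ W ∧ d.1 < i := h3 ▸ ⟨hc, h4⟩
  omega

/-- the second coordinates of a domain form an interval. -/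
lemma interval_snd {W : Finset (ℤ × ℤ)} (hW : IsDom W) {c d : ℤ × ℤ} (hc : c ∈ W) (hd : d ∈ W)
    {i : ℤ} (h1 : c.2 ≤ i) (h2 : i ≤ d.2) : i ∈ W.image Prod.snd := by
  classical
  by_contra hcon
  have hne : ∀ x ∈ W, x.2 ≠ i := fun x hx h => hcon (Finset.mem_image.2 ⟨x, hx, h⟩)
  have h3 : (c ∈ W ∧ c.2 < i) = (d ∈ W ∧ d.2 < i) := by
    refine H_reach_inv (fun v => v ∈ W ∧ v.2 < i) ?_ (hW.inn c hc d hd)
    intro e he
    rw [Finset.mem_coe, mem_bdE, not_not] at he
    simp only [eq_iff_iff]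
    by_cases h4 : c1 e ∈ W
    · have h5 := he.1 h4
      have h6 := hne _ h4
      have h7 := hne _ h5
      have h8 : (c1 e).2 - 1 ≤ (c2 e).2 ∧ (c2 e).2 ≤ (c1 e).2 := by
        obtain ⟨⟨a, b⟩, t⟩ := e
        cases t <;> simp [c1, c2]
      constructor
      · rintro ⟨_, h⟩
        exact ⟨h5, by omega⟩
      · rintro ⟨_, h⟩
        exact ⟨h4, by omega⟩
    · have h5 : c2 e ∉ W := fun h => h4 (he.2 h)
      tauto
  have h4 : c.2 < i := lt_of_le_of_ne h1 (hne c hc)
  have h5 : d ∈ W ∧ d.2 < i := h3 ▸ ⟨hc, h4⟩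
  omega

/-- the box of radius `N` around `f` is contained in `D`. -/
def BoxIn (N : ℕ) (f : ℤ × ℤ) (D : Finset (ℤ × ℤ)) : Prop :=
  ∀ c : ℤ × ℤ, |c.1 - f.1| ≤ N → |c.2 - f.2| ≤ N → c ∈ D

lemma touch_large {D W : Finset (ℤ × ℤ)} (hW : IsDom W) (hWD : W ⊆ D) {f : ℤ × ℤ} (hf : f ∈ W)
    {N : ℕ} (hN : BoxIn N f D) (h : (bdE W ∩ bdE D).Nonempty) : N ≤ (bdE W).card := by
  classical
  obtain ⟨e, he⟩ := h
  rw [Finset.mem_inter, mem_bdE, mem_bdE] at he
  have h8 : |(c1 e).1 - (c2 e).1| ≤ 1 ∧ |(c1 e).2 - (c2 e).2| ≤ 1 := by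
    obtain ⟨⟨a, b⟩, t⟩ := e
    cases t <;> simp [c1, c2]
  -- w in W, u outside D
  obtain ⟨w, u, hw, hu, hwu1, hwu2⟩ : ∃ w u : ℤ × ℤ, w ∈ W ∧ u ∉ D ∧ |w.1 - u.1| ≤ 1 ∧
      |w.2 - u.2| ≤ 1 := by
    by_cases h1 : c1 e ∈ W
    · have h2 := hWD h1
      exact ⟨c1 e, c2 e, h1, by tauto, h8.1, h8.2⟩
    · have h2 : c2 e ∈ W := by tauto
      have h3 := hWD h2
      refine ⟨c2 e, c1 e, h2, by tauto, ?_, ?_⟩
      · rw [abs_sub_comm]; exact h8.1
      · rw [abs_sub_comm]; exact h8.2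
  have hfar : (N : ℤ) ≤ |w.1 - f.1| ∨ (N : ℤ) ≤ |w.2 - f.2| := by
    by_contra hcon
    push Not at hcon
    apply hu
    apply hN
    · have := abs_sub_le u.1 w.1 f.1
      rw [abs_sub_comm u.1 w.1] at this
      omega
    · have := abs_sub_le u.2 w.2 f.2
      rw [abs_sub_comm u.2 w.2] at this
      omega
  have hge := card_bdE_ge W
  rcases hfar with hfar | hfar
  · have h1 : (N : ℤ) + 1 ≤ (W.image Prod.fst).card := by
      rcases le_total w.1 f.1 with h2 | h2
      · have h3 : Finset.Icc w.1 f.1 ⊆ W.image Prod.fst := by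
          intro i hi
          rw [Finset.mem_Icc] at hi
          exact interval_fst hW hw hf hi.1 hi.2
        have h4 := Finset.card_le_card h3
        rw [Int.card_Icc] at h4
        rw [abs_of_nonpos (by omega)] at hfar
        omega
      · have h3 : Finset.Icc f.1 w.1 ⊆ W.image Prod.fst := by
          intro i hi
          rw [Finset.mem_Icc] at hi
          exact interval_fst hW hf hw hi.1 hi.2
        have h4 := Finset.card_le_card h3
        rw [Int.card_Icc] at h4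
        rw [abs_of_nonneg (by omega)] at hfar
        omega
    omega
  · have h1 : (N : ℤ) + 1 ≤ (W.image Prod.snd).card := by
      rcases le_total w.2 f.2 with h2 | h2
      · have h3 : Finset.Icc w.2 f.2 ⊆ W.image Prod.snd := by
          intro i hi
          rw [Finset.mem_Icc] at hi
          exact interval_snd hW hw hf hi.1 hi.2
        have h4 := Finset.card_le_card h3
        rw [Int.card_Icc] at h4
        rw [abs_of_nonpos (by omega)] at hfar
        omega
      · have h3 : Finset.Icc f.2 w.2 ⊆ W.image Prod.snd := by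
          intro i hi
          rw [Finset.mem_Icc] at hi
          exact interval_snd hW hf hw hi.1 hi.2
        have h4 := Finset.card_le_card h3
        rw [Int.card_Icc] at h4
        rw [abs_of_nonneg (by omega)] at hfar
        omega
    omega

open Classical in
/-- Peierls bound: weight of the configurations with `e0` closed. -/
theorem closed_bound {q b s t : ℝ} (hqs : s * s = q) (hst : t * t = s) (ht : 1 ≤ t)
    (hb : 1 ≤ b) {D : Finset (ℤ × ℤ)} (hD : IsDom D) {e0 : Edge} (he0 : e0 ∈ Ein D)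
    {N : ℕ} (hN : BoxIn N (c1 e0) D) (hx : 2 ^ 14 * (1 + b / s) / t ≤ 1 / 2) :
    ∑ η ∈ (adjE D).powerset.filter (fun η => e0 ∉ η), wt q b s D η ≤
      (2 * q * (2 ^ 14 / t) ^ 6 + 2 * q * (2 ^ 14 * (1 + b / s) / t) ^ N) * ZD q b s D := by
  have hs : 1 ≤ s := by rw [← hst]; nlinarith
  have ht0 : 0 < t := by linarith
  have hs0 : 0 < s := by linarith
  have hq0 : 0 < q := by rw [← hqs]; positivity
  have hb0 : 0 ≤ b := by linarith
  have hZ0 : 0 ≤ ZD q b s D := Finset.sum_nonneg fun η _ => wt_nonneg hq0.le hb0 hs0.le _ _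
  set 𝒲 := D.powerset.filter (fun W => IsDom W ∧ c1 e0 ∈ W ∧ c2 e0 ∈ W) with h𝒲
  set SW : Finset (ℤ × ℤ) → ℝ := fun W =>
    ∑ η ∈ (adjE D).powerset.filter (fun η => EvW D W η), wt q b s D η with hSW
  have h1 : ∑ η ∈ (adjE D).powerset.filter (fun η => e0 ∉ η), wt q b s D η ≤
      ∑ W ∈ 𝒲, SW W := by
    have h2 : ∀ η ∈ (adjE D).powerset.filter (fun η => e0 ∉ η), wt q b s D η ≤
        ∑ W ∈ 𝒲, if EvW D W η then wt q b s D η else 0 := by
      intro η hη
      rw [Finset.mem_filter] at hη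
      obtain ⟨W, hWD, hW, hc1, hc2, hev⟩ := hull hD he0 hη.2
      have hW𝒲 : W ∈ 𝒲 := by
        rw [h𝒲, Finset.mem_filter, Finset.mem_powerset]
        exact ⟨hWD, hW, hc1, hc2⟩
      refine le_trans ?_ (Finset.single_le_sum (f := fun W => if EvW D W η then wt q b s D η else 0)
        (fun W _ => ?_) hW𝒲)
      · rw [if_pos hev]
      · split_ifs
        · exact wt_nonneg hq0.le hb0 hs0.le _ _
        · exact le_refl _
    refine (Finset.sum_le_sum h2).trans ?_
    rw [Finset.sum_comm]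
    apply Finset.sum_le_sum
    intro W _
    simp only [hSW]
    refine le_trans (Finset.sum_le_sum_of_subset_of_nonneg
      (Finset.filter_subset (fun η => e0 ∉ η) _) ?_) (le_of_eq (Finset.sum_filter _ _).symm)
    intro η _ _
    split_ifs
    · exact wt_nonneg hq0.le hb0 hs0.le _ _
    · exact le_refl _
  have hbd : ∀ W ∈ 𝒲, SW W ≤ q * (1 + b / s) ^ (bdE W ∩ bdE D).card *
      (16 / t) ^ (bdE W).card * ZD q b s D := by
    intro W hW
    rw [h𝒲, Finset.mem_filter, Finset.mem_powerset] at hW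
    have h2 := contour_bound hqs hst ht hb hD hW.2.1 hW.1
    have h3 : 0 < t ^ (bdE W).card := by positivity
    rw [div_pow]
    have h4 : q * (1 + b / s) ^ (bdE W ∩ bdE D).card *
        (16 ^ (bdE W).card / t ^ (bdE W).card) * ZD q b s D =
        ((1 + b / s) ^ (bdE W ∩ bdE D).card * 16 ^ (bdE W).card * q * ZD q b s D) /
          t ^ (bdE W).card := by ring
    rw [h4, le_div_iff₀ h3, mul_comm]
    exact h2
  have hsplit : ∑ W ∈ 𝒲, SW W = ∑ W ∈ 𝒲.filter (fun W => ¬ (bdE W ∩ bdE D).Nonempty), SW W +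
      ∑ W ∈ 𝒲.filter (fun W => (bdE W ∩ bdE D).Nonempty), SW W := by
    rw [add_comm]
    exact (Finset.sum_filter_add_sum_filter_not 𝒲 (fun W => (bdE W ∩ bdE D).Nonempty) SW).symm
  have hbs : 0 ≤ b / s := by positivity
  have hy1 : 2 ^ 10 * (16 / t) ≤ 1 / 2 := by
    have h2 : 2 ^ 10 * (16 / t) ≤ 2 ^ 14 * (1 + b / s) / t := by
      rw [show (2 : ℝ) ^ 10 * (16 / t) = (2 ^ 14 * 1) / t by ring]
      apply div_le_div_of_nonneg_right _ ht0.le
      nlinarith
    linarith
  have hpart1 : ∑ W ∈ 𝒲.filter (fun W => ¬ (bdE W ∩ bdE D).Nonempty), SW W ≤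
      2 * q * (2 ^ 14 / t) ^ 6 * ZD q b s D := by
    have h2 : ∀ W ∈ 𝒲.filter (fun W => ¬ (bdE W ∩ bdE D).Nonempty), SW W ≤
        (q * ZD q b s D) * (16 / t) ^ (bdE W).card := by
      intro W hW
      rw [Finset.mem_filter, Finset.not_nonempty_iff_eq_empty] at hW
      have h3 := hbd W hW.1
      rw [hW.2, Finset.card_empty, pow_zero, mul_one] at h3
      linarith
    refine (Finset.sum_le_sum h2).trans ?_
    rw [← Finset.mul_sum]
    have h3 := sum_contours (c1 e0) 6 (𝒲.filter (fun W => ¬ (bdE W ∩ bdE D).Nonempty)) (by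
      intro W hW
      rw [Finset.mem_filter, h𝒲, Finset.mem_filter] at hW
      exact ⟨hW.1.2.1, hW.1.2.2.1, six_le hW.1.2.2.1 hW.1.2.2.2⟩) (16 / t) (by positivity) hy1
    calc (q * ZD q b s D) * _ ≤ (q * ZD q b s D) * (2 * (2 ^ 10 * (16 / t)) ^ 6) :=
          mul_le_mul_of_nonneg_left h3 (by positivity)
      _ = _ := by ring
  have hpart2 : ∑ W ∈ 𝒲.filter (fun W => (bdE W ∩ bdE D).Nonempty), SW W ≤
      2 * q * (2 ^ 14 * (1 + b / s) / t) ^ N * ZD q b s D := by
    have h2 : ∀ W ∈ 𝒲.filter (fun W => (bdE W ∩ bdE D).Nonempty), SW W ≤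
        (q * ZD q b s D) * (16 * (1 + b / s) / t) ^ (bdE W).card := by
      intro W hW
      rw [Finset.mem_filter] at hW
      have h3 := hbd W hW.1
      have h4 : (1 + b / s) ^ (bdE W ∩ bdE D).card ≤ (1 + b / s) ^ (bdE W).card := by
        apply pow_le_pow_right₀ (by linarith)
        exact Finset.card_le_card Finset.inter_subset_left
      have h5 : 0 ≤ (16 / t) ^ (bdE W).card := by positivity
      calc SW W ≤ _ := h3
        _ ≤ q * (1 + b / s) ^ (bdE W).card * (16 / t) ^ (bdE W).card * ZD q b s D := by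
          apply mul_le_mul_of_nonneg_right _ hZ0
          apply mul_le_mul_of_nonneg_right _ h5
          exact mul_le_mul_of_nonneg_left h4 hq0.le
        _ = _ := by
          rw [show (16 * (1 + b / s) / t) = (1 + b / s) * (16 / t) by ring, mul_pow]
          ring
    refine (Finset.sum_le_sum h2).trans ?_
    rw [← Finset.mul_sum]
    have h3 := sum_contours (c1 e0) N (𝒲.filter (fun W => (bdE W ∩ bdE D).Nonempty)) (by
      intro W hW
      rw [Finset.mem_filter, h𝒲, Finset.mem_filter, Finset.mem_powerset] at hW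
      exact ⟨hW.1.2.1, hW.1.2.2.1, touch_large hW.1.2.1 hW.1.1 hW.1.2.2.1 hN hW.2⟩)
      (16 * (1 + b / s) / t) (by positivity) (by
        calc 2 ^ 10 * (16 * (1 + b / s) / t) = 2 ^ 14 * (1 + b / s) / t := by ring
          _ ≤ 1 / 2 := hx)
    calc (q * ZD q b s D) * _ ≤ (q * ZD q b s D) * (2 * (2 ^ 10 * (16 * (1 + b / s) / t)) ^ N) :=
          mul_le_mul_of_nonneg_left h3 (by positivity)
      _ = 2 * q * (2 ^ 10 * (16 * (1 + b / s) / t)) ^ N * ZD q b s D := by ring
      _ = _ := by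
        congr 2
        congr 1
        ring
  calc _ ≤ ∑ W ∈ 𝒲, SW W := h1
    _ = _ := hsplit
    _ ≤ 2 * q * (2 ^ 14 / t) ^ 6 * ZD q b s D +
      2 * q * (2 ^ 14 * (1 + b / s) / t) ^ N * ZD q b s D := add_le_add hpart1 hpart2
    _ = _ := by ring

/-! ### The wired measure and free duality -/

/-- number of interior clusters of a configuration in a domain. -/
lemma ki_eq {S : Finset (ℤ × ℤ)} {ξ τ : Finset Edge} (hξ : ξ ⊆ Ein S) (hτ : τ ⊆ bdE S) :
    ki S (τ ∪ ξ) = jW S ξ := by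
  classical
  unfold ki
  have h1 := glue_split (α := (↑τ : Set Edge)) (ξ := (↑ξ : Set Edge)) (I := Vint S) (Vg := bdV S)
    (V' := bdV S) (by
      intro e he
      have h2 := bdE_bdV (hτ (Finset.mem_coe.1 he))
      exact ⟨(Finset.disjoint_left.1 (disj_bdV_Vint S)) h2.1,
        (Finset.disjoint_left.1 (disj_bdV_Vint S)) h2.2⟩) (by
      intro e he
      have h1 := Ein_verts (hξ (Finset.mem_coe.1 he))
      rw [verts_eq, Finset.mem_union, Finset.mem_union] at h1
      exact ⟨h1.1.symm, h1.2.symm⟩) (Finset.Subset.refl _)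
      (fun v hv => (Finset.disjoint_left.1 (disj_bdV_Vint S)) hv)
  rw [verts_eq, Finset.coe_union, h1]
  unfold jW
  omega

lemma wt_one {q s : ℝ} {S : Finset (ℤ × ℤ)} {ξ τ : Finset Edge} (hξ : ξ ⊆ Ein S)
    (hτ : τ ⊆ bdE S) : wt q 1 s S (τ ∪ ξ) = s ^ τ.card * (q ^ (jW S ξ) * s ^ ξ.card) := by
  have hd : Disjoint τ ξ := (disj_Ein_bdE S).symm.mono hτ hξ
  unfold wt
  rw [ki_eq hξ hτ, one_pow, mul_one, Finset.card_union_of_disjoint hd, pow_add]
  ring

open Classical in
/-- For `b = 1` the boundary edges decouple. -/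
lemma wired_sum {q s : ℝ} (S : Finset (ℤ × ℤ)) (P : Finset Edge → Prop)
    (hP : ∀ ξ ⊆ Ein S, ∀ τ ⊆ bdE S, (P (τ ∪ ξ) ↔ P ξ)) :
    ∑ η ∈ (adjE S).powerset.filter P, wt q 1 s S η =
      (1 + s) ^ (bdE S).card * ∑ ξ ∈ (Ein S).powerset.filter P, q ^ (jW S ξ) * s ^ ξ.card := by
  rw [Finset.sum_filter, adjE_eq, Finset.union_comm,
    sum_powerset_union _ _ (disj_Ein_bdE S).symm]
  have h1 : ∀ τ ∈ (bdE S).powerset, ∑ ξ ∈ (Ein S).powerset,
      (if P (τ ∪ ξ) then wt q 1 s S (τ ∪ ξ) else 0) =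
      (s ^ τ.card * 1 ^ ((bdE S).card - τ.card)) *
        ∑ ξ ∈ (Ein S).powerset.filter P, q ^ (jW S ξ) * s ^ ξ.card := by
    intro τ hτ
    rw [Finset.mem_powerset] at hτ
    rw [Finset.sum_filter, Finset.mul_sum]
    apply Finset.sum_congr rfl
    intro ξ hξ
    rw [Finset.mem_powerset] at hξ
    rw [hP ξ hξ τ hτ]
    split_ifs
    · rw [wt_one hξ hτ]
      ring
    · rw [mul_zero]
  rw [Finset.sum_congr rfl h1, ← Finset.sum_mul, Finset.sum_pow_mul_eq_add_pow, add_comm s 1]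

open Classical in
/-- Duality between the free sum on the vertex set `S` and the wired sum on the cell set `S`. -/
lemma free_dual_sum {q s : ℝ} (hqs : s * s = q) {S : Finset (ℤ × ℤ)} (hS : IsDom S)
    {f : Edge} (hf : f ∈ EE S) :
    q ^ (Vint S).card * ∑ ζ ∈ (EE S).powerset.filter (fun ζ => f ∈ ζ),
      q ^ (comps (G (↑ζ)) S) * s ^ ζ.card =
    q * s ^ (Ein S).card * ∑ ξ ∈ (Ein S).powerset.filter (fun ξ => dei f ∉ ξ),
      q ^ (jW S ξ) * s ^ ξ.card := by
  rw [Finset.mul_sum, Finset.mul_sum]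
  symm
  have hfE : dei f ∈ Ein S := by
    have := mem_EE.1 hf
    rw [mem_Ein, ← tgt_de, ← src_de, de_dei]
    exact ⟨this.2, this.1⟩
  apply Finset.sum_bij' (fun ξ _ => (Ein S \ ξ).image de) (fun ζ _ => Ein S \ (ζ.image dei))
  · intro ξ hξ
    rw [Finset.mem_filter, Finset.mem_powerset] at hξ ⊢
    refine ⟨Finset.image_subset_image Finset.sdiff_subset, ?_⟩
    rw [Finset.mem_image]
    exact ⟨dei f, Finset.mem_sdiff.2 ⟨hfE, hξ.2⟩, de_dei f⟩
  · intro ζ hζ
    rw [Finset.mem_filter, Finset.mem_powerset] at hζ ⊢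
    refine ⟨Finset.sdiff_subset, ?_⟩
    rw [Finset.mem_sdiff, not_and, not_not]
    intro _
    exact Finset.mem_image_of_mem _ hζ.2
  · intro ξ hξ
    rw [Finset.mem_filter, Finset.mem_powerset] at hξ
    rw [Finset.image_image]
    have : (dei ∘ de) = id := by
      funext e
      exact dei_de e
    rw [this, Finset.image_id, Finset.sdiff_sdiff_eq_self hξ.1]
  · intro ζ hζ
    rw [Finset.mem_filter, Finset.mem_powerset] at hζ
    have h1 : ζ.image dei ⊆ Ein S := by
      intro e he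
      rw [Finset.mem_image] at he
      obtain ⟨f, hf, rfl⟩ := he
      have := mem_EE.1 (hζ.1 hf)
      rw [mem_Ein, ← tgt_de, ← src_de, de_dei]
      exact ⟨this.2, this.1⟩
    rw [Finset.sdiff_sdiff_eq_self h1, Finset.image_image]
    have : (de ∘ dei) = id := by
      funext e
      exact de_dei e
    rw [this, Finset.image_id]
  · intro ξ hξ
    rw [Finset.mem_filter, Finset.mem_powerset] at hξ
    exact (dual_term hqs hS hξ.1).symm

/-- For `b = q` the weight is the free random-cluster weight. -/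
lemma wt_free {q s : ℝ} {D : Finset (ℤ × ℤ)} (η : Finset Edge) :
    wt q q s D η = q ^ (comps (G (↑η)) (verts D)) * s ^ η.card := by
  unfold wt ki kb
  have h : comps (G (↑η)) (bdV D) ≤ comps (G (↑η)) (verts D) := by
    apply comps_mono
    rw [verts_eq]
    exact Finset.subset_union_left
  rw [← pow_add]
  congr 2
  omega

open Classical in
/-- Peierls bound for the free measure: weight of configurations with `f` open. -/
theorem free_open_bound {q s t : ℝ} (hqs : s * s = q) (hst : t * t = s) (ht : 1 ≤ t)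
    {D : Finset (ℤ × ℤ)} (hS : IsDom (verts D)) (hE : EE (verts D) = adjE D)
    {f : Edge} (hf : f ∈ adjE D) {N : ℕ} (hN : BoxIn N (c1 (dei f)) (verts D))
    (hx : 2 ^ 14 * (1 + 1 / s) / t ≤ 1 / 2) :
    ∑ η ∈ (adjE D).powerset.filter (fun η => f ∈ η), wt q q s D η ≤
      (2 * q * (2 ^ 14 / t) ^ 6 + 2 * q * (2 ^ 14 * (1 + 1 / s) / t) ^ N) * ZD q q s D := by
  have hs : 1 ≤ s := by rw [← hst]; nlinarith
  have ht0 : 0 < t := by linarith
  have hs0 : 0 < s := by linarith
  have hq0 : 0 < q := by rw [← hqs]; positivity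
  set S := verts D with hSdef
  set c : ℝ := 2 * q * (2 ^ 14 / t) ^ 6 + 2 * q * (2 ^ 14 * (1 + 1 / s) / t) ^ N with hc
  have hfE : f ∈ EE S := by rw [hE]; exact hf
  have hfE' : dei f ∈ Ein S := by
    have := mem_EE.1 hfE
    rw [mem_Ein, ← tgt_de, ← src_de, de_dei]
    exact ⟨this.2, this.1⟩
  have h1 := closed_bound hqs hst ht (le_refl (1 : ℝ)) hS hfE' hN hx
  have h2 : ∑ η ∈ (adjE S).powerset.filter (fun η => dei f ∉ η), wt q 1 s S η =
      (1 + s) ^ (bdE S).card * ∑ ξ ∈ (Ein S).powerset.filter (fun ξ => dei f ∉ ξ),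
        q ^ (jW S ξ) * s ^ ξ.card := by
    convert wired_sum S (fun η => dei f ∉ η) ?_
    intro ξ _ τ hτ
    rw [Finset.mem_union, not_or]
    have : dei f ∉ τ := fun h => (Finset.disjoint_left.1 (disj_Ein_bdE S)) hfE' (hτ h)
    tauto
  have h3 : ZD q 1 s S = (1 + s) ^ (bdE S).card * Aw q s S := by
    unfold ZD Aw
    have h4 := wired_sum (q := q) (s := s) S (fun _ => True) (fun _ _ _ _ => Iff.rfl)
    simpa using h4
  rw [← hc, h2, h3] at h1
  have h4 : ∑ ξ ∈ (Ein S).powerset.filter (fun ξ => dei f ∉ ξ), q ^ (jW S ξ) * s ^ ξ.card ≤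
      c * Aw q s S := by
    have h5 : 0 < (1 + s) ^ (bdE S).card := by positivity
    have h6 : (1 + s) ^ (bdE S).card * (∑ ξ ∈ (Ein S).powerset.filter (fun ξ => dei f ∉ ξ),
        q ^ (jW S ξ) * s ^ ξ.card) ≤ (1 + s) ^ (bdE S).card * (c * Aw q s S) := by
      calc _ ≤ _ := h1
        _ = _ := by ring
    exact le_of_mul_le_mul_left h6 h5
  have h5 : ZD q q s D = Zf q s S := by
    unfold ZD Zf
    rw [hE]
    exact Finset.sum_congr rfl fun η _ => wt_free η
  have h6 : ∑ η ∈ (adjE D).powerset.filter (fun η => f ∈ η), wt q q s D η =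
      ∑ ζ ∈ (EE S).powerset.filter (fun ζ => f ∈ ζ), q ^ (comps (G (↑ζ)) S) * s ^ ζ.card := by
    rw [hE]
    exact Finset.sum_congr rfl fun η _ => wt_free η
  rw [h5, h6]
  have h7 := free_dual_sum hqs hS hfE
  have h8 := Zf_dual hqs hS
  have h9 : 0 < q ^ (Vint S).card := by positivity
  have h10 : q ^ (Vint S).card * (∑ ζ ∈ (EE S).powerset.filter (fun ζ => f ∈ ζ),
      q ^ (comps (G (↑ζ)) S) * s ^ ζ.card) ≤ q ^ (Vint S).card * (c * Zf q s S) := by
    rw [h7]
    calc q * s ^ (Ein S).card * _ ≤ q * s ^ (Ein S).card * (c * Aw q s S) :=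
          mul_le_mul_of_nonneg_left h4 (by positivity)
      _ = c * (q * s ^ (Ein S).card * Aw q s S) := by ring
      _ = c * (q ^ (Vint S).card * Zf q s S) := by rw [h8]
      _ = _ := by ring
  exact le_of_mul_le_mul_left h10 h9

end Pool.Agent.H962
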