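import Pool.Agent.H193.RF.Stm

/-!
# Project RF (helper193), part A, by helper962: finite index subgroups of `EL_3(R)` contain congruence
elementary matrices
-/

set_option autoImplicit false
set_option linter.unusedSectionVars false

namespace Pool.Agent.H962.RFA

open Pool.Agent.H258.CR
open Pool.Agent.H193.RF

variable {R : Type} [CommRing R]

/-- the entries of the elementary matrices in `L` -/
def II (L : Subgroup (Lam R)) : AddSubgroup R where
  carrier := {r | ∀ (i j : Fin 3) (h : i ≠ j), ee h r ∈ L}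
  zero_mem' := by
    intro i j h
    rw [ee_zero]
    exact L.one_mem
  add_mem' := by
    intro a b ha hb i j h
    rw [ee_add]
    exact L.mul_mem (ha i j h) (hb i j h)
  neg_mem' := by
    intro a ha i j h
    rw [ee_neg]
    exact L.inv_mem (ha i j h)

theorem mem_II {L : Subgroup (Lam R)} {r : R} :
    r ∈ II L ↔ ∀ (i j : Fin 3) (h : i ≠ j), ee h r ∈ L := Iff.rfl

theorem mul_II {L : Subgroup (Lam R)} {a b : R} (ha : a ∈ II L) (hb : b ∈ II L) :
    a * b ∈ II L := by
  intro i l hil
  obtain ⟨j, hij, hjl⟩ : ∃ j : Fin 3, i ≠ j ∧ j ≠ l := by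
    revert i l
    decide
  have h1 := ee_comm hij hjl hil a b
  have h2 : ee hil (a * b) = ee hij a * ee hjl b * (ee hjl b * ee hij a)⁻¹ := by
    rw [h1, mul_inv_cancel_right]
  rw [h2]
  exact L.mul_mem (L.mul_mem (ha i j hij) (hb j l hjl))
    (L.inv_mem (L.mul_mem (hb j l hjl) (ha i j hij)))

theorem fin_II {L : Subgroup (Lam R)} (hL : L.index ≠ 0) : Finite (R ⧸ II L) := by
  classical
  have hfi : L.FiniteIndex := ⟨hL⟩
  have hfin : Finite (Lam R ⧸ L) := inferInstance
  refine Finite.of_injective (fun (x : R ⧸ II L) (p : {p : Fin 3 × Fin 3 // p.1 ≠ p.2}) =>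
    (QuotientGroup.mk (ee p.2 x.out) : Lam R ⧸ L)) ?_
  intro x y hxy
  have h1 : -x.out + y.out ∈ II L := by
    intro i j h
    have h2 := congrFun hxy ⟨(i, j), h⟩
    have h3 : (ee h x.out)⁻¹ * ee h y.out ∈ L := QuotientGroup.eq.1 h2
    rw [ee_add, ee_neg]
    exact h3
  have h4 := QuotientAddGroup.eq.2 h1
  rw [QuotientAddGroup.out_eq', QuotientAddGroup.out_eq'] at h4
  exact h4

/-- the ideal -/
def JJ (L : Subgroup (Lam R)) : Ideal R where
  carrier := {x | ∀ y : R, x * y ∈ II L}
  zero_mem' := by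
    intro y
    rw [zero_mul]
    exact (II L).zero_mem
  add_mem' := by
    intro a b ha hb y
    rw [add_mul]
    exact (II L).add_mem (ha y) (hb y)
  smul_mem' := by
    intro c x hx y
    rw [smul_eq_mul, mul_comm c x, mul_assoc]
    exact hx (c * y)

theorem fin_JJ {L : Subgroup (Lam R)} (hL : L.index ≠ 0) : Finite (R ⧸ JJ L) := by
  classical
  have hfin := fin_II hL
  choose g hg using Ideal.Quotient.mk_surjective (I := JJ L)
  refine Finite.of_injective (fun x : R ⧸ JJ L => ((QuotientAddGroup.mk (g x) : R ⧸ II L),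
    fun q : R ⧸ II L => (QuotientAddGroup.mk (g x * q.out) : R ⧸ II L))) ?_
  intro x y hxy
  rw [Prod.mk.injEq] at hxy
  obtain ⟨h1, h2⟩ := hxy
  have h3 : -g x + g y ∈ II L := QuotientAddGroup.eq.1 h1
  have h4 : ∀ q : R ⧸ II L, (-g x + g y) * q.out ∈ II L := by
    intro q
    have h5 := QuotientAddGroup.eq.1 (congrFun h2 q)
    have h6 : (-g x + g y) * q.out = -(g x * q.out) + g y * q.out := by ring
    rw [h6]
    exact h5
  have h7 : -g x + g y ∈ JJ L := by
    intro w
    have h8 : -(QuotientAddGroup.mk w : R ⧸ II L).out + w ∈ II L := by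
      rw [← QuotientAddGroup.eq]
      exact QuotientAddGroup.out_eq' _
    have h9 : (-g x + g y) * w = (-g x + g y) * (QuotientAddGroup.mk w : R ⧸ II L).out +
        (-g x + g y) * (-(QuotientAddGroup.mk w : R ⧸ II L).out + w) := by ring
    rw [h9]
    exact (II L).add_mem (h4 _) (mul_II h3 h8)
  rw [← hg x, ← hg y]
  apply Ideal.Quotient.eq.2
  have h10 : g x - g y = -(-g x + g y) := by ring
  rw [h10]
  exact (JJ L).neg_mem h7

theorem s_A : Pool.Agent.H193.RF.S_A := by
  intro R _ L hL
  refine ⟨JJ L, fin_JJ hL, fun i j h r hr => ?_⟩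
  have h1 : r * 1 ∈ II L := hr 1
  rw [mul_one] at h1
  exact h1 i j h

end Pool.Agent.H962.RFA
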