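import Pool.Agent.H962.Comps

/-!
Partition functions inside a contour: Euler's formula and the key comparison.
-/

namespace Pool.Agent.H962

open Finset

lemma sum_powerset_union {α β : Type*} [DecidableEq α] [AddCommMonoid β] (A B : Finset α)
    (h : Disjoint A B) (f : Finset α → β) :
    ∑ x ∈ (A ∪ B).powerset, f x = ∑ a ∈ A.powerset, ∑ b ∈ B.powerset, f (a ∪ b) := by
  induction B using Finset.induction_on generalizing f with
  | empty => simp
  | insert b B hb ih =>
    rw [Finset.disjoint_insert_right] at h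
    have h1 : b ∉ A ∪ B := by
      rw [Finset.mem_union, not_or]
      exact ⟨h.1, hb⟩
    rw [Finset.union_insert, Finset.sum_powerset_insert h1, ih h.2, ih h.2,
      ← Finset.sum_add_distrib]
    apply Finset.sum_congr rfl
    intro a _
    rw [Finset.sum_powerset_insert hb]
    congr 1
    apply Finset.sum_congr rfl
    intro x _
    rw [Finset.union_insert]

lemma bdE_nonempty {W : Finset (ℤ × ℤ)} (hW : W.Nonempty) : (bdE W).Nonempty := by
  obtain ⟨c, hc, hmax⟩ := Finset.exists_max_image W (fun c => c.1) hW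
  refine ⟨((c.1 + 1, c.2), true), ?_⟩
  rw [mem_bdE]
  have h1 : (c.1 + 1, c.2) ∉ W := by
    intro h
    have := hmax _ h
    simp only at this
    omega
  simp only [c1, c2, if_true, add_sub_cancel_right]
  tauto

lemma bdV_nonempty {W : Finset (ℤ × ℤ)} (hW : W.Nonempty) : (bdV W).Nonempty := by
  obtain ⟨e, he⟩ := bdE_nonempty hW
  exact ⟨_, (bdE_bdV he).1⟩

/-- number of inside clusters not attached to the contour. -/
noncomputable def jW (W : Finset (ℤ × ℤ)) (ξ : Finset Edge) : ℕ :=
  comps (G (↑ξ)) (Ifree (↑ξ) (Vint W) (bdV W))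

lemma glue_dom {W : Finset (ℤ × ℤ)} {ξ : Finset Edge} (hξ : ξ ⊆ Ein W) {α : Set Edge}
    (hα : ∀ e ∈ α, e ∉ Ein W)
    (hg : ∀ g ∈ bdV W, ∀ g' ∈ bdV W, (G (↑ξ)).Reachable g g' → (G α).Reachable g g') :
    Glue α (↑ξ) (Vint W) (bdV W) where
  disj := fun g hg => (Finset.disjoint_left.1 (disj_bdV_Vint W)) hg
  hα := by
    intro e he
    constructor
    · intro h
      exact hα e he (Ein_of_Vint (Or.inl h))
    · intro h
      exact hα e he (Ein_of_Vint (Or.inr h))
  hξ := by
    intro e he
    have h1 := Ein_verts (hξ (Finset.mem_coe.1 he))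
    rw [verts_eq, Finset.mem_union, Finset.mem_union] at h1
    exact ⟨h1.1.symm, h1.2.symm⟩
  hg := hg

lemma comps_contour {W : Finset (ℤ × ℤ)} (hW : IsDom W) : comps (G (↑(bdE W))) (bdV W) = 1 :=
  comps_one (bdV_nonempty hW.nonempty) (fun _ hx _ hy => bdE_connected hW hx hy)

lemma comps_verts {W : Finset (ℤ × ℤ)} (hW : IsDom W) {ξ : Finset Edge} (hξ : ξ ⊆ Ein W) :
    comps (G (↑ξ ∪ ↑(bdE W))) (verts W) = 1 + jW W ξ := by
  have h1 : Glue (↑(bdE W)) (↑ξ) (Vint W) (bdV W) := by
    apply glue_dom hξ
    · intro e he he'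
      exact (Finset.disjoint_left.1 (disj_Ein_bdE W)) he' (Finset.mem_coe.1 he)
    · intro g hg g' hg' _
      exact bdE_connected hW hg hg'
  have h2 := glue_comps h1 (V' := bdV W) (Finset.Subset.refl _) h1.disj
  rw [Set.union_comm, verts_eq, h2, comps_contour hW]
  rfl

/-- Euler's formula inside a contour. -/
theorem euler {W : Finset (ℤ × ℤ)} (hW : IsDom W) {ξ : Finset Edge} (hξ : ξ ⊆ Ein W) :
    comps (H (↑ξ ∪ ↑(bdE W))) W + (Vint W).card = ξ.card + comps (G (↑ξ ∪ ↑(bdE W))) (verts W) := by
  classical
  induction ξ using Finset.induction_on with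
  | empty =>
    have h1 : comps (H (↑(∅ : Finset Edge) ∪ ↑(bdE W))) W = 1 := by
      rw [Finset.coe_empty, Set.empty_union]
      exact comps_one hW.nonempty hW.inn
    have h2 : comps (G (↑(∅ : Finset Edge) ∪ ↑(bdE W))) (verts W) = 1 + (Vint W).card := by
      rw [Finset.coe_empty, Set.empty_union, verts_eq, comps_union_disj, comps_contour hW]
      · congr 1
        apply comps_isolated
        intro x hx y hy hxy
        have h3 : (if x ∈ Vint W then some x else none) = (if y ∈ Vint W then some y else none) := by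
          refine G_reach_inv (fun v => if v ∈ Vint W then some v else none) ?_ hxy
          intro e he
          have h4 := bdE_bdV (Finset.mem_coe.1 he)
          have h5 := fun h => (Finset.disjoint_left.1 (disj_bdV_Vint W)) h4.1 h
          have h6 := fun h => (Finset.disjoint_left.1 (disj_bdV_Vint W)) h4.2 h
          rw [if_neg h5, if_neg h6]
        rw [if_pos hx, if_pos hy] at h3
        exact Option.some.inj h3
      · intro x hx y hy hxy
        have h3 : (x ∈ Vint W) = (y ∈ Vint W) := by
          refine G_reach_inv (fun v => v ∈ Vint W) ?_ hxy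
          intro e he
          have h4 := bdE_bdV (Finset.mem_coe.1 he)
          have h5 := fun h => (Finset.disjoint_left.1 (disj_bdV_Vint W)) h4.1 h
          have h6 := fun h => (Finset.disjoint_left.1 (disj_bdV_Vint W)) h4.2 h
          simp only [eq_iff_iff]
          tauto
        exact (Finset.disjoint_left.1 (disj_bdV_Vint W)) hx (h3 ▸ hy)
    rw [h1, h2, Finset.card_empty]
    omega
  | insert e ξ he ih =>
    have heE : e ∈ Ein W := hξ (Finset.mem_insert_self _ _)
    have hξ' : ξ ⊆ Ein W := fun f hf => hξ (Finset.mem_insert_of_mem hf)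
    have ih' := ih hξ'
    set η : Set Edge := ↑ξ ∪ ↑(bdE W) with hη
    have heη : e ∉ η := by
      rintro (h | h)
      · exact he (Finset.mem_coe.1 h)
      · exact (Finset.disjoint_left.1 (disj_Ein_bdE W)) heE (Finset.mem_coe.1 h)
    have hins : (↑(insert e ξ) ∪ ↑(bdE W) : Set Edge) = insert e η := by
      rw [Finset.coe_insert, Set.insert_union]
    rw [hins, Finset.card_insert_of_notMem he]
    have hv := Ein_verts heE
    have hcells := mem_Ein.1 heE
    by_cases hr : (G η).Reachable (src e) (tgt e)
    · have h1 := comps_add_of_reach (S := verts W) (G_insert_le η e) (G_insert_adj η e) hr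
      have h2 := sep_of_cycle heη hr
      have h3 := comps_add_of_not_reach (S := W) hcells.1 hcells.2 (H_insert_le η e)
        (H_reach_edge heη) (H_insert_adj η e) h2
      omega
    · have h1 := comps_add_of_not_reach (S := verts W) hv.1 hv.2 (G_insert_le η e)
        (G_reach_edge (Set.mem_insert _ _)) (G_insert_adj η e) hr
      have h2 : (H (insert e η)).Reachable (c1 e) (c2 e) := by
        by_contra hcon
        apply hr
        apply cycle_of_sep (W.filter (fun c => (H (insert e η)).Reachable (c1 e) c))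
        · rw [Finset.mem_filter, Finset.mem_filter]
          intro h
          exact hcon (h.1 ⟨hcells.1, SimpleGraph.Reachable.refl _⟩).2
        · intro f hf
          by_contra hcon2
          rw [not_or] at hcon2
          have hf2 : f ∉ insert e η := by
            rw [Set.mem_insert_iff, not_or]
            exact hcon2
          have hf3 := H_reach_edge hf2
          have hf4 : (c1 f ∈ W ↔ c2 f ∈ W) := by
            by_contra h
            exact hcon2.2 (Or.inr (Finset.mem_coe.2 (mem_bdE.2 h)))
          apply hf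
          rw [Finset.mem_filter, Finset.mem_filter, hf4]
          constructor
          · rintro ⟨h5, h6⟩
            exact ⟨h5, h6.trans hf3⟩
          · rintro ⟨h5, h6⟩
            exact ⟨h5, h6.trans hf3.symm⟩
      have h3 := comps_add_of_reach (S := W) (H_insert_le η e) (H_insert_adj η e) h2
      omega

theorem euler_j {W : Finset (ℤ × ℤ)} (hW : IsDom W) {ξ : Finset Edge} (hξ : ξ ⊆ Ein W) :
    comps (H (↑ξ ∪ ↑(bdE W))) W + (Vint W).card = ξ.card + 1 + jW W ξ := by
  rw [euler hW hξ, comps_verts hW hξ]
  ring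

/-! ### Counting edges -/

lemma mem_cellEdges {c : ℤ × ℤ} {e : Edge} : e ∈ cellEdges c ↔ c1 e = c ∨ c2 e = c := by
  obtain ⟨i, j⟩ := c
  obtain ⟨⟨a, b⟩, t⟩ := e
  cases t
  · simp only [cellEdges, Finset.mem_insert, Finset.mem_singleton, Prod.mk.injEq, and_true,
        Bool.false_eq_true, and_false, or_false, false_or, c1, c2, if_false]
    omega
  · simp only [cellEdges, Finset.mem_insert, Finset.mem_singleton, Prod.mk.injEq, and_true,
        Bool.true_eq_false, and_false, false_or, c1, c2, if_true]
    omega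

lemma card_cellEdges (c : ℤ × ℤ) : (cellEdges c).card = 4 := by
  obtain ⟨i, j⟩ := c
  unfold cellEdges
  rw [Finset.card_insert_of_notMem, Finset.card_insert_of_notMem, Finset.card_insert_of_notMem,
    Finset.card_singleton]
  · simp
  · simp
  · simp

lemma c1_ne_c2 (e : Edge) : c1 e ≠ c2 e := by
  obtain ⟨⟨a, b⟩, t⟩ := e
  cases t <;> simp [c1, c2] <;> omega

lemma src_ne_tgt (e : Edge) : src e ≠ tgt e := by
  obtain ⟨⟨a, b⟩, t⟩ := e
  cases t <;> simp [src, tgt]

lemma card_edges (W : Finset (ℤ × ℤ)) : 4 * W.card = 2 * (Ein W).card + (bdE W).card := by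
  classical
  have h1 : 4 * W.card = ∑ c ∈ W, ∑ e ∈ adjE W, if e ∈ cellEdges c then 1 else 0 := by
    have : ∀ c ∈ W, (∑ e ∈ adjE W, if e ∈ cellEdges c then 1 else 0) = 4 := by
      intro c hc
      rw [Finset.sum_boole, Finset.filter_mem_eq_inter, Finset.inter_eq_right.2, card_cellEdges]
      · rfl
      · exact Finset.subset_biUnion_of_mem cellEdges hc
    rw [Finset.sum_congr rfl this, Finset.sum_const, smul_eq_mul, mul_comm]
  rw [h1, Finset.sum_comm, adjE_eq, Finset.sum_union (disj_Ein_bdE W)]
  congr 1
  · have : ∀ e ∈ Ein W, (∑ c ∈ W, if e ∈ cellEdges c then 1 else 0) = 2 := by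
      intro e he
      rw [mem_Ein] at he
      rw [Finset.sum_boole]
      have h2 : W.filter (fun c => e ∈ cellEdges c) = {c1 e, c2 e} := by
        ext c
        rw [Finset.mem_filter, mem_cellEdges, Finset.mem_insert, Finset.mem_singleton]
        constructor
        · rintro ⟨-, h | h⟩
          · exact Or.inl h.symm
          · exact Or.inr h.symm
        · rintro (rfl | rfl)
          · exact ⟨he.1, Or.inl rfl⟩
          · exact ⟨he.2, Or.inr rfl⟩
      rw [h2, Finset.card_pair (c1_ne_c2 e)]
      rfl
    rw [Finset.sum_congr rfl this, Finset.sum_const, smul_eq_mul, mul_comm]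
  · have : ∀ e ∈ bdE W, (∑ c ∈ W, if e ∈ cellEdges c then 1 else 0) = 1 := by
      intro e he
      rw [mem_bdE] at he
      rw [Finset.sum_boole]
      by_cases h3 : c1 e ∈ W
      · have h4 : c2 e ∉ W := by tauto
        have h2 : W.filter (fun c => e ∈ cellEdges c) = {c1 e} := by
          ext c
          rw [Finset.mem_filter, mem_cellEdges, Finset.mem_singleton]
          constructor
          · rintro ⟨hc, rfl | rfl⟩
            · rfl
            · exact absurd hc h4
          · rintro rfl
            exact ⟨h3, Or.inl rfl⟩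
        rw [h2, Finset.card_singleton]
        rfl
      · have h4 : c2 e ∈ W := by tauto
        have h2 : W.filter (fun c => e ∈ cellEdges c) = {c2 e} := by
          ext c
          rw [Finset.mem_filter, mem_cellEdges, Finset.mem_singleton]
          constructor
          · rintro ⟨hc, rfl | rfl⟩
            · exact absurd hc h3
            · rfl
          · rintro rfl
            exact ⟨h4, Or.inr rfl⟩
        rw [h2, Finset.card_singleton]
        rfl
    rw [Finset.sum_congr rfl this, Finset.sum_const, smul_eq_mul, mul_one]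

/-! ### Duality map -/

/-- The dual edge (joining the cells of `e`), as an edge of the lattice of cells. -/
def de (e : Edge) : Edge := (c2 e, !e.2)

/-- inverse of `de`. -/
def dei (f : Edge) : Edge := (tgt f, !f.2)

lemma dei_de (e : Edge) : dei (de e) = e := by
  obtain ⟨⟨a, b⟩, t⟩ := e
  cases t <;> simp [de, dei, c2, tgt]

lemma de_dei (e : Edge) : de (dei e) = e := by
  obtain ⟨⟨a, b⟩, t⟩ := e
  cases t <;> simp [de, dei, c2, tgt]

lemma src_de (e : Edge) : src (de e) = c2 e := rfl

lemma tgt_de (e : Edge) : tgt (de e) = c1 e := by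
  obtain ⟨⟨a, b⟩, t⟩ := e
  cases t <;> simp [de, c1, c2, tgt]

lemma de_inj : Function.Injective de := Function.LeftInverse.injective dei_de

lemma dei_inj : Function.Injective dei := Function.LeftInverse.injective de_dei

/-- edges with both endpoints in `S`. -/
def EE (S : Finset (ℤ × ℤ)) : Finset Edge := (Ein S).image de

lemma mem_EE {S : Finset (ℤ × ℤ)} {f : Edge} : f ∈ EE S ↔ src f ∈ S ∧ tgt f ∈ S := by
  unfold EE
  rw [Finset.mem_image]
  constructor
  · rintro ⟨e, he, rfl⟩
    rw [mem_Ein] at he
    rw [src_de, tgt_de]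
    exact ⟨he.2, he.1⟩
  · rintro ⟨h1, h2⟩
    refine ⟨dei f, ?_, de_dei f⟩
    rw [mem_Ein, ← tgt_de, ← src_de, de_dei]
    exact ⟨h2, h1⟩

/-- The cell graph of `ξ ∪ ∂W` restricted to `W` is the dual configuration. -/
lemma comps_dual {W : Finset (ℤ × ℤ)} {ξ : Finset Edge} (hξ : ξ ⊆ Ein W) :
    comps (H (↑ξ ∪ ↑(bdE W))) W = comps (G (↑((Ein W \ ξ).image de))) W := by
  classical
  apply comps_congr
  intro x hx y hy
  constructor
  · intro hr
    set K := G (↑((Ein W \ ξ).image de) : Set Edge) with hK
    have h1 : (if x ∈ W then some (K.connectedComponentMk x) else none)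
        = (if y ∈ W then some (K.connectedComponentMk y) else none) := by
      refine H_reach_inv (fun v => if v ∈ W then some (K.connectedComponentMk v) else none) ?_ hr
      intro e he
      have he1 : e ∉ ξ := fun h => he (Or.inl (Finset.mem_coe.2 h))
      have he2 : e ∉ bdE W := fun h => he (Or.inr (Finset.mem_coe.2 h))
      rw [mem_bdE, not_not] at he2
      by_cases h3 : c1 e ∈ W
      · have h4 := he2.1 h3
        rw [if_pos h3, if_pos h4]
        congr 1
        apply SimpleGraph.ConnectedComponent.sound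
        have h5 : de e ∈ (↑((Ein W \ ξ).image de) : Set Edge) := by
          rw [Finset.mem_coe]
          apply Finset.mem_image_of_mem
          rw [Finset.mem_sdiff, mem_Ein]
          exact ⟨⟨h3, h4⟩, he1⟩
        have h6 := G_reach_edge h5
        rw [src_de, tgt_de] at h6
        exact h6.symm
      · have h4 : c2 e ∉ W := fun h => h3 (he2.2 h)
        rw [if_neg h3, if_neg h4]
    rw [if_pos hx, if_pos hy] at h1
    exact SimpleGraph.ConnectedComponent.exact (Option.some.inj h1)
  · intro hr
    refine reach_mono ?_ hr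
    rintro u v ⟨f, hf, h'⟩
    rw [Finset.mem_coe, Finset.mem_image] at hf
    obtain ⟨e, he, rfl⟩ := hf
    rw [Finset.mem_sdiff] at he
    have h2 : e ∉ (↑ξ ∪ ↑(bdE W) : Set Edge) := by
      rintro (h | h)
      · exact he.2 (Finset.mem_coe.1 h)
      · exact (Finset.disjoint_left.1 (disj_Ein_bdE W)) he.1 (Finset.mem_coe.1 h)
    have h3 := H_reach_edge h2
    rw [src_de, tgt_de] at h'
    rcases h' with ⟨rfl, rfl⟩ | ⟨rfl, rfl⟩
    · exact h3.symm
    · exact h3

/-! ### Partition functions -/

/-- free partition function on the vertex set `S` -/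
noncomputable def Zf (q s : ℝ) (S : Finset (ℤ × ℤ)) : ℝ :=
  ∑ ζ ∈ (EE S).powerset, q ^ (comps (G (↑ζ)) S) * s ^ ζ.card

/-- wired partition function inside the contour of `W`. -/
noncomputable def Aw (q s : ℝ) (W : Finset (ℤ × ℤ)) : ℝ :=
  ∑ ξ ∈ (Ein W).powerset, q ^ (jW W ξ) * s ^ ξ.card

open Classical in
/-- the same, restricted to `Conn` configurations. -/
noncomputable def Aconn (q s : ℝ) (W : Finset (ℤ × ℤ)) : ℝ :=
  ∑ ξ ∈ (Ein W).powerset.filter (fun ξ => Conn W ξ), q ^ (jW W ξ) * s ^ ξ.card

/-- Termwise duality. -/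
lemma dual_term {q s : ℝ} (hqs : s * s = q) {W : Finset (ℤ × ℤ)} (hW : IsDom W)
    {ξ : Finset Edge} (hξ : ξ ⊆ Ein W) :
    q ^ (Vint W).card * (q ^ (comps (G (↑((Ein W \ ξ).image de))) W) *
      s ^ ((Ein W \ ξ).image de).card) = q * s ^ (Ein W).card * (q ^ (jW W ξ) * s ^ ξ.card) := by
  rw [← comps_dual hξ, Finset.card_image_of_injective _ de_inj, Finset.card_sdiff_of_subset hξ]
  have h1 := euler_j hW hξ
  have h2 := Finset.card_le_card hξ
  have h3 : q ^ (Vint W).card * (q ^ comps (H (↑ξ ∪ ↑(bdE W))) W) = q ^ (ξ.card + 1 + jW W ξ) := by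
    rw [← pow_add, ← h1, add_comm]
  have h4 : s ^ (Ein W).card = s ^ ((Ein W).card - ξ.card) * s ^ ξ.card := by
    rw [← pow_add]
    congr 1
    omega
  rw [← mul_assoc, h3, h4, pow_add, pow_add, ← hqs, mul_pow]
  ring

lemma Zf_dual {q s : ℝ} (hqs : s * s = q) {W : Finset (ℤ × ℤ)} (hW : IsDom W) :
    q ^ (Vint W).card * Zf q s W = q * s ^ (Ein W).card * Aw q s W := by
  classical
  unfold Zf Aw
  rw [Finset.mul_sum, Finset.mul_sum]
  symm
  apply Finset.sum_bij' (fun ξ _ => (Ein W \ ξ).image de) (fun ζ _ => Ein W \ (ζ.image dei))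
  · intro ξ hξ
    rw [Finset.mem_powerset]
    exact Finset.image_subset_image Finset.sdiff_subset
  · intro ζ hζ
    rw [Finset.mem_powerset]
    exact Finset.sdiff_subset
  · intro ξ hξ
    rw [Finset.mem_powerset] at hξ
    rw [Finset.image_image]
    have : (dei ∘ de) = id := by
      funext e
      exact dei_de e
    rw [this, Finset.image_id, Finset.sdiff_sdiff_eq_self hξ]
  · intro ζ hζ
    rw [Finset.mem_powerset] at hζ
    have h1 : ζ.image dei ⊆ Ein W := by
      intro e he
      rw [Finset.mem_image] at he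
      obtain ⟨f, hf, rfl⟩ := he
      have := mem_EE.1 (hζ hf)
      rw [mem_Ein, ← tgt_de, ← src_de, de_dei]
      exact ⟨this.2, this.1⟩
    rw [Finset.sdiff_sdiff_eq_self h1, Finset.image_image]
    have : (de ∘ dei) = id := by
      funext e
      exact de_dei e
    rw [this, Finset.image_id]
  · intro ξ hξ
    rw [Finset.mem_powerset] at hξ
    exact (dual_term hqs hW hξ).symm

lemma Zf_mono {q s : ℝ} (hq : 0 ≤ q) (hs : 0 ≤ s) {S T : Finset (ℤ × ℤ)} (h : S ⊆ T) :
    q ^ T.card * Zf q s S ≤ q ^ S.card * Zf q s T := by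
  classical
  unfold Zf
  rw [Finset.mul_sum, Finset.mul_sum]
  have hsub : (EE S).powerset ⊆ (EE T).powerset := by
    apply Finset.powerset_mono.2
    intro e he
    rw [mem_EE] at he ⊢
    exact ⟨h he.1, h he.2⟩
  refine le_trans (le_of_eq ?_) (Finset.sum_le_sum_of_subset_of_nonneg hsub
    (fun ζ _ _ => by positivity))
  apply Finset.sum_congr rfl
  intro ζ hζ
  rw [Finset.mem_powerset] at hζ
  have h1 : comps (G (↑ζ)) T = comps (G (↑ζ)) S + (T \ S).card := by
    have h2 : T = S ∪ (T \ S) := (Finset.union_sdiff_of_subset h).symm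
    conv_lhs => rw [h2]
    have key : ∀ x ∉ S, ∀ y, (G (↑ζ : Set Edge)).Reachable x y → x = y := by
      intro x hx y hxy
      have h3 : (if x ∈ S then none else some x) = (if y ∈ S then none else some y) := by
        refine G_reach_inv (fun v => if v ∈ S then none else some v) ?_ hxy
        intro e he
        have h4 := mem_EE.1 (hζ (Finset.mem_coe.1 he))
        rw [if_pos h4.1, if_pos h4.2]
      rw [if_neg hx] at h3
      by_cases hy : y ∈ S
      · rw [if_pos hy] at h3
        exact absurd h3 (by simp)
      · rw [if_neg hy] at h3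
        exact Option.some.inj h3
    rw [comps_union_disj, comps_isolated (S := T \ S)]
    · intro x hx y _ hxy
      rw [Finset.mem_sdiff] at hx
      exact key x hx.2 y hxy
    · intro x hx y hy hxy
      rw [Finset.mem_sdiff] at hy
      have := key y hy.2 x hxy.symm
      rw [this] at hy
      exact hy.2 hx
  rw [h1]
  have h5 : (T \ S).card + S.card = T.card := Finset.card_sdiff_add_card_eq_card h
  rw [← h5, pow_add, pow_add]
  ring

end Pool.Agent.H962
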